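import Pool.Agent.KGS.Defs

/-!
# KGS, row NIL: the augmentation ideal acts nilpotently
-/

open Representation

namespace Pool.Agent.KGS

open Pool.Agent.KFV Pool.Agent.KFE

section

variable {F : Type*} [Field F] {P L : Type*} [Group P] [AddCommGroup L] [Module F L]

theorem nil_aug_mem (σ : Representation F P L) {A : Submodule F L} (q : P) {a : L} (ha : a ∈ A) :
    σ q a - a ∈ aug σ ⊤ A :=
  Submodule.subset_span ⟨q, Subgroup.mem_top q, a, ha, rfl⟩

theorem nil_aug_le (σ : Representation F P L) {A : Submodule F L}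
    (hA : ∀ q, ∀ a ∈ A, σ q a ∈ A) : aug σ ⊤ A ≤ A := by
  refine Submodule.span_le.2 ?_
  rintro v ⟨r, -, a, ha, rfl⟩
  exact A.sub_mem (hA r a ha) ha

theorem nil_aug_stable (σ : Representation F P L) {A : Submodule F L}
    (hA : ∀ q, ∀ a ∈ A, σ q a ∈ A) : ∀ q, ∀ a ∈ aug σ ⊤ A, σ q a ∈ aug σ ⊤ A := by
  intro q a ha
  have h1 : aug σ ⊤ A ≤ (aug σ ⊤ A).comap (σ q) := by
    refine Submodule.span_le.2 ?_
    rintro v ⟨r, -, a, ha, rfl⟩
    show σ q (σ r a - a) ∈ aug σ ⊤ A
    have h2 : σ q (σ r a - a) = σ (q * r * q⁻¹) (σ q a) - σ q a := by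
      rw [map_sub]
      congr 1
      rw [← Module.End.mul_apply, ← map_mul, ← Module.End.mul_apply, ← map_mul]
      congr 2
      group
    rw [h2]
    exact nil_aug_mem σ _ (hA q a ha)
  exact h1 ha

theorem aug_lt [Finite P] [FiniteDimensional F L] (p : ℕ) [Fact p.Prime] [CharP F p]
    (hP : IsPGroup p P) (σ : Representation F P L) (A : Submodule F L)
    (hA : ∀ q, ∀ a ∈ A, σ q a ∈ A) (h0 : A ≠ ⊥) : aug σ ⊤ A < A := by
  refine lt_of_le_of_ne (nil_aug_le σ hA) ?_
  intro heq
  let τ : Representation F P A :=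
    { toFun := fun q => (σ q).restrict (hA q)
      map_one' := by
        ext1 a
        apply Subtype.ext
        simp only [LinearMap.restrict_apply, map_one, Module.End.one_apply]
      map_mul' := by
        intro q q'
        ext1 a
        apply Subtype.ext
        simp only [LinearMap.restrict_apply, map_mul, Module.End.mul_apply] }
  have hτ : ∀ q (a : A), ((τ q a : A) : L) = σ q a := fun q a => rfl
  have : Nontrivial A := (Submodule.nontrivial_iff_ne_bot).2 h0
  obtain ⟨f, hf, hfix⟩ := exists_fixed_vector (L := Module.Dual F A) p hP τ.dual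
  have hf' : ∀ g x, f (τ g x) = f x := by
    intro g x
    have h1 := LinearMap.congr_fun (hfix g⁻¹) x
    rw [Representation.dual_apply, inv_inv] at h1
    exact h1
  apply hf
  ext a
  have h1 : aug σ ⊤ A ≤ (LinearMap.ker f).map A.subtype := by
    refine Submodule.span_le.2 ?_
    rintro v ⟨r, -, a, ha, rfl⟩
    refine ⟨τ r ⟨a, ha⟩ - ⟨a, ha⟩, ?_, ?_⟩
    · show f (τ r ⟨a, ha⟩ - ⟨a, ha⟩) = 0
      rw [map_sub, hf', sub_self]
    · rfl
  have h2 : (a : L) ∈ (LinearMap.ker f).map A.subtype := h1 (by
    rw [heq]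
    exact a.2)
  obtain ⟨b, hb, hba⟩ := h2
  have h3 : b = a := Subtype.ext hba
  rw [← h3]
  exact hb

theorem chain_dim [Finite P] [FiniteDimensional F L] (p : ℕ) [Fact p.Prime] [CharP F p]
    (hP : IsPGroup p P) (σ : Representation F P L) (A : Submodule F L)
    (hA : ∀ q, ∀ a ∈ A, σ q a ∈ A) (l : List P) (a : L) (ha : a ∈ A)
    (h : (l.map fun q => (σ q - 1 : Module.End F L)).prod a ≠ 0) :
    l.length < Module.finrank F A := by
  induction l using List.reverseRecOn generalizing A a with
  | nil =>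
    have ha0 : a ≠ 0 := by simpa using h
    have : Nontrivial A := ⟨⟨a, ha⟩, 0, fun h => ha0 (congrArg Subtype.val h)⟩
    exact Module.finrank_pos
  | append_singleton l q ih =>
    rw [List.map_append, List.prod_append, List.map_singleton, List.prod_singleton,
      Module.End.mul_apply] at h
    have ha0 : a ≠ 0 := by
      rintro rfl
      rw [map_zero, map_zero] at h
      exact h rfl
    have hA0 : A ≠ ⊥ := by
      rintro rfl
      exact ha0 ((Submodule.mem_bot F).1 ha)
    have h1 := ih (aug σ ⊤ A) (nil_aug_stable σ hA) ((σ q - 1 : Module.End F L) a)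
      (nil_aug_mem σ q ha) h
    have h2 := Submodule.finrank_lt_finrank_of_lt (aug_lt p hP σ A hA hA0)
    rw [List.length_append, List.length_singleton]
    omega

theorem lw_finrank [Finite P] [FiniteDimensional F L] (p : ℕ) [Fact p.Prime] [CharP F p]
    (hP : IsPGroup p P) (σ : Representation F P L) : lw σ (Module.finrank F L) = ⊥ := by
  have key : ∀ k, (∀ q, ∀ a ∈ lw σ k, σ q a ∈ lw σ k) ∧
      Module.finrank F (lw σ k) ≤ Module.finrank F L - k := by
    intro k
    induction k with
    | zero => exact ⟨fun q a _ => Submodule.mem_top, Submodule.finrank_le _⟩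
    | succ k ih =>
      refine ⟨nil_aug_stable σ ih.1, ?_⟩
      by_cases h0 : lw σ k = ⊥
      · have h1 : lw σ (k + 1) = ⊥ := by
          have h2 : lw σ (k + 1) ≤ lw σ k := nil_aug_le σ ih.1
          rw [h0] at h2
          exact le_bot_iff.1 h2
        rw [h1, finrank_bot]
        exact Nat.zero_le _
      · have h1 := Submodule.finrank_lt_finrank_of_lt (aug_lt p hP σ (lw σ k) ih.1 h0)
        have h2 := ih.2
        show Module.finrank F (aug σ ⊤ (lw σ k)) ≤ _
        omega
  have h1 := (key (Module.finrank F L)).2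
  rw [Nat.sub_self] at h1
  exact Submodule.finrank_eq_zero.1 (Nat.le_zero.1 h1)

end

end Pool.Agent.KGS
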