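import Pool.Agent.KGS.Defs

/-!
# KGS, row TRF: the relative trace from a maximal subgroup
-/

open Representation

namespace Pool.Agent.KGS

open Pool.Agent.KFV Pool.Agent.KFE

section

variable {F : Type*} [Field F] {P L : Type*} [Group P] [AddCommGroup L] [Module F L]

open Polynomial in
private theorem trf_geom (p : ℕ) [Fact p.Prime] [CharP F p] :
    ∑ i ∈ Finset.range p, (X : F[X]) ^ i = (X + C (-1)) ^ (p - 1) := by
  have hp : p.Prime := Fact.out
  have e : (X + C (-1) : F[X]) = X - 1 := by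
    rw [Polynomial.C_neg, Polynomial.C_1, sub_eq_add_neg]
  have hne : (X - 1 : F[X]) ≠ 0 := by
    have := Polynomial.X_sub_C_ne_zero (1 : F)
    simpa using this
  rw [e]
  apply mul_left_cancel₀ hne
  rw [mul_geom_sum, ← pow_succ', Nat.sub_add_cancel hp.one_le,
    sub_pow_char_of_commute _ (Commute.one_right _), one_pow]

open Polynomial in
private theorem trf_coef (p : ℕ) [Fact p.Prime] [CharP F p] (m : ℕ) (hm : m < p) :
    (-1 : F) ^ (p - 1 - m) * ((p - 1).choose m : F) = 1 := by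
  have h := congrArg (fun f : F[X] => f.coeff m) (trf_geom (F := F) p)
  simp only [Polynomial.finsetSum_coeff, Polynomial.coeff_X_pow, Polynomial.coeff_X_add_C_pow] at h
  rw [← h, Finset.sum_ite_eq, if_pos (Finset.mem_range.2 hm)]

private theorem trf_two {A : Type*} [Ring A] [Algebra F A] (p : ℕ) [Fact p.Prime] [CharP F p]
    (c d : A) (h : Commute c d) :
    ∑ i ∈ Finset.range p, c ^ i * d ^ (p - 1 - i) = (c - d) ^ (p - 1) := by
  have hp : p.Prime := Fact.out
  have h1 : p - 1 + 1 = p := Nat.sub_add_cancel hp.one_le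
  rw [sub_eq_add_neg, h.neg_right.add_pow, h1]
  refine Finset.sum_congr rfl fun i hi => ?_
  have h2 := trf_coef (F := F) p i (Finset.mem_range.1 hi)
  have h3 : ((-1 : A) ^ (p - 1 - i)) * (((p - 1).choose i : ℕ) : A) = 1 := by
    have h4 := congrArg (algebraMap F A) h2
    simpa using h4
  have h5 : Commute (d ^ (p - 1 - i)) ((((p - 1).choose i : ℕ) : A)) :=
    (Nat.cast_commute _ _).symm
  rw [neg_pow, mul_assoc, mul_assoc, h5.eq, ← mul_assoc ((-1 : A) ^ (p - 1 - i)), h3, one_mul]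

private theorem trf_sum {L : Type*} [AddCommGroup L] [Module F L] (p : ℕ) [Fact p.Prime]
    [CharP F p] (x θ : Module.End F L) :
    ∑ i ∈ Finset.range p, x ^ i * θ * x ^ (p - 1 - i) =
      ∑ i ∈ Finset.range p, (x - 1) ^ i * θ * (x - 1) ^ (p - 1 - i) := by
  have key : ∀ y : Module.End F L, ∑ i ∈ Finset.range p, y ^ i * θ * y ^ (p - 1 - i) =
      ((LinearMap.mulLeft F y - LinearMap.mulRight F y) ^ (p - 1)) θ := by
    intro y
    rw [← trf_two (F := F) p _ _ (LinearMap.commute_mulLeft_right y y), LinearMap.sum_apply]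
    refine Finset.sum_congr rfl fun i _ => ?_
    rw [LinearMap.pow_mulLeft, LinearMap.pow_mulRight]
    simp [mul_assoc]
  rw [key, key]
  congr 2
  ext1 θ
  simp only [LinearMap.sub_apply, LinearMap.mulLeft_apply, LinearMap.mulRight_apply]
  noncomm_ring

private theorem trf_pow {L : Type*} [AddCommGroup L] [Module F L]
    [FiniteDimensional F L] (p : ℕ) [Fact p.Prime] [CharP F p] (x : Module.End F L)
    (k : ℕ) (hk : x ^ (p ^ k) = 1) (hd : Module.finrank F L < p) : x ^ p = 1 := by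
  rcases subsingleton_or_nontrivial L with hL | hL
  · exact Subsingleton.elim _ _
  have : CharP (Module.End F L) p := charP_of_injective_algebraMap
    (algebraMap F (Module.End F L)).injective p
  have h0 : IsNilpotent (x - 1) := ⟨p ^ k, by
    rw [sub_pow_char_pow_of_commute _ _ (Commute.one_right _), hk, one_pow, sub_self]⟩
  have h1 := IsNilpotent.charpoly_eq_X_pow_finrank h0
  have h2 := LinearMap.aeval_self_charpoly (x - 1)
  rw [h1] at h2
  have h3 : (x - 1) ^ Module.finrank F L = 0 := by simpa using h2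
  have h4 : (x - 1) ^ p = 0 := pow_eq_zero_of_le hd.le h3
  rw [sub_pow_char_of_commute _ (Commute.one_right _), one_pow] at h4
  exact sub_eq_zero.1 h4

private theorem trf_coset {P L : Type*} [Group P] [AddCommGroup L] [Module F L]
    (σ : Representation F P L) (R : Subgroup P) (θ : L →ₗ[F] L)
    (hθ : ∀ r ∈ R, θ ∘ₗ σ r = σ r ∘ₗ θ) (g h : P) (hgh : (g : P ⧸ R) = h) :
    σ g ∘ₗ θ ∘ₗ σ g⁻¹ = σ h ∘ₗ θ ∘ₗ σ h⁻¹ := by
  have h1 : g⁻¹ * h ∈ R := QuotientGroup.eq.1 hgh
  have h3 : h⁻¹ = (g⁻¹ * h)⁻¹ * g⁻¹ := by group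
  have h2 : h = g * (g⁻¹ * h) := by group
  generalize g⁻¹ * h = r at *
  subst h2
  rw [h3]
  have h4 := hθ _ (R.inv_mem h1)
  have h5 : σ r ∘ₗ σ r⁻¹ = LinearMap.id := by
    rw [← Module.End.mul_eq_comp, ← map_mul, mul_inv_cancel, map_one]; rfl
  have h6 : θ = σ r ∘ₗ θ ∘ₗ σ r⁻¹ := by
    rw [h4, ← LinearMap.comp_assoc, h5, LinearMap.id_comp]
  conv_lhs => rw [h6]
  rw [map_mul, map_mul]
  rfl

private theorem trf_gen {P : Type*} [Group P] (M : Subgroup P) [M.Normal] (hM : IsCoatom M)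
    (x : P) (hx : x ∉ M) (z : P ⧸ M) : z ∈ Subgroup.zpowers (x : P ⧸ M) := by
  have h1 : M ≤ (Subgroup.zpowers (x : P ⧸ M)).comap (QuotientGroup.mk' M) := by
    intro y hy
    rw [Subgroup.mem_comap]
    have : QuotientGroup.mk' M y = 1 := (QuotientGroup.eq_one_iff y).2 hy
    rw [this]
    exact Subgroup.one_mem _
  have h2 : (Subgroup.zpowers (x : P ⧸ M)).comap (QuotientGroup.mk' M) ≠ M := by
    intro h
    have hx' : x ∈ (Subgroup.zpowers (x : P ⧸ M)).comap (QuotientGroup.mk' M) := by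
      rw [Subgroup.mem_comap]
      exact Subgroup.mem_zpowers _
    rw [h] at hx'
    exact hx hx'
  have h3 := hM.2 _ (lt_of_le_of_ne h1 (Ne.symm h2))
  obtain ⟨y, rfl⟩ := QuotientGroup.mk_surjective z
  have : y ∈ (Subgroup.zpowers (x : P ⧸ M)).comap (QuotientGroup.mk' M) := by
    rw [h3]; trivial
  exact this

/-- ROW TRF. -/
theorem relTr_coatom [Finite P] [FiniteDimensional F L] (p : ℕ) [Fact p.Prime] [CharP F p]
    (hP : IsPGroup p P) (σ : Representation F P L) (hd : Module.finrank F L < p)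
    (R : Subgroup P) (hR : IsCoatom R) (x : P) (hx : x ∉ R) (g : Module.End F L)
    (hg : ∀ r ∈ R, g ∘ₗ σ r = σ r ∘ₗ g) :
    relTr σ σ R g = ∑ i ∈ Finset.range p,
      (σ x - 1 : Module.End F L) ^ i * g * (σ x - 1) ^ (p - 1 - i) * σ x := by
  have hp : p.Prime := Fact.out
  have := hP.isNilpotent
  have hnorm : R.Normal := Subgroup.NormalizerCondition.normal_of_coatom R
    Group.normalizerCondition_of_isNilpotent hR
  have hne : Nontrivial (P ⧸ R) := QuotientGroup.nontrivial_iff.2 hR.1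
  have hQ : IsPGroup p (P ⧸ R) := hP.to_quotient R
  have hdvd : p ∣ Nat.card (P ⧸ R) := by
    obtain ⟨n, hn, hn'⟩ := (hQ.nontrivial_iff_card).1 hne
    rw [hn']
    exact dvd_pow_self p (by omega)
  have hcard : Nat.card (P ⧸ R) = p := by
    obtain ⟨c, hc⟩ := exists_prime_orderOf_dvd_card' p hdvd
    obtain ⟨y, rfl⟩ := QuotientGroup.mk_surjective c
    have hy : y ∉ R := by
      intro hy
      have : (y : P ⧸ R) = 1 := (QuotientGroup.eq_one_iff y).2 hy
      rw [this, orderOf_one] at hc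
      exact hp.one_lt.ne hc
    rw [← orderOf_eq_card_of_forall_mem_zpowers (trf_gen R hR y hy), hc]
  have hgen := trf_gen R hR x hx
  have hord : orderOf (x : P ⧸ R) = p := by
    rw [orderOf_eq_card_of_forall_mem_zpowers hgen, hcard]
  obtain ⟨k, hk⟩ := hP x
  have hxp : (σ x) ^ p = 1 :=
    trf_pow (F := F) p (σ x) k (by rw [← map_pow, hk, map_one]) hd
  have h1 : relTr σ σ R g = ∑ i ∈ Finset.range p, (σ x) ^ i * g * (σ x) ^ (p - 1 - i) * σ x := by
    classical
    have : Fintype (P ⧸ R) := Fintype.ofFinite _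
    unfold relTr
    rw [finsum_eq_sum_of_fintype, ← IsCyclic.image_range_orderOf hgen, hord, Finset.sum_image]
    · refine Finset.sum_congr rfl (fun i hi => ?_)
      rw [trf_coset σ R g hg _ (x ^ i) (by rw [QuotientGroup.out_eq']; rfl)]
      have hi' : i < p := Finset.mem_range.1 hi
      have h2 : σ (x ^ i)⁻¹ = (σ x) ^ (p - 1 - i) * σ x := by
        have h3 : σ (x ^ i)⁻¹ * (σ x) ^ i = 1 := by
          rw [← map_pow, ← map_mul, inv_mul_cancel, map_one]
        calc σ (x ^ i)⁻¹ = σ (x ^ i)⁻¹ * (σ x) ^ p := by rw [hxp, mul_one]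
          _ = σ (x ^ i)⁻¹ * ((σ x) ^ i * (σ x) ^ (p - 1 - i + 1)) := by
            rw [← pow_add]
            congr 2
            omega
          _ = (σ x) ^ (p - 1 - i + 1) := by rw [← mul_assoc, h3, one_mul]
          _ = (σ x) ^ (p - 1 - i) * σ x := pow_succ _ _
      rw [h2, map_pow, mul_assoc, mul_assoc]
      rfl
    · intro i hi j hj hij
      rw [Finset.coe_range] at hi hj
      exact pow_injOn_Iio_orderOf (by rw [hord]; exact hi) (by rw [hord]; exact hj) hij
  rw [h1, ← Finset.sum_mul, trf_sum (F := F) p (σ x) g, Finset.sum_mul]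

end

end Pool.Agent.KGS
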