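import Pool.Agent.KGS.Defs
import Pool.Agent.KGS.Nil
import Pool.Agent.KGS.Trf

/-!
# KGS: relative traces from a maximal subgroup are killed by powers of `σ y - 1`
-/

open Representation

namespace Pool.Agent.KGS

open Pool.Agent.KFV Pool.Agent.KFE

section

variable {F : Type*} [Field F] {P L : Type*} [Group P] [AddCommGroup L] [Module F L]

theorem cla_nilp {V : Type*} [AddCommGroup V] [Module F V] [FiniteDimensional F V]
    (f : Module.End F V) (m : ℕ) (hm : f ^ m = 0) (k : ℕ) (v : V) (h : (f ^ k) v ≠ 0) :
    k < Module.finrank F V := by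
  by_contra hk
  push Not at hk
  apply h
  have h1 : LinearMap.ker (f ^ (max m (Module.finrank F V))) = ⊤ := by
    rw [LinearMap.ker_eq_top]
    exact pow_eq_zero_of_le (le_max_left _ _) hm
  have h2 := Module.End.ker_pow_eq_ker_pow_finrank_of_le (f := f)
    (le_max_right m (Module.finrank F V))
  have h3 := Module.End.ker_pow_eq_ker_pow_finrank_of_le (f := f) hk
  have h4 : LinearMap.ker (f ^ k) = ⊤ := by rw [h3, ← h2, h1]
  rw [LinearMap.ker_eq_top] at h4
  rw [h4]
  rfl

theorem cla_key [Finite P] [FiniteDimensional F L] (p : ℕ) [Fact p.Prime] [CharP F p]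
    (hP : IsPGroup p P) (σ : Representation F P L) (hd : Module.finrank F L < p)
    (R : Subgroup P) (x : P) (μ : ℕ) (hμ : 1 ≤ μ)
    (hE : EE σ R x μ) (g : Module.End F L) (hg : ∀ r ∈ R, g ∘ₗ σ r = σ r ∘ₗ g) (y : P)
    (i j : ℕ) (hij : i + j = p - 1) (v : L) :
    ((σ y - 1 : Module.End F L) ^ (μ - 1))
      (((σ x - 1 : Module.End F L) ^ i) (g (((σ x - 1 : Module.End F L) ^ j) v))) = 0 := by
  by_contra hne
  have hp : 1 ≤ p := (Fact.out : p.Prime).one_lt.le
  have hprod : ((List.replicate (μ - 1) y ++ List.replicate i x).map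
      fun q => (σ q - 1 : Module.End F L)).prod
      = (σ y - 1 : Module.End F L) ^ (μ - 1) * (σ x - 1 : Module.End F L) ^ i := by
    rw [List.map_append, List.prod_append, List.map_replicate, List.map_replicate,
      List.prod_replicate, List.prod_replicate]
  have hchain : ∀ A : Submodule F L, (∀ q, ∀ a ∈ A, σ q a ∈ A) →
      g (((σ x - 1 : Module.End F L) ^ j) v) ∈ A → μ - 1 + i < Module.finrank F A := by
    intro A hA hw
    have h := chain_dim p hP σ A hA (List.replicate (μ - 1) y ++ List.replicate i x)
      (g (((σ x - 1 : Module.End F L) ^ j) v)) hw (by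
        rw [hprod]
        exact hne)
    rw [List.length_append, List.length_replicate, List.length_replicate] at h
    exact h
  by_cases hj : μ ≤ j
  · have hu : ((σ x - 1 : Module.End F L) ^ μ) (((σ x - 1 : Module.End F L) ^ (j - μ)) v)
        = ((σ x - 1 : Module.End F L) ^ j) v := by
      rw [← Module.End.mul_apply, ← pow_add, Nat.add_sub_cancel' hj]
    have hu0 : ((σ x - 1 : Module.End F L) ^ (j - μ)) v ≠ 0 := by
      intro h0
      rw [h0, map_zero] at hu
      apply hne
      rw [← hu, map_zero, map_zero, map_zero]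
    obtain ⟨A, hA, h1, h2⟩ := hE _ hu0
    rw [hu] at h1
    have h3 := hchain A hA.1 (hA.2 g hg _ h1)
    have hN : A ≤ A.comap (σ x - 1 : Module.End F L) := by
      intro a ha
      rw [Submodule.mem_comap, LinearMap.sub_apply]
      exact A.sub_mem (hA.1 x a ha) ha
    have hnil : (σ x - 1 : Module.End F L) ^ (Module.finrank F L) = 0 := by
      ext a
      by_contra h
      have h5 := chain_dim p hP σ ⊤ (fun _ _ _ => Submodule.mem_top)
        (List.replicate (Module.finrank F L) x) a Submodule.mem_top (by
          rw [List.map_replicate, List.prod_replicate]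
          exact h)
      rw [List.length_replicate, finrank_top] at h5
      exact lt_irrefl _ h5
    have h6 : j - μ < Module.finrank F (L ⧸ A) := by
      refine cla_nilp (A.mapQ A (σ x - 1 : Module.End F L) hN) (Module.finrank F L) ?_ (j - μ)
        (A.mkQ v) ?_
      · rw [← Submodule.mapQ_pow]
        apply LinearMap.ext
        intro a
        obtain ⟨b, rfl⟩ := A.mkQ_surjective a
        rw [Submodule.mkQ_apply, Submodule.mapQ_apply, hnil]
        rfl
      · rw [← Submodule.mapQ_pow, Submodule.mkQ_apply, Submodule.mapQ_apply]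
        intro h7
        rw [Submodule.Quotient.mk_eq_zero] at h7
        exact h2 h7
    have h8 := Submodule.finrank_quotient_add_finrank A
    omega
  · have h3 := hchain ⊤ (fun _ _ _ => Submodule.mem_top) Submodule.mem_top
    rw [finrank_top] at h3
    omega

theorem kill_relTr [Finite P] [FiniteDimensional F L] (p : ℕ) [Fact p.Prime] [CharP F p]
    (hP : IsPGroup p P) (σ : Representation F P L) (hd : Module.finrank F L < p)
    (R : Subgroup P) (hR : IsCoatom R) (x : P) (hx : x ∉ R) (μ : ℕ) (hμ : 1 ≤ μ)
    (hE : EE σ R x μ) (g : Module.End F L) (hg : ∀ r ∈ R, g ∘ₗ σ r = σ r ∘ₗ g) (y : P) :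
    (σ y - 1 : Module.End F L) ^ (μ - 1) * relTr σ σ R g = 0 := by
  rw [relTr_coatom p hP σ hd R hR x hx g hg, Finset.mul_sum]
  apply Finset.sum_eq_zero
  intro i hi
  rw [Finset.mem_range] at hi
  apply LinearMap.ext
  intro v
  exact cla_key p hP σ hd R x μ hμ hE g hg y i (p - 1 - i) (by omega) (σ x v)

end

end Pool.Agent.KGS
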