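import Pool.Agent.KGS.Defs

/-!
# KGS (MP_1993d0_al): an endomorphism commuting with a given nilpotent one
-/

open Representation

namespace Pool.Agent.KGS

open Pool.Agent.KFV Pool.Agent.KFE

section

variable {F : Type*} [Field F] {P L : Type*} [Group P] [AddCommGroup L] [Module F L]

theorem exists_f (N : Module.End F L) (A B : Submodule F L) (hA : ∀ a ∈ A, N a ∈ A)
    (hB : ∀ b ∈ B, N b ∈ B) (α μ : ℕ) (h1 : 1 ≤ μ) (h2 : μ ≤ α) (hα : ∀ a, (N ^ α) a ∈ A)
    (a : L) (ha : (N ^ (α - 1)) a ∉ A) (b : L) (hb : b ∈ B) (hb2 : (N ^ μ) b = 0) :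
    ∃ f : Module.End F L, f * N = N * f ∧ (∀ a ∈ A, f a = 0) ∧ (∀ l, f l ∈ B) ∧
      (∀ l, f l ∈ Submodule.span F (Set.range fun i : Fin α => (N ^ (i : ℕ)) b)) ∧
      (N ^ (μ - 1)) (f a) = (N ^ (μ - 1)) b := by
  obtain ⟨ξ0, hξ0, hξA⟩ := Submodule.exists_le_ker_of_notMem ha
  obtain ⟨ξ, hξ1, hξ⟩ : ∃ ξ : L →ₗ[F] F, ξ ((N ^ (α - 1)) a) = 1 ∧ ∀ y ∈ A, ξ y = 0 := by
    refine ⟨(ξ0 ((N ^ (α - 1)) a))⁻¹ • ξ0, ?_, ?_⟩
    · rw [LinearMap.smul_apply, smul_eq_mul, inv_mul_cancel₀ hξ0]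
    · intro y hy
      rw [LinearMap.smul_apply, hξA hy, smul_zero]
  have hAp : ∀ (k : ℕ), ∀ y ∈ A, (N ^ k) y ∈ A := by
    intro k
    induction k with
    | zero => intro y hy; simpa using hy
    | succ k ih => intro y hy; rw [pow_succ', Module.End.mul_apply]; exact hA _ (ih y hy)
  have hBp : ∀ (k : ℕ), (N ^ k) b ∈ B := by
    intro k
    induction k with
    | zero => simpa using hb
    | succ k ih => rw [pow_succ', Module.End.mul_apply]; exact hB _ ih
  have hb0 : ∀ k, μ ≤ k → (N ^ k) b = 0 := by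
    intro k hk
    obtain ⟨m, rfl⟩ := Nat.exists_eq_add_of_le' hk
    rw [pow_add, Module.End.mul_apply, hb2, map_zero]
  let f : Module.End F L := ∑ i ∈ Finset.range α, (ξ ∘ₗ (N ^ (α - 1 - i))).smulRight ((N ^ i) b)
  have hf : ∀ l, f l = ∑ i ∈ Finset.range α, ξ ((N ^ (α - 1 - i)) l) • (N ^ i) b := by
    intro l
    simp only [f, LinearMap.sum_apply]
    rfl
  refine ⟨f, ?_, ?_, ?_, ?_, ?_⟩
  · apply LinearMap.ext
    intro l
    rw [Module.End.mul_apply, Module.End.mul_apply, hf, hf, map_sum]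
    obtain ⟨β, rfl⟩ : ∃ β, α = β + 1 := ⟨α - 1, by omega⟩
    rw [Finset.sum_range_succ', Finset.sum_range_succ]
    have e1 : ξ ((N ^ (β + 1 - 1 - 0)) (N l)) • (N ^ 0) b = 0 := by
      have e2 : (N ^ (β + 1 - 1 - 0)) (N l) = (N ^ (β + 1)) l := by
        rw [← Module.End.mul_apply, ← pow_succ]
        rfl
      rw [e2, hξ _ (hα l), zero_smul]
    have e3 : N (ξ ((N ^ (β + 1 - 1 - β)) l) • (N ^ β) b) = 0 := by
      rw [map_smul, ← Module.End.mul_apply, ← pow_succ', hb0 _ h2, smul_zero]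
    rw [e1, e3]
    congr 1
    refine Finset.sum_congr rfl fun i hi => ?_
    rw [Finset.mem_range] at hi
    rw [map_smul, ← Module.End.mul_apply N, ← pow_succ', ← Module.End.mul_apply _ N,
      ← pow_succ, show β + 1 - 1 - (i + 1) + 1 = β + 1 - 1 - i by omega]
  · intro y hy
    rw [hf]
    refine Finset.sum_eq_zero fun i _ => ?_
    rw [hξ _ (hAp _ y hy), zero_smul]
  · intro l
    rw [hf]
    exact B.sum_mem fun i _ => B.smul_mem _ (hBp i)
  · intro l
    rw [hf]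
    refine Submodule.sum_mem _ fun i hi => Submodule.smul_mem _ _ (Submodule.subset_span ?_)
    exact ⟨⟨i, Finset.mem_range.1 hi⟩, rfl⟩
  · rw [hf, map_sum, Finset.sum_eq_single 0]
    · rw [map_smul, pow_zero, Module.End.one_apply, Nat.sub_zero, hξ1, one_smul]
    · intro i _ hi
      rw [map_smul, ← Module.End.mul_apply, ← pow_add, hb0 _ (by omega), smul_zero]
    · intro h
      exact absurd (Finset.mem_range.2 (by omega)) h

end

end Pool.Agent.KGS
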