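import Pool.Agent.KGS.Trf
import Pool.Agent.KGS.Fst

/-!
# KGS, row CYC: the case when a maximal subgroup acts trivially
-/

open Representation

namespace Pool.Agent.KGS

open Pool.Agent.KFV Pool.Agent.KFE

section

variable {F : Type*} [Field F] {P L : Type*} [Group P] [AddCommGroup L] [Module F L]

private theorem cyc_gen [Finite P] (p : ℕ) [Fact p.Prime] (hP : IsPGroup p P)
    (σ : Representation F P L) (R : Subgroup P) (hR : IsCoatom R)
    (hRt : ∀ r ∈ R, ∀ a, σ r a = a) (x : P) (hx : x ∉ R) (q : P) :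
    ∃ k : ℕ, σ q = (σ x) ^ k := by
  have := hP.isNilpotent
  have hnorm : R.Normal := Subgroup.NormalizerCondition.normal_of_coatom R
    Group.normalizerCondition_of_isNilpotent hR
  have h1 : R ⊔ Subgroup.zpowers x = ⊤ := by
    apply hR.2
    refine lt_of_le_of_ne le_sup_left ?_
    intro h
    apply hx
    rw [h]
    exact (le_sup_right : Subgroup.zpowers x ≤ R ⊔ Subgroup.zpowers x)
      (Subgroup.mem_zpowers x)
  have h2 : q ∈ R ⊔ Subgroup.zpowers x := by rw [h1]; trivial
  rw [Subgroup.mem_sup_of_normal_left] at h2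
  obtain ⟨r, hr, y, hy, rfl⟩ := h2
  have h3 : y ∈ Submonoid.powers x := mem_powers_iff_mem_zpowers.2 hy
  obtain ⟨k, rfl⟩ := h3
  refine ⟨k, ?_⟩
  rw [map_mul, map_pow]
  ext a
  rw [Module.End.mul_apply, hRt r hr]

private theorem cyc_nil [Finite P] [FiniteDimensional F L] (p : ℕ) [Fact p.Prime] [CharP F p]
    (hP : IsPGroup p P) (σ : Representation F P L) (x : P) :
    (σ x - 1 : Module.End F L) ^ (Module.finrank F L) = 0 := by
  have hp : p.Prime := Fact.out
  rcases subsingleton_or_nontrivial L with hL | hL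
  · exact Subsingleton.elim _ _
  have : CharP (Module.End F L) p := charP_of_injective_algebraMap
    (algebraMap F (Module.End F L)).injective p
  obtain ⟨k, hk⟩ := hP x
  have h0 : IsNilpotent (σ x - 1 : Module.End F L) := ⟨p ^ k, by
    rw [sub_pow_char_pow_of_commute _ _ (Commute.one_right _), ← map_pow, hk, map_one,
      one_pow, sub_self]⟩
  have h1 := IsNilpotent.charpoly_eq_X_pow_finrank h0
  have h2 := LinearMap.aeval_self_charpoly (σ x - 1 : Module.End F L)
  rw [h1] at h2
  simpa using h2

private theorem cyc_factor (σ : Representation F P L) (x q : P) (k : ℕ)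
    (hk : σ q = (σ x) ^ k) :
    ∃ S : Module.End F L, Commute (σ x - 1 : Module.End F L) S ∧
      (σ q - 1 : Module.End F L) = (σ x - 1) * S := by
  refine ⟨∑ i ∈ Finset.range k, (σ x) ^ i, ?_, ?_⟩
  · apply Commute.sum_right
    intro i _
    exact ((Commute.refl (σ x)).pow_right i).sub_left (Commute.one_left _)
  · rw [hk, mul_geom_sum]

private theorem cyc_range_mono (N : Module.End F L) {i j : ℕ} (h : i ≤ j) :
    LinearMap.range (N ^ j) ≤ LinearMap.range (N ^ i) := by
  obtain ⟨k, rfl⟩ := Nat.exists_eq_add_of_le h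
  rintro _ ⟨v, rfl⟩
  exact ⟨(N ^ k) v, by rw [pow_add]; rfl⟩

private theorem cyc_tr [Finite P] [FiniteDimensional F L] (p : ℕ) [Fact p.Prime] [CharP F p]
    (hP : IsPGroup p P) (σ : Representation F P L) (hd : Module.finrank F L < p)
    (N : Module.End F L) (hN : ∀ q, ∃ S : Module.End F L, Commute N S ∧
      (σ q - 1 : Module.End F L) = N * S) (t : L →ₗ[F] L) (ht : t ∈ trI σ σ) (v : L) :
    t v ∈ LinearMap.range (N ^ (p - Module.finrank F L)) := by
  unfold trI at ht
  induction ht using Submodule.span_induction with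
  | zero => rw [LinearMap.zero_apply]; exact Submodule.zero_mem _
  | add f g _ _ hf hg => rw [LinearMap.add_apply]; exact Submodule.add_mem _ hf hg
  | smul c f _ hf => rw [LinearMap.smul_apply]; exact Submodule.smul_mem _ _ hf
  | mem f hf =>
    obtain ⟨R, hR, θ, hθ, rfl⟩ := hf
    obtain ⟨M, hM, hRM⟩ := (eq_top_or_exists_le_coatom R).resolve_left hR
    have h1 := relTr_trans σ σ M (R.subgroupOf M) θ (by
      intro r hr
      exact hθ r hr)
    rw [Subgroup.subgroupOf_map_subtype, inf_eq_left.2 hRM] at h1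
    obtain ⟨y, hy⟩ : ∃ y, y ∉ M := by
      by_contra h
      push Not at h
      exact hM.1 (eq_top_iff.2 fun q _ => h q)
    rw [← h1, relTr_coatom p hP σ hd M hM y hy, LinearMap.sum_apply]
    · apply Submodule.sum_mem
      intro i _
      by_cases hi : p - Module.finrank F L ≤ i
      · obtain ⟨S, hS1, hS2⟩ := hN y
        rw [hS2, hS1.mul_pow]
        apply cyc_range_mono N hi
        exact ⟨_, rfl⟩
      · have h2 : (σ y - 1 : Module.End F L) ^ (p - 1 - i) = 0 :=
          pow_eq_zero_of_le (by omega) (cyc_nil p hP σ y)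
        rw [h2, mul_zero, zero_mul, LinearMap.zero_apply]
        exact Submodule.zero_mem _
    · intro r hr
      have h2 := relTr_eqv (σ.comp M.subtype) (σ.comp M.subtype) (R.subgroupOf M) θ (by
        intro r hr
        exact hθ r hr)
      exact h2 ⟨r, hr⟩

/-- ROW CYC. -/
theorem dim_of_trivial_coatom [Finite P] [FiniteDimensional F L] (p : ℕ) [Fact p.Prime]
    [CharP F p] (hP : IsPGroup p P) (σ : Representation F P L) (hd : Module.finrank F L < p)
    (hσ : Indec σ)
    (hloc : ∀ θ : L →ₗ[F] L, Eqv σ σ θ → ∃ c : F, θ - c • LinearMap.id ∈ trI σ σ)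
    (hnt : ∃ q a, σ q a ≠ a) (R : Subgroup P) (hR : IsCoatom R)
    (hRt : ∀ r ∈ R, ∀ a, σ r a = a) (x : P) (hx : x ∉ R) :
    Module.finrank F L + 1 = p ∧ (σ x - 1 : Module.End F L) ^ (p - 2) ≠ 0 := by
  have hnL : Nontrivial L := hσ.1
  have hgen : ∀ q, ∃ k : ℕ, σ q = (σ x) ^ k := cyc_gen p hP σ R hR hRt x hx
  have hfac : ∀ q, ∃ S : Module.End F L, Commute (σ x - 1 : Module.End F L) S ∧
      (σ q - 1 : Module.End F L) = (σ x - 1) * S := fun q => by
    obtain ⟨k, hk⟩ := hgen q
    exact cyc_factor σ x q k hk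
  have hcomm : ∀ f : Module.End F L, f * (σ x - 1) = (σ x - 1) * f → Eqv σ σ f := by
    intro f hf q
    obtain ⟨k, hk⟩ := hgen q
    have h1 : Commute f (σ x - 1 + 1) := (show Commute f (σ x - 1) from hf).add_right
      (Commute.one_right _)
    rw [sub_add_cancel] at h1
    rw [hk]
    exact h1.pow_right k
  have hnil := cyc_nil p hP σ x
  set N : Module.End F L := σ x - 1 with hNdef
  set n := Module.finrank F L with hn
  have hN0 : N ≠ 0 := by
    intro h
    obtain ⟨q, a, hqa⟩ := hnt
    obtain ⟨S, _, hS⟩ := hfac q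
    rw [h, zero_mul] at hS
    apply hqa
    have h1 := LinearMap.congr_fun hS a
    rw [LinearMap.sub_apply, LinearMap.zero_apply, Module.End.one_apply, sub_eq_zero] at h1
    exact h1
  have hNn : IsNilpotent N := ⟨n, hnil⟩
  -- the nilpotency index
  obtain ⟨α, hα0, hα1⟩ : ∃ α, N ^ α ≠ 0 ∧ N ^ (α + 1) = 0 := by
    have h1 : ∃ m, N ^ m = 0 := ⟨n, hnil⟩
    classical
    refine ⟨Nat.find h1 - 1, ?_, ?_⟩
    · apply Nat.find_min h1
      have : Nat.find h1 ≠ 0 := by
        intro h0
        have h2 := Nat.find_spec h1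
        rw [h0, pow_zero] at h2
        exact one_ne_zero h2
      omega
    · have : Nat.find h1 ≠ 0 := by
        intro h0
        have h2 := Nat.find_spec h1
        rw [h0, pow_zero] at h2
        exact one_ne_zero h2
      rw [Nat.sub_add_cancel (by omega)]
      exact Nat.find_spec h1
  obtain ⟨a, ha⟩ : ∃ a, (N ^ α) a ≠ 0 := by
    by_contra h
    push Not at h
    exact hα0 (LinearMap.ext h)
  obtain ⟨f, hf1, -, -, hf4, hf5⟩ := exists_f N ⊥ ⊤ (fun a ha => by
      rw [Submodule.mem_bot] at ha ⊢; rw [ha, map_zero]) (fun b _ => trivial) (α + 1) (α + 1)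
    (by omega) le_rfl (fun b => by rw [hα1]; exact Submodule.zero_mem _) a
    (by rw [Nat.add_sub_cancel]; exact ha) a trivial (by rw [hα1]; rfl)
  rw [Nat.add_sub_cancel] at hf5
  have hfN : Commute f N := hf1
  have hfb : Function.Bijective f := by
    rcases Indec.bijective_or_nilpotent hσ f (hcomm f hf1) with h | ⟨k, hk⟩
    · exact h
    · exfalso
      have h1 : f ((N ^ α) a) = (N ^ α) a := by
        have h2 := (hfN.pow_right α).eq
        have h3 := LinearMap.congr_fun h2 a
        rw [Module.End.mul_apply, Module.End.mul_apply, hf5] at h3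
        exact h3
      have h2 : ∀ j : ℕ, (f ^ j) ((N ^ α) a) = (N ^ α) a := by
        intro j
        induction j with
        | zero => rfl
        | succ j ih => rw [pow_succ, Module.End.mul_apply, h1, ih]
      have h3 := h2 k
      rw [hk] at h3
      exact ha h3.symm
  have hspan : Submodule.span F (Set.range fun i : Fin (α + 1) => (N ^ (i : ℕ)) a) = ⊤ := by
    rw [eq_top_iff]
    intro v _
    obtain ⟨w, rfl⟩ := hfb.2 v
    exact hf4 w
  have hnα : n ≤ α + 1 := by
    have h1 := finrank_range_le_card (R := F) (fun i : Fin (α + 1) => (N ^ (i : ℕ)) a)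
    rw [Set.finrank, hspan, finrank_top, Fintype.card_fin] at h1
    exact h1
  have hNn1 : N ^ (n - 1) ≠ 0 := by
    intro h
    apply hα0
    exact pow_eq_zero_of_le (by omega) h
  have hn1 : 1 ≤ n := Module.finrank_pos
  have hmain : n + 1 = p := by
    by_contra hne
    have hnp : n + 2 ≤ p := by omega
    obtain ⟨c, hc⟩ := hloc N (hcomm N rfl)
    have hr := cyc_tr p hP σ hd N hfac _ hc
    by_cases hc0 : c = 0
    · -- range N ≤ range (N ^ 2)
      have h1 : ∀ v, ∃ w, N v = (N ^ 2) w := by
        intro v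
        have h2 := hr v
        rw [hc0, zero_smul, sub_zero] at h2
        obtain ⟨w, hw⟩ := cyc_range_mono N (show 2 ≤ p - Module.finrank F L by omega) h2
        exact ⟨w, hw.symm⟩
      have h2 : ∀ j : ℕ, ∀ v, ∃ w, N v = (N ^ (j + 1)) w := by
        intro j
        induction j with
        | zero => intro v; exact ⟨v, by rw [zero_add, pow_one]⟩
        | succ j ih =>
          intro v
          obtain ⟨w, hw⟩ := ih v
          obtain ⟨w', hw'⟩ := h1 w
          refine ⟨w', ?_⟩
          rw [hw, pow_succ, Module.End.mul_apply, hw', ← Module.End.mul_apply, ← pow_add]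
      apply hN0
      ext v
      obtain ⟨w, hw⟩ := h2 (n - 1) v
      rw [Nat.sub_add_cancel hn1, hnil] at hw
      rw [hw]; rfl
    · -- N - c is invertible
      have h1 : IsUnit (N - c • (1 : Module.End F L)) := by
        have h2 : IsUnit (c • (1 : Module.End F L)) := by
          rw [← Algebra.algebraMap_eq_smul_one]
          exact (IsUnit.mk0 c hc0).map (algebraMap F (Module.End F L))
        have h3 : Commute N (c • (1 : Module.End F L)) := (Commute.one_right N).smul_right c
        have h4 : IsUnit (c • (1 : Module.End F L) - N) := by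
          have := hNn.neg.isUnit_add_left_of_commute h2 h3.neg_left
          rwa [← sub_eq_add_neg] at this
        rw [← neg_sub]
        exact h4.neg
      rw [Module.End.isUnit_iff] at h1
      have h2 : ∀ v, ∃ w, v = N w := by
        intro v
        obtain ⟨u, rfl⟩ := h1.2 v
        obtain ⟨w, hw⟩ := cyc_range_mono N (show 1 ≤ p - Module.finrank F L by omega) (hr u)
        rw [pow_one] at hw
        exact ⟨w, hw.symm⟩
      have h3 : ∀ j : ℕ, ∀ v, ∃ w, v = (N ^ j) w := by
        intro j
        induction j with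
        | zero => intro v; exact ⟨v, rfl⟩
        | succ j ih =>
          intro v
          obtain ⟨w, hw⟩ := ih v
          obtain ⟨w', hw'⟩ := h2 w
          exact ⟨w', by rw [pow_succ, Module.End.mul_apply, ← hw', ← hw]⟩
      obtain ⟨v, hv⟩ := exists_ne (0 : L)
      obtain ⟨w, hw⟩ := h3 n v
      rw [hnil] at hw
      exact hv hw
  refine ⟨hmain, ?_⟩
  have : p - 2 = n - 1 := by omega
  rw [this]
  exact hNn1

end

end Pool.Agent.KGS
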