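import Pool.Agent.KFE.Fin2

/-!
# KGS (MP_1993d0_al): sources of dimension less than `p`. Definitions
-/

open Representation

namespace Pool.Agent.KGS

open Pool.Agent.KFV Pool.Agent.KFE

section

variable {F : Type*} [Field F] {P L : Type*} [Group P] [AddCommGroup L] [Module F L]

/-- The span of the elements `σ r a - a` with `r ∈ R` and `a ∈ A`. -/
def aug (σ : Representation F P L) (R : Subgroup P) (A : Submodule F L) : Submodule F L :=
  Submodule.span F {v | ∃ r ∈ R, ∃ a ∈ A, v = σ r a - a}

/-- The fixed vectors of `R`. -/
def fixd (σ : Representation F P L) (R : Subgroup P) : Submodule F L where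
  carrier := {a | ∀ r ∈ R, σ r a = a}
  zero_mem' := fun r _ => map_zero (σ r)
  add_mem' := by
    intro a b ha hb r hr
    rw [map_add, ha r hr, hb r hr]
  smul_mem' := by
    intro c a ha r hr
    rw [map_smul, ha r hr]

/-- `A` is stable under the group and under all the `R`-endomorphisms. -/
def Stab (σ : Representation F P L) (R : Subgroup P) (A : Submodule F L) : Prop :=
  (∀ q, ∀ a ∈ A, σ q a ∈ A) ∧
    ∀ g : L →ₗ[F] L, (∀ r ∈ R, g ∘ₗ σ r = σ r ∘ₗ g) → ∀ a ∈ A, g a ∈ A

/-- No nonzero vector `u` is in the stable subspace generated by `(σ x - 1) ^ μ u`. -/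
def EE (σ : Representation F P L) (R : Subgroup P) (x : P) (μ : ℕ) : Prop :=
  ∀ u : L, u ≠ 0 → ∃ A : Submodule F L, Stab σ R A ∧
    ((σ x - 1 : Module.End F L) ^ μ) u ∈ A ∧ u ∉ A

/-- The radical layers: `lw σ k = I ^ k L` for the augmentation ideal `I` of the group. -/
def lw (σ : Representation F P L) : ℕ → Submodule F L
  | 0 => ⊤
  | k + 1 => aug σ ⊤ (lw σ k)

end

section

variable (F : Type*) [Field F] {P : Type*} [Group P]

/-- The elements of the permutation module `F[P/R]` whose coefficients have sum zero. -/
noncomputable def augSub (R : Subgroup P) : Submodule F ((P ⧸ R) →₀ F) :=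
  LinearMap.ker (Finsupp.linearCombination F (fun _ : P ⧸ R => (1 : F)))

theorem augSub_stable (R : Subgroup P) (q : P) (f : (P ⧸ R) →₀ F) (hf : f ∈ augSub F R) :
    Finsupp.lmapDomain F F (fun c : P ⧸ R => q • c) f ∈ augSub F R := by
  rw [augSub, LinearMap.mem_ker] at hf ⊢
  rw [← hf, Finsupp.lmapDomain_apply, Finsupp.linearCombination_mapDomain]
  rfl

/-- The representation of `P` by left translations on the elements of sum zero of the
permutation module `F[P/R]`. -/
noncomputable def augRep (R : Subgroup P) : Representation F P (augSub F R) where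
  toFun q := (Finsupp.lmapDomain F F (fun c : P ⧸ R => q • c)).restrict
    (fun f hf => augSub_stable F R q f hf)
  map_one' := by
    ext1 f
    apply Subtype.ext
    simp only [LinearMap.restrict_apply, Finsupp.lmapDomain_apply, one_smul,
      Module.End.one_apply]
    exact Finsupp.mapDomain_id
  map_mul' := by
    intro q q'
    ext1 f
    apply Subtype.ext
    simp only [LinearMap.restrict_apply, Finsupp.lmapDomain_apply, Module.End.mul_apply,
      mul_smul]
    rw [← Finsupp.mapDomain_comp]
    rfl

end

end Pool.Agent.KGS
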