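import Pool.Agent.KGS.Nil

/-!
# KGS, row EEA: the filtration of a module by the powers of the radical, on the side of the sums
-/

open Representation

namespace Pool.Agent.KGS

open Pool.Agent.KFV Pool.Agent.KFE

section

variable {F : Type*} [Field F] {P L : Type*} [Group P] [AddCommGroup L] [Module F L]

private theorem eea_lw_stable (σ : Representation F P L) (k : ℕ) (q : P) :
    ∀ a ∈ lw σ k, σ q a ∈ lw σ k := by
  induction k with
  | zero => intro a _; exact Submodule.mem_top
  | succ k ih =>
    intro a ha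
    have ha' : a ∈ Submodule.span F {v | ∃ r ∈ (⊤ : Subgroup P), ∃ a ∈ lw σ k, v = σ r a - a} := ha
    show σ q a ∈ Submodule.span F {v | ∃ r ∈ (⊤ : Subgroup P), ∃ a ∈ lw σ k, v = σ r a - a}
    clear ha
    induction ha' using Submodule.span_induction with
    | mem v hv =>
      obtain ⟨r, -, b, hb, rfl⟩ := hv
      apply Submodule.subset_span
      refine ⟨q * r * q⁻¹, Subgroup.mem_top _, σ q b, ih b hb, ?_⟩
      rw [map_sub, ← Module.End.mul_apply, ← map_mul, ← Module.End.mul_apply, ← map_mul,
        inv_mul_cancel_right]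
    | zero => rw [map_zero]; exact Submodule.zero_mem _
    | add a b _ _ ha hb => rw [map_add]; exact Submodule.add_mem _ ha hb
    | smul c a _ ha => rw [map_smul]; exact Submodule.smul_mem _ c ha

private theorem eea_lw_sub (σ : Representation F P L) (k : ℕ) (q : P) (a : L)
    (ha : a ∈ lw σ k) : σ q a - a ∈ lw σ (k + 1) :=
  Submodule.subset_span ⟨q, Subgroup.mem_top _, a, ha, rfl⟩

/-- the maps that go down `i` layers -/
private def eeaJ (σ : Representation F P L) (i : ℕ) : Submodule F (Module.End F L) where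
  carrier := {T | ∀ k, ∀ a ∈ lw σ k, T a ∈ lw σ (k + i)}
  zero_mem' := fun _ _ _ => Submodule.zero_mem _
  add_mem' := fun hS hT k a ha => Submodule.add_mem _ (hS k a ha) (hT k a ha)
  smul_mem' := fun c _ hT k a ha => Submodule.smul_mem _ c (hT k a ha)

/-- the elements of the algebra of `R` that go down `i` layers -/
private def eeaB (σ : Representation F P L) (R : Subgroup P) (i : ℕ) :
    Submodule F (Module.End F L) :=
  Submodule.span F (σ '' (R : Set P)) ⊓ eeaJ σ i

/-- the span of their values -/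
private def eeaM (σ : Representation F P L) (R : Subgroup P) (i : ℕ) : Submodule F L :=
  Submodule.span F {v | ∃ b ∈ eeaB σ R i, ∃ l, v = b l}

private theorem eea_conj (σ : Representation F P L) (R : Subgroup P) [R.Normal] (q : P)
    (b : Module.End F L) (hb : b ∈ Submodule.span F (σ '' (R : Set P))) :
    σ q * b * σ q⁻¹ ∈ Submodule.span F (σ '' (R : Set P)) := by
  induction hb using Submodule.span_induction with
  | mem b hb =>
    obtain ⟨r, hr, rfl⟩ := hb
    rw [← map_mul, ← map_mul]
    exact Submodule.subset_span ⟨q * r * q⁻¹, ‹R.Normal›.conj_mem r hr q, rfl⟩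
  | zero => rw [mul_zero, zero_mul]; exact Submodule.zero_mem _
  | add a b _ _ ha hb => rw [mul_add, add_mul]; exact Submodule.add_mem _ ha hb
  | smul c a _ ha =>
    rw [mul_smul_comm, smul_mul_assoc]; exact Submodule.smul_mem _ c ha

private theorem eea_mul (σ : Representation F P L) (R : Subgroup P) (r : P) (hr : r ∈ R)
    (b : Module.End F L) (hb : b ∈ Submodule.span F (σ '' (R : Set P))) :
    b * σ r ∈ Submodule.span F (σ '' (R : Set P)) := by
  induction hb using Submodule.span_induction with
  | mem b hb =>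
    obtain ⟨s, hs, rfl⟩ := hb
    rw [← map_mul]
    exact Submodule.subset_span ⟨s * r, R.mul_mem hs hr, rfl⟩
  | zero => rw [zero_mul]; exact Submodule.zero_mem _
  | add a b _ _ ha hb => rw [add_mul]; exact Submodule.add_mem _ ha hb
  | smul c a _ ha => rw [smul_mul_assoc]; exact Submodule.smul_mem _ c ha

private theorem eea_comm (σ : Representation F P L) (R : Subgroup P) (g : L →ₗ[F] L)
    (hg : ∀ r ∈ R, g ∘ₗ σ r = σ r ∘ₗ g) (b : Module.End F L)
    (hb : b ∈ Submodule.span F (σ '' (R : Set P))) (l : L) : g (b l) = b (g l) := by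
  induction hb using Submodule.span_induction with
  | mem b hb =>
    obtain ⟨s, hs, rfl⟩ := hb
    exact LinearMap.congr_fun (hg s hs) l
  | zero => rw [LinearMap.zero_apply, LinearMap.zero_apply, map_zero]
  | add a b _ _ ha hb => rw [LinearMap.add_apply, LinearMap.add_apply, map_add, ha, hb]
  | smul c a _ ha => rw [LinearMap.smul_apply, LinearMap.smul_apply, map_smul, ha]

private theorem eea_conjB (σ : Representation F P L) (R : Subgroup P) [R.Normal] (i : ℕ) (q : P)
    (b : Module.End F L) (hb : b ∈ eeaB σ R i) : σ q * b * σ q⁻¹ ∈ eeaB σ R i := by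
  refine ⟨eea_conj σ R q b hb.1, fun k a ha => ?_⟩
  rw [Module.End.mul_apply, Module.End.mul_apply]
  exact eea_lw_stable σ _ q _ (hb.2 k _ (eea_lw_stable σ k q⁻¹ a ha))

private theorem eea_conjB_sub (σ : Representation F P L) (R : Subgroup P) [R.Normal] (i : ℕ)
    (q : P) (b : Module.End F L) (hb : b ∈ eeaB σ R i) :
    σ q * b * σ q⁻¹ - b ∈ eeaB σ R (i + 1) := by
  refine ⟨Submodule.sub_mem _ (eea_conj σ R q b hb.1) hb.1, fun k a ha => ?_⟩
  have h1 : σ q⁻¹ a ∈ lw σ k := eea_lw_stable σ k q⁻¹ a ha
  have h2 : σ q (b (σ q⁻¹ a)) - b (σ q⁻¹ a) ∈ lw σ (k + i + 1) :=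
    eea_lw_sub σ (k + i) q _ (hb.2 k _ h1)
  have h3 : b (σ q (σ q⁻¹ a) - σ q⁻¹ a) ∈ lw σ (k + 1 + i) :=
    hb.2 (k + 1) _ (eea_lw_sub σ k q _ h1)
  have h4 : σ q (σ q⁻¹ a) = a := by
    rw [← Module.End.mul_apply, ← map_mul, mul_inv_cancel, map_one, Module.End.one_apply]
  rw [h4, map_sub, show k + 1 + i = k + i + 1 by ring] at h3
  have h5 := Submodule.sub_mem _ h2 h3
  rw [LinearMap.sub_apply, Module.End.mul_apply, Module.End.mul_apply]
  have h6 : σ q (b (σ q⁻¹ a)) - b a =
      σ q (b (σ q⁻¹ a)) - b (σ q⁻¹ a) - (b a - b (σ q⁻¹ a)) := by abel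
  rw [h6]
  exact h5

private theorem eea_stab (σ : Representation F P L) (R : Subgroup P) [R.Normal] (i : ℕ) :
    Stab σ R (eeaM σ R i) := by
  constructor
  · intro q a ha
    unfold eeaM at ha ⊢
    induction ha using Submodule.span_induction with
    | mem v hv =>
      obtain ⟨b, hb, l, rfl⟩ := hv
      refine Submodule.subset_span ⟨σ q * b * σ q⁻¹, eea_conjB σ R i q b hb, σ q l, ?_⟩
      rw [Module.End.mul_apply, Module.End.mul_apply, ← Module.End.mul_apply (σ q⁻¹), ← map_mul,
        inv_mul_cancel, map_one, Module.End.one_apply]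
    | zero => rw [map_zero]; exact Submodule.zero_mem _
    | add a b _ _ ha hb => rw [map_add]; exact Submodule.add_mem _ ha hb
    | smul c a _ ha => rw [map_smul]; exact Submodule.smul_mem _ c ha
  · intro g hg a ha
    unfold eeaM at ha ⊢
    induction ha using Submodule.span_induction with
    | mem v hv =>
      obtain ⟨b, hb, l, rfl⟩ := hv
      exact Submodule.subset_span ⟨b, hb, g l, eea_comm σ R g hg b hb.1 l⟩
    | zero => rw [map_zero]; exact Submodule.zero_mem _
    | add a b _ _ ha hb => rw [map_add]; exact Submodule.add_mem _ ha hb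
    | smul c a _ ha => rw [map_smul]; exact Submodule.smul_mem _ c ha

private theorem eea_pow (σ : Representation F P L) (R : Subgroup P) [R.Normal] (i : ℕ) (x : P)
    (b : Module.End F L) (hb : b ∈ eeaB σ R i) (j : ℕ) (l : L) :
    ((σ x - 1 : Module.End F L) ^ j) (b l) - b (((σ x - 1 : Module.End F L) ^ j) l) ∈
      eeaM σ R (i + 1) := by
  induction j with
  | zero =>
    rw [pow_zero, Module.End.one_apply, Module.End.one_apply, sub_self]
    exact Submodule.zero_mem _
  | succ j ih =>
    set l' := ((σ x - 1 : Module.End F L) ^ j) l with hl'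
    have h1 : (σ x * b * σ x⁻¹ - b) (σ x l') ∈ eeaM σ R (i + 1) :=
      Submodule.subset_span ⟨_, eea_conjB_sub σ R i x b hb, _, rfl⟩
    have h2 : (σ x * b * σ x⁻¹ - b) (σ x l') = σ x (b l') - b (σ x l') := by
      rw [LinearMap.sub_apply, Module.End.mul_apply, Module.End.mul_apply,
        ← Module.End.mul_apply (σ x⁻¹), ← map_mul, inv_mul_cancel, map_one, Module.End.one_apply]
    have h3 : σ x (((σ x - 1 : Module.End F L) ^ j) (b l) - b l') -
        (((σ x - 1 : Module.End F L) ^ j) (b l) - b l') ∈ eeaM σ R (i + 1) :=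
      Submodule.sub_mem _ ((eea_stab σ R (i + 1)).1 x _ ih) ih
    rw [pow_succ', Module.End.mul_apply, Module.End.mul_apply, ← hl', LinearMap.sub_apply,
      LinearMap.sub_apply, Module.End.one_apply, Module.End.one_apply, map_sub]
    rw [h2] at h1
    rw [map_sub] at h3
    have h4 := Submodule.add_mem _ h1 h3
    have h5 : σ x (((σ x - 1 : Module.End F L) ^ j) (b l)) - ((σ x - 1 : Module.End F L) ^ j) (b l)
        - (b (σ x l') - b l') = σ x (b l') - b (σ x l') +
        (σ x (((σ x - 1 : Module.End F L) ^ j) (b l)) - σ x (b l') -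
        (((σ x - 1 : Module.End F L) ^ j) (b l) - b l')) := by abel
    rw [h5]
    exact h4

private theorem eea_aug (σ : Representation F P L) (R : Subgroup P) (i : ℕ)
    (b : Module.End F L) (hb : b ∈ eeaB σ R i) (a : L) (ha : a ∈ aug σ R ⊤) :
    b a ∈ eeaM σ R (i + 1) := by
  unfold aug at ha
  induction ha using Submodule.span_induction with
  | mem v hv =>
    obtain ⟨r, hr, a, -, rfl⟩ := hv
    refine Submodule.subset_span ⟨b * σ r - b, ⟨?_, ?_⟩, a, ?_⟩
    · exact Submodule.sub_mem _ (eea_mul σ R r hr b hb.1) hb.1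
    · intro k c hc
      have h1 := hb.2 (k + 1) _ (eea_lw_sub σ k r c hc)
      rw [map_sub, show k + 1 + i = k + (i + 1) by ring] at h1
      rw [LinearMap.sub_apply, Module.End.mul_apply]
      exact h1
    · rw [LinearMap.sub_apply, Module.End.mul_apply, map_sub]
  | zero => rw [map_zero]; exact Submodule.zero_mem _
  | add a b _ _ ha hb => rw [map_add]; exact Submodule.add_mem _ ha hb
  | smul c a _ ha => rw [map_smul]; exact Submodule.smul_mem _ c ha

private theorem eea_down (σ : Representation F P L) (R : Subgroup P) [R.Normal] (x : P) (α : ℕ)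
    (h : ∀ a, ((σ x - 1 : Module.End F L) ^ α) a ∈ aug σ R ⊤) (i : ℕ) (u : L)
    (hu : u ∈ eeaM σ R i) : ((σ x - 1 : Module.End F L) ^ α) u ∈ eeaM σ R (i + 1) := by
  unfold eeaM at hu
  induction hu using Submodule.span_induction with
  | mem v hv =>
    obtain ⟨b, hb, l, rfl⟩ := hv
    have h1 := eea_pow σ R i x b hb α l
    have h2 := eea_aug σ R i b hb _ (h l)
    have h3 := Submodule.add_mem _ h1 h2
    rwa [sub_add_cancel] at h3
  | zero => rw [map_zero]; exact Submodule.zero_mem _
  | add a b _ _ ha hb => rw [map_add]; exact Submodule.add_mem _ ha hb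
  | smul c a _ ha => rw [map_smul]; exact Submodule.smul_mem _ c ha

/-- ROW EEA. -/
theorem ee_aug [Finite P] [FiniteDimensional F L] (p : ℕ) [Fact p.Prime] [CharP F p]
    (hP : IsPGroup p P) (σ : Representation F P L) (R : Subgroup P) [R.Normal] (x : P) (α : ℕ)
    (h : ∀ a, ((σ x - 1 : Module.End F L) ^ α) a ∈ aug σ R ⊤) : EE σ R x α := by
  intro u hu
  have h0 : u ∈ eeaM σ R 0 := by
    refine Submodule.subset_span ⟨1, ⟨?_, ?_⟩, u, ?_⟩
    · exact Submodule.subset_span ⟨1, R.one_mem, map_one σ⟩
    · intro k a ha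
      exact ha
    · rw [Module.End.one_apply]
  have hn : u ∉ eeaM σ R (Module.finrank F L) := by
    intro hmem
    have hle : eeaM σ R (Module.finrank F L) ≤ ⊥ := by
      refine Submodule.span_le.2 ?_
      rintro v ⟨b, hb, l, rfl⟩
      have h1 := hb.2 0 l Submodule.mem_top
      rw [zero_add, lw_finrank p hP σ] at h1
      exact h1
    exact hu ((Submodule.mem_bot F).1 (hle hmem))
  have hex : ∃ i, u ∉ eeaM σ R i := ⟨_, hn⟩
  classical
  obtain ⟨i, hi⟩ : ∃ i, Nat.find hex = i + 1 := by
    apply Nat.exists_eq_succ_of_ne_zero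
    intro h1
    have h2 := Nat.find_spec hex
    rw [h1] at h2
    exact h2 h0
  have h1 : u ∉ eeaM σ R (i + 1) := by
    have h2 := Nat.find_spec hex
    rwa [hi] at h2
  have h2 : u ∈ eeaM σ R i := by
    by_contra h3
    exact Nat.find_min hex (by omega) h3
  exact ⟨eeaM σ R (i + 1), eea_stab σ R (i + 1), eea_down σ R x α h i u h2, h1⟩

end

end Pool.Agent.KGS
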