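import Pool.Agent.KGS.Nil

/-!
# KGS, row EEI: the filtration of a module by the powers of the radical, on the side of the kernels
-/

open Representation

namespace Pool.Agent.KGS

open Pool.Agent.KFV Pool.Agent.KFE

section

variable {F : Type*} [Field F] {P L : Type*} [Group P] [AddCommGroup L] [Module F L]

private theorem eei_lw_stable (σ : Representation F P L) (k : ℕ) (q : P) :
    ∀ a ∈ lw σ k, σ q a ∈ lw σ k := by
  induction k with
  | zero => intro a _; exact Submodule.mem_top
  | succ k ih =>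
    intro a ha
    have ha' : a ∈ Submodule.span F {v | ∃ r ∈ (⊤ : Subgroup P), ∃ a ∈ lw σ k, v = σ r a - a} := ha
    show σ q a ∈ Submodule.span F {v | ∃ r ∈ (⊤ : Subgroup P), ∃ a ∈ lw σ k, v = σ r a - a}
    clear ha
    induction ha' using Submodule.span_induction with
    | mem v hv =>
      obtain ⟨r, -, b, hb, rfl⟩ := hv
      apply Submodule.subset_span
      refine ⟨q * r * q⁻¹, Subgroup.mem_top _, σ q b, ih b hb, ?_⟩
      rw [map_sub, ← Module.End.mul_apply, ← map_mul, ← Module.End.mul_apply, ← map_mul,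
        inv_mul_cancel_right]
    | zero => rw [map_zero]; exact Submodule.zero_mem _
    | add a b _ _ ha hb => rw [map_add]; exact Submodule.add_mem _ ha hb
    | smul c a _ ha => rw [map_smul]; exact Submodule.smul_mem _ c ha

private theorem eei_lw_sub (σ : Representation F P L) (k : ℕ) (q : P) (a : L)
    (ha : a ∈ lw σ k) : σ q a - a ∈ lw σ (k + 1) :=
  Submodule.subset_span ⟨q, Subgroup.mem_top _, a, ha, rfl⟩

/-- the maps that go down `i` layers -/
private def eeiJ (σ : Representation F P L) (i : ℕ) : Submodule F (Module.End F L) where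
  carrier := {T | ∀ k, ∀ a ∈ lw σ k, T a ∈ lw σ (k + i)}
  zero_mem' := fun _ _ _ => Submodule.zero_mem _
  add_mem' := fun hS hT k a ha => Submodule.add_mem _ (hS k a ha) (hT k a ha)
  smul_mem' := fun c _ hT k a ha => Submodule.smul_mem _ c (hT k a ha)

/-- the elements of the algebra of `R` that go down `i` layers -/
private def eeiB (σ : Representation F P L) (R : Subgroup P) (i : ℕ) :
    Submodule F (Module.End F L) :=
  Submodule.span F (σ '' (R : Set P)) ⊓ eeiJ σ i

/-- the vectors killed by them -/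
private def eeiK (σ : Representation F P L) (R : Subgroup P) (i : ℕ) : Submodule F L where
  carrier := {l | ∀ b ∈ eeiB σ R i, b l = 0}
  zero_mem' := fun b _ => map_zero b
  add_mem' := by
    intro a b ha hb c hc
    rw [map_add, ha c hc, hb c hc, add_zero]
  smul_mem' := by
    intro c a ha b hb
    rw [map_smul, ha b hb, smul_zero]

private theorem eei_conj (σ : Representation F P L) (R : Subgroup P) [R.Normal] (q : P)
    (b : Module.End F L) (hb : b ∈ Submodule.span F (σ '' (R : Set P))) :
    σ q * b * σ q⁻¹ ∈ Submodule.span F (σ '' (R : Set P)) := by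
  induction hb using Submodule.span_induction with
  | mem b hb =>
    obtain ⟨r, hr, rfl⟩ := hb
    rw [← map_mul, ← map_mul]
    exact Submodule.subset_span ⟨q * r * q⁻¹, ‹R.Normal›.conj_mem r hr q, rfl⟩
  | zero => rw [mul_zero, zero_mul]; exact Submodule.zero_mem _
  | add a b _ _ ha hb => rw [mul_add, add_mul]; exact Submodule.add_mem _ ha hb
  | smul c a _ ha =>
    rw [mul_smul_comm, smul_mul_assoc]; exact Submodule.smul_mem _ c ha

private theorem eei_mul (σ : Representation F P L) (R : Subgroup P) (r : P) (hr : r ∈ R)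
    (b : Module.End F L) (hb : b ∈ Submodule.span F (σ '' (R : Set P))) :
    b * σ r ∈ Submodule.span F (σ '' (R : Set P)) := by
  induction hb using Submodule.span_induction with
  | mem b hb =>
    obtain ⟨s, hs, rfl⟩ := hb
    rw [← map_mul]
    exact Submodule.subset_span ⟨s * r, R.mul_mem hs hr, rfl⟩
  | zero => rw [zero_mul]; exact Submodule.zero_mem _
  | add a b _ _ ha hb => rw [add_mul]; exact Submodule.add_mem _ ha hb
  | smul c a _ ha => rw [smul_mul_assoc]; exact Submodule.smul_mem _ c ha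

private theorem eei_comm (σ : Representation F P L) (R : Subgroup P) (g : L →ₗ[F] L)
    (hg : ∀ r ∈ R, g ∘ₗ σ r = σ r ∘ₗ g) (b : Module.End F L)
    (hb : b ∈ Submodule.span F (σ '' (R : Set P))) (l : L) : g (b l) = b (g l) := by
  induction hb using Submodule.span_induction with
  | mem b hb =>
    obtain ⟨s, hs, rfl⟩ := hb
    exact LinearMap.congr_fun (hg s hs) l
  | zero => rw [LinearMap.zero_apply, LinearMap.zero_apply, map_zero]
  | add a b _ _ ha hb => rw [LinearMap.add_apply, LinearMap.add_apply, map_add, ha, hb]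
  | smul c a _ ha => rw [LinearMap.smul_apply, LinearMap.smul_apply, map_smul, ha]

private theorem eei_conjB (σ : Representation F P L) (R : Subgroup P) [R.Normal] (i : ℕ) (q : P)
    (b : Module.End F L) (hb : b ∈ eeiB σ R i) : σ q * b * σ q⁻¹ ∈ eeiB σ R i := by
  refine ⟨eei_conj σ R q b hb.1, fun k a ha => ?_⟩
  rw [Module.End.mul_apply, Module.End.mul_apply]
  exact eei_lw_stable σ _ q _ (hb.2 k _ (eei_lw_stable σ k q⁻¹ a ha))

private theorem eei_conjB_sub (σ : Representation F P L) (R : Subgroup P) [R.Normal] (i : ℕ)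
    (q : P) (b : Module.End F L) (hb : b ∈ eeiB σ R i) :
    σ q * b * σ q⁻¹ - b ∈ eeiB σ R (i + 1) := by
  refine ⟨Submodule.sub_mem _ (eei_conj σ R q b hb.1) hb.1, fun k a ha => ?_⟩
  have h1 : σ q⁻¹ a ∈ lw σ k := eei_lw_stable σ k q⁻¹ a ha
  have h2 : σ q (b (σ q⁻¹ a)) - b (σ q⁻¹ a) ∈ lw σ (k + i + 1) :=
    eei_lw_sub σ (k + i) q _ (hb.2 k _ h1)
  have h3 : b (σ q (σ q⁻¹ a) - σ q⁻¹ a) ∈ lw σ (k + 1 + i) :=
    hb.2 (k + 1) _ (eei_lw_sub σ k q _ h1)
  have h4 : σ q (σ q⁻¹ a) = a := by
    rw [← Module.End.mul_apply, ← map_mul, mul_inv_cancel, map_one, Module.End.one_apply]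
  rw [h4, map_sub, show k + 1 + i = k + i + 1 by ring] at h3
  have h5 := Submodule.sub_mem _ h2 h3
  rw [LinearMap.sub_apply, Module.End.mul_apply, Module.End.mul_apply]
  have h6 : σ q (b (σ q⁻¹ a)) - b a =
      σ q (b (σ q⁻¹ a)) - b (σ q⁻¹ a) - (b a - b (σ q⁻¹ a)) := by abel
  rw [h6]
  exact h5

private theorem eei_mulL (σ : Representation F P L) (R : Subgroup P) (r : P) (hr : r ∈ R)
    (b : Module.End F L) (hb : b ∈ Submodule.span F (σ '' (R : Set P))) :
    σ r * b ∈ Submodule.span F (σ '' (R : Set P)) := by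
  induction hb using Submodule.span_induction with
  | mem b hb =>
    obtain ⟨s, hs, rfl⟩ := hb
    rw [← map_mul]
    exact Submodule.subset_span ⟨r * s, R.mul_mem hr hs, rfl⟩
  | zero => rw [mul_zero]; exact Submodule.zero_mem _
  | add a b _ _ ha hb => rw [mul_add]; exact Submodule.add_mem _ ha hb
  | smul c a _ ha => rw [mul_smul_comm]; exact Submodule.smul_mem _ c ha

private theorem eei_stab (σ : Representation F P L) (R : Subgroup P) [R.Normal] (i : ℕ) :
    Stab σ R (eeiK σ R i) := by
  constructor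
  · intro q a ha b hb
    have h1 := eei_conjB σ R i q⁻¹ b hb
    have h2 := ha _ h1
    rw [inv_inv, Module.End.mul_apply, Module.End.mul_apply] at h2
    have h3 := congrArg (σ q) h2
    rw [map_zero, ← Module.End.mul_apply (σ q), ← map_mul, mul_inv_cancel, map_one,
      Module.End.one_apply] at h3
    exact h3
  · intro g hg a ha b hb
    rw [← eei_comm σ R g hg b hb.1 a, ha b hb, map_zero]

private theorem eei_step (σ : Representation F P L) (R : Subgroup P) [R.Normal] (i : ℕ) (x : P)
    (b : Module.End F L) (hb : b ∈ eeiB σ R i) (l : L) (hl : l ∈ eeiK σ R (i + 1)) :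
    b ((σ x - 1 : Module.End F L) l) = (σ x - 1 : Module.End F L) (b l) := by
  have h1 := hl _ (eei_conjB_sub σ R i x⁻¹ b hb)
  rw [inv_inv, LinearMap.sub_apply, Module.End.mul_apply, Module.End.mul_apply,
    sub_eq_zero] at h1
  have h2 := congrArg (σ x) h1
  rw [← Module.End.mul_apply (σ x), ← map_mul, mul_inv_cancel, map_one,
    Module.End.one_apply] at h2
  rw [LinearMap.sub_apply, LinearMap.sub_apply, Module.End.one_apply, Module.End.one_apply,
    map_sub, h2]

private theorem eei_pow (σ : Representation F P L) (R : Subgroup P) [R.Normal] (i : ℕ) (x : P)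
    (b : Module.End F L) (hb : b ∈ eeiB σ R i) (j : ℕ) : ∀ l, l ∈ eeiK σ R (i + 1) →
    b (((σ x - 1 : Module.End F L) ^ j) l) = ((σ x - 1 : Module.End F L) ^ j) (b l) := by
  induction j with
  | zero => intro l _; rfl
  | succ j ih =>
    intro l hl
    have h1 : (σ x - 1 : Module.End F L) l ∈ eeiK σ R (i + 1) := by
      rw [LinearMap.sub_apply, Module.End.one_apply]
      exact Submodule.sub_mem _ ((eei_stab σ R (i + 1)).1 x l hl) hl
    rw [pow_succ, Module.End.mul_apply, Module.End.mul_apply, ih _ h1,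
      eei_step σ R i x b hb l hl]

private theorem eei_fix (σ : Representation F P L) (R : Subgroup P) (i : ℕ)
    (b : Module.End F L) (hb : b ∈ eeiB σ R i) (l : L) (hl : l ∈ eeiK σ R (i + 1)) :
    b l ∈ fixd σ R := by
  intro r hr
  have h1 : σ r * b - b ∈ eeiB σ R (i + 1) := by
    refine ⟨Submodule.sub_mem _ (eei_mulL σ R r hr b hb.1) hb.1, fun k a ha => ?_⟩
    rw [LinearMap.sub_apply, Module.End.mul_apply]
    exact eei_lw_sub σ (k + i) r _ (hb.2 k a ha)
  have h2 := hl _ h1
  rw [LinearMap.sub_apply, Module.End.mul_apply, sub_eq_zero] at h2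
  exact h2

private theorem eei_up (σ : Representation F P L) (R : Subgroup P) [R.Normal] (x : P) (β : ℕ)
    (h : ∀ a ∈ fixd σ R, ((σ x - 1 : Module.End F L) ^ β) a = 0) (i : ℕ) (u : L)
    (hu : u ∈ eeiK σ R (i + 1)) : ((σ x - 1 : Module.End F L) ^ β) u ∈ eeiK σ R i := by
  intro b hb
  rw [eei_pow σ R i x b hb β u hu]
  exact h _ (eei_fix σ R i b hb u hu)

/-- ROW EEI. -/
theorem ee_fixd [Finite P] [FiniteDimensional F L] (p : ℕ) [Fact p.Prime] [CharP F p]
    (hP : IsPGroup p P) (σ : Representation F P L) (R : Subgroup P) [R.Normal] (x : P) (β : ℕ)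
    (h : ∀ a ∈ fixd σ R, ((σ x - 1 : Module.End F L) ^ β) a = 0) : EE σ R x β := by
  intro u hu
  have h0 : u ∉ eeiK σ R 0 := by
    intro hmem
    have h1 : (1 : Module.End F L) ∈ eeiB σ R 0 := by
      refine ⟨Submodule.subset_span ⟨1, R.one_mem, map_one σ⟩, ?_⟩
      intro k a ha
      exact ha
    exact hu (hmem _ h1)
  have hn : u ∈ eeiK σ R (Module.finrank F L) := by
    intro b hb
    have h1 := hb.2 0 u Submodule.mem_top
    rw [zero_add, lw_finrank p hP σ] at h1
    exact (Submodule.mem_bot F).1 h1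
  have hex : ∃ i, u ∈ eeiK σ R i := ⟨_, hn⟩
  classical
  obtain ⟨i, hi⟩ : ∃ i, Nat.find hex = i + 1 := by
    apply Nat.exists_eq_succ_of_ne_zero
    intro h1
    have h2 := Nat.find_spec hex
    rw [h1] at h2
    exact h0 h2
  have h1 : u ∈ eeiK σ R (i + 1) := by
    have h2 := Nat.find_spec hex
    rwa [hi] at h2
  have h2 : u ∉ eeiK σ R i := fun h3 => Nat.find_min hex (by omega) h3
  exact ⟨eeiK σ R i, eei_stab σ R i, eei_up σ R x β h i u h1, h2⟩

end

end Pool.Agent.KGS
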