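import Pool.Agent.KGS.Defs

/-!
# KGS row ISO: the isomorphism with the augmentation module
-/

open Representation

namespace Pool.Agent.KGS

open Pool.Agent.KFV Pool.Agent.KFE Polynomial

section

variable {F : Type*} [Field F] {P L : Type*} [Group P] [AddCommGroup L] [Module F L]

private theorem iso_geom {A : Type*} [Ring A] [Algebra F A] (p : ℕ) [Fact p.Prime] [CharP F p]
    (c : A) : ∑ i ∈ Finset.range p, c ^ i = (c - 1) ^ (p - 1) := by
  have hp : p.Prime := Fact.out
  have hne : (X - 1 : F[X]) ≠ 0 := by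
    have := Polynomial.X_sub_C_ne_zero (1 : F)
    simpa using this
  have h1 : ∑ i ∈ Finset.range p, (X : F[X]) ^ i = (X - 1) ^ (p - 1) := by
    apply mul_left_cancel₀ hne
    rw [mul_geom_sum, ← pow_succ', Nat.sub_add_cancel hp.one_le, sub_pow_char_of_commute _
      (Commute.one_right _), one_pow]
  have h2 := congrArg (aeval c) h1
  simpa using h2

private theorem iso_nil {V : Type*} [AddCommGroup V] [Module F V] [FiniteDimensional F V]
    (T : Module.End F V) (h : IsNilpotent T) : T ^ (Module.finrank F V) = 0 := by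
  have h1 := IsNilpotent.charpoly_eq_X_pow_finrank h
  have h2 := LinearMap.aeval_self_charpoly T
  rw [h1] at h2
  simpa using h2

private theorem iso_gen [Finite P] (M : Subgroup P) [M.Normal] (hM : IsCoatom M) (x : P)
    (hx : x ∉ M) (z : P ⧸ M) : z ∈ Subgroup.zpowers (x : P ⧸ M) := by
  have h1 : M ≤ (Subgroup.zpowers (x : P ⧸ M)).comap (QuotientGroup.mk' M) := by
    intro y hy
    rw [Subgroup.mem_comap]
    have : QuotientGroup.mk' M y = 1 := (QuotientGroup.eq_one_iff y).2 hy
    rw [this]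
    exact Subgroup.one_mem _
  have h2 : (Subgroup.zpowers (x : P ⧸ M)).comap (QuotientGroup.mk' M) ≠ M := by
    intro h
    apply hx
    rw [← h, Subgroup.mem_comap]
    exact Subgroup.mem_zpowers _
  have h3 := hM.2 _ (lt_of_le_of_ne h1 (Ne.symm h2))
  obtain ⟨y, rfl⟩ := QuotientGroup.mk_surjective z
  have : y ∈ (Subgroup.zpowers (x : P ⧸ M)).comap (QuotientGroup.mk' M) := by
    rw [h3]; trivial
  exact this

private theorem iso_card [Finite P] (p : ℕ) [Fact p.Prime] (hP : IsPGroup p P) (M : Subgroup P)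
    [M.Normal] (hM : IsCoatom M) : Nat.card (P ⧸ M) = p := by
  have hp : p.Prime := Fact.out
  have hne : Nontrivial (P ⧸ M) := QuotientGroup.nontrivial_iff.2 hM.1
  have hQ : IsPGroup p (P ⧸ M) := hP.to_quotient M
  have hdvd : p ∣ Nat.card (P ⧸ M) := by
    obtain ⟨n, hn, hn'⟩ := (hQ.nontrivial_iff_card).1 hne
    rw [hn']
    exact dvd_pow_self p (by omega)
  obtain ⟨c, hc⟩ := exists_prime_orderOf_dvd_card' p hdvd
  obtain ⟨x, rfl⟩ := QuotientGroup.mk_surjective c
  have hx : x ∉ M := by
    intro h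
    have : (x : P ⧸ M) = 1 := (QuotientGroup.eq_one_iff x).2 h
    rw [this, orderOf_one] at hc
    exact hp.one_lt.ne hc
  rw [← hc]
  exact (orderOf_eq_card_of_forall_mem_zpowers (iso_gen M hM x hx)).symm

private theorem iso_ker {V : Type*} [AddCommGroup V] [Module F V] [FiniteDimensional F V]
    (N : Module.End F V) (hn : IsNilpotent N) (k : ℕ) (hk : Module.finrank F V = k + 1)
    (h : N ^ k ≠ 0) : Module.finrank F (LinearMap.ker N) ≤ 1 := by
  by_contra hc
  have hc2 : 2 ≤ Module.finrank F (LinearMap.ker N) := by omega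
  have h1 := LinearMap.finrank_range_add_finrank_ker N
  have h2 : Module.finrank F (LinearMap.range N) + 1 ≤ k := by omega
  have hst : ∀ v ∈ LinearMap.range N, N v ∈ LinearMap.range N := fun v _ => ⟨v, rfl⟩
  have h3 : IsNilpotent (N.restrict hst) := by
    obtain ⟨m, hm⟩ := hn
    refine ⟨m, ?_⟩
    ext v
    rw [Module.End.pow_restrict m hst]
    simp [LinearMap.restrict_apply, hm]
  have h4 := iso_nil _ h3
  apply h
  ext v
  obtain ⟨j, hj⟩ : ∃ j, k = Module.finrank F (LinearMap.range N) + 1 + j :=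
    ⟨k - (Module.finrank F (LinearMap.range N) + 1), by omega⟩
  have h5 : (N ^ (Module.finrank F (LinearMap.range N))) (N v) = 0 := by
    have h6 := congrArg (fun T : Module.End F (LinearMap.range N) =>
      ((T ⟨N v, v, rfl⟩ : LinearMap.range N) : V)) h4
    simp only [Module.End.pow_restrict _ hst, LinearMap.restrict_apply,
      LinearMap.zero_apply, ZeroMemClass.coe_zero] at h6
    exact h6
  rw [hj, add_comm, pow_add, pow_succ, Module.End.mul_apply, Module.End.mul_apply, h5, map_zero,
    LinearMap.zero_apply]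

private theorem iso_finrank (R : Subgroup P) [Finite (P ⧸ R)] (p : ℕ)
    (h : Nat.card (P ⧸ R) = p) : Module.finrank F (augSub F R) + 1 = p := by
  have h1 := LinearMap.finrank_range_add_finrank_ker
    (Finsupp.linearCombination F (fun _ : P ⧸ R => (1 : F)))
  have h2 : LinearMap.range (Finsupp.linearCombination F (fun _ : P ⧸ R => (1 : F))) = ⊤ := by
    rw [LinearMap.range_eq_top]
    intro a
    refine ⟨Finsupp.single ((1 : P) : P ⧸ R) a, ?_⟩
    rw [Finsupp.linearCombination_single, smul_eq_mul, mul_one]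
  have := Fintype.ofFinite (P ⧸ R)
  rw [h2, finrank_top, Module.finrank_self, Module.finrank_finsupp_self,
    ← Nat.card_eq_fintype_card, h] at h1
  unfold augSub
  omega

/-- ROW ISO. -/
theorem iso_augRep [Finite P] [FiniteDimensional F L] (p : ℕ) [Fact p.Prime]
    [CharP F p] (hP : IsPGroup p P) (σ : Representation F P L)
    (hd : Module.finrank F L + 1 = p) (R : Subgroup P) (hR : IsCoatom R)
    (hRt : ∀ r ∈ R, ∀ a, σ r a = a) (x : P) (hx : x ∉ R)
    (hN : (σ x - 1 : Module.End F L) ^ (p - 2) ≠ 0) :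
    Nonempty (σ.Equiv (augRep F R)) := by
  classical
  have hp : p.Prime := Fact.out
  have hp2 := hp.two_le
  have := hP.isNilpotent
  have hnorm : R.Normal := Subgroup.NormalizerCondition.normal_of_coatom R
    Group.normalizerCondition_of_isNilpotent hR
  have hcard := iso_card p hP R hR
  have hcos : ∀ q q' : P, (q : P ⧸ R) = q' → σ q = σ q' := by
    intro q q' h
    have h1 : q⁻¹ * q' ∈ R := QuotientGroup.eq.1 h
    have h2 : q' = q * (q⁻¹ * q') := by group
    have h3 : σ (q⁻¹ * q') = 1 := by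
      ext a
      exact hRt _ h1 a
    rw [h2, map_mul, h3, mul_one]
  have hnil : ∀ y : P, IsNilpotent (σ y - 1 : Module.End F L) := by
    intro y
    rcases subsingleton_or_nontrivial L with hL | hL
    · exact ⟨1, Subsingleton.elim _ _⟩
    have : CharP (Module.End F L) p := charP_of_injective_algebraMap
      (algebraMap F (Module.End F L)).injective p
    obtain ⟨k, hk⟩ := hP y
    refine ⟨p ^ k, ?_⟩
    rw [sub_pow_char_pow_of_commute _ _ (Commute.one_right _), ← map_pow, hk, map_one, one_pow,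
      sub_self]
  have hnil2 : ∀ y : P, (σ y - 1 : Module.End F L) ^ (p - 1) = 0 := by
    intro y
    have h1 := iso_nil _ (hnil y)
    have h2 : Module.finrank F L = p - 1 := by omega
    rw [h2] at h1
    exact h1
  set N : Module.End F L := σ x - 1 with hNdef
  obtain ⟨v, hv⟩ : ∃ v, (N ^ (p - 2)) v ≠ 0 := by
    by_contra hc
    push Not at hc
    exact hN (LinearMap.ext hc)
  obtain ⟨ξ, hξ⟩ : ∃ ξ : Module.Dual F L, ξ ((N ^ (p - 2)) v) ≠ 0 := by
    by_contra hc
    push Not at hc
    exact hv ((Module.forall_dual_apply_eq_zero_iff F _).1 hc)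
  let φ : L →ₗ[F] ((P ⧸ R) →₀ F) :=
    (Finsupp.linearEquivFunOnFinite F F (P ⧸ R)).symm.toLinearMap ∘ₗ
      LinearMap.pi (fun c : P ⧸ R => ξ ∘ₗ (σ (c.out)⁻¹ : L →ₗ[F] L))
  have hφ : ∀ (l : L) (c : P ⧸ R), φ l c = ξ (σ (c.out)⁻¹ l) := by
    intro l c
    rfl
  have hφ2 : ∀ (l : L) (q : P), φ l (q : P ⧸ R) = ξ (σ q⁻¹ l) := by
    intro l q
    rw [hφ, hcos ((q : P ⧸ R).out)⁻¹ q⁻¹]
    rw [QuotientGroup.mk_inv, QuotientGroup.mk_inv, QuotientGroup.out_eq']
  have hord : orderOf (x : P ⧸ R) = p := by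
    rw [← hcard]
    exact orderOf_eq_card_of_forall_mem_zpowers (iso_gen R hR x hx)
  have hmem : ∀ l, φ l ∈ augSub F R := by
    intro l
    rw [augSub, LinearMap.mem_ker, Finsupp.linearCombination_apply]
    have : Fintype (P ⧸ R) := Fintype.ofFinite _
    rw [Finsupp.sum_fintype _ _ (fun i => by rw [zero_smul])]
    rw [← IsCyclic.image_range_orderOf (iso_gen R hR x hx), hord, Finset.sum_image]
    · have h1 : ∀ i ∈ Finset.range p, φ l ((x : P ⧸ R) ^ i) • (1 : F) =
          ξ (((σ x⁻¹) ^ i : Module.End F L) l) := by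
        intro i _
        rw [← QuotientGroup.mk_pow, hφ2, smul_eq_mul, mul_one, ← map_pow, inv_pow]
      rw [Finset.sum_congr rfl h1, ← map_sum, ← LinearMap.sum_apply, iso_geom (F := F) p,
        hnil2 x⁻¹, LinearMap.zero_apply, map_zero]
    · intro i hi j hj hij
      rw [Finset.coe_range] at hi hj
      exact pow_injOn_Iio_orderOf (by rw [hord]; exact hi) (by rw [hord]; exact hj) hij
  have hker : LinearMap.ker φ = ⊥ := by
    rw [Submodule.eq_bot_iff]
    intro l hl
    by_contra hl0
    rw [LinearMap.mem_ker] at hl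
    have hz : ∀ s : ℕ, ∀ q : P, ξ (σ q ((N ^ s) l)) = 0 := by
      intro s
      induction s with
      | zero =>
        intro q
        have h1 := hφ2 l q⁻¹
        rw [hl, inv_inv] at h1
        rw [pow_zero, Module.End.one_apply]
        exact h1.symm
      | succ s ih =>
        intro q
        rw [pow_succ', Module.End.mul_apply, hNdef, LinearMap.sub_apply, Module.End.one_apply,
          map_sub, map_sub, ih q, sub_zero, ← Module.End.mul_apply, ← map_mul]
        exact ih (q * x)
    have hex : ∃ t, (N ^ t) l = 0 := ⟨p - 1, by rw [hnil2 x, LinearMap.zero_apply]⟩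
    have ht0 : Nat.find hex ≠ 0 := by
      intro h0
      have h1 := Nat.find_spec hex
      rw [h0, pow_zero, Module.End.one_apply] at h1
      exact hl0 h1
    obtain ⟨s, hs⟩ := Nat.exists_eq_succ_of_ne_zero ht0
    have hw0 : (N ^ s) l ≠ 0 := Nat.find_min hex (by omega)
    have hwN : N ((N ^ s) l) = 0 := by
      have h1 := Nat.find_spec hex
      rw [hs, pow_succ', Module.End.mul_apply] at h1
      exact h1
    have hvN : N ((N ^ (p - 2)) v) = 0 := by
      rw [← Module.End.mul_apply, ← pow_succ', show p - 2 + 1 = p - 1 by omega, hnil2 x,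
        LinearMap.zero_apply]
    have hk1 : Module.finrank F (LinearMap.ker N) ≤ 1 :=
      iso_ker N (hnil x) (p - 2) (by omega) hN
    have hne : (⟨(N ^ (p - 2)) v, hvN⟩ : LinearMap.ker N) ≠ 0 := by
      intro h
      exact hv (congrArg Subtype.val h)
    have hk2 : Module.finrank F (LinearMap.ker N) = 1 := by
      apply le_antisymm hk1
      exact Module.finrank_pos_iff_exists_ne_zero.2 ⟨_, hne⟩
    obtain ⟨c, hc⟩ := exists_smul_eq_of_finrank_eq_one hk2 hne ⟨(N ^ s) l, hwN⟩
    have hc' : c • (N ^ (p - 2)) v = (N ^ s) l := congrArg Subtype.val hc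
    have h1 := hz s 1
    rw [map_one, Module.End.one_apply, ← hc', map_smul, smul_eq_mul] at h1
    rcases mul_eq_zero.1 h1 with h2 | h2
    · rw [h2, zero_smul] at hc'
      exact hw0 hc'.symm
    · exact hξ h2
  let φ' : L →ₗ[F] augSub F R := φ.codRestrict (augSub F R) hmem
  have hinj : Function.Injective φ' := by
    intro a b hab
    have h1 : φ a = φ b := congrArg Subtype.val hab
    exact LinearMap.ker_eq_bot.1 hker h1
  have hfr : Module.finrank F L = Module.finrank F (augSub F R) := by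
    have h1 := iso_finrank (F := F) R p hcard
    omega
  have hrange : LinearMap.range φ = augSub F R := by
    apply Submodule.eq_of_le_of_finrank_eq
    · rintro _ ⟨l, rfl⟩
      exact hmem l
    · rw [LinearMap.finrank_range_of_inj (LinearMap.ker_eq_bot.1 hker), hfr]
  have hsurj : Function.Surjective φ' := by
    rintro ⟨y, hy⟩
    rw [← hrange] at hy
    obtain ⟨l, hl⟩ := hy
    exact ⟨l, Subtype.ext hl⟩
  refine ⟨Representation.Equiv.mk (LinearEquiv.ofBijective φ' ⟨hinj, hsurj⟩) ?_⟩
  intro q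
  ext l c
  obtain ⟨z, rfl⟩ := QuotientGroup.mk_surjective c
  have e1 : ((φ' (σ q l) : augSub F R) : (P ⧸ R) →₀ F) (z : P ⧸ R) =
      ξ (σ z⁻¹ (σ q l)) := hφ2 (σ q l) z
  have e2 : ((augRep F R q (φ' l) : augSub F R) : (P ⧸ R) →₀ F) (z : P ⧸ R) =
      ξ (σ (q⁻¹ * z)⁻¹ l) := by
    have h1 : ((augRep F R q (φ' l) : augSub F R) : (P ⧸ R) →₀ F) =
        Finsupp.mapDomain (fun c : P ⧸ R => q • c) (φ l) := rfl
    have h2 : (z : P ⧸ R) = (fun c : P ⧸ R => q • c) ((q⁻¹ * z : P) : P ⧸ R) := by
      show (z : P ⧸ R) = ((q * (q⁻¹ * z) : P) : P ⧸ R)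
      rw [mul_inv_cancel_left]
    rw [h1, h2, Finsupp.mapDomain_apply (MulAction.injective q)]
    exact hφ2 l (q⁻¹ * z)
  have e3 : σ z⁻¹ (σ q l) = σ (q⁻¹ * z)⁻¹ l := by
    rw [mul_inv_rev, inv_inv, map_mul, Module.End.mul_apply]
  show ((φ' (σ q l) : augSub F R) : (P ⧸ R) →₀ F) (z : P ⧸ R) =
    ((augRep F R q (φ' l) : augSub F R) : (P ⧸ R) →₀ F) (z : P ⧸ R)
  rw [e1, e2, e3]

end

end Pool.Agent.KGS
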