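import Pool.Agent.KGS.Xtr

/-!
# KGS: the kernel of `augRep`, and the equivalence of the pairs `(P, augRep F R)`
-/

open Representation

namespace Pool.Agent.KGS

open Pool.Agent.KFV Pool.Agent.KFE

theorem augRep_coe (F : Type*) [Field F] {P : Type*} [Group P] (R : Subgroup P) (x : P)
    (a : augSub F R) : ((augRep F R x a : augSub F R) : (P ⧸ R) →₀ F) =
      Finsupp.mapDomain (fun c => x • c) (a : (P ⧸ R) →₀ F) := rfl

/-- The kernel of `augRep F R` is `R` (`R` normal of index `p ≠ 2`). -/
theorem augRep_ker (F : Type*) [Field F] {P : Type*} [Group P] [Finite P] (p : ℕ) [Fact p.Prime]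
    (hp2 : p ≠ 2) (R : Subgroup P) (hn : R.Normal) (hR : R.index = p) (x : P) :
    (∀ a, augRep F R x a = a) ↔ x ∈ R := by
  classical
  have hp : p.Prime := Fact.out
  constructor
  · intro h
    by_contra hx
    have hc : ∃ c : P ⧸ R, c ≠ ((1 : P) : P ⧸ R) ∧ c ≠ ((x : P) : P ⧸ R) := by
      by_contra hcon
      push Not at hcon
      have : Fintype (P ⧸ R) := Fintype.ofFinite _
      have h1 : (Finset.univ : Finset (P ⧸ R)) ⊆ {((1 : P) : P ⧸ R), ((x : P) : P ⧸ R)} := by
        intro c _
        rw [Finset.mem_insert, Finset.mem_singleton]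
        by_cases h2 : c = ((1 : P) : P ⧸ R)
        · exact Or.inl h2
        · exact Or.inr (hcon c h2)
      have h2 := Finset.card_le_card h1
      rw [Finset.card_univ, ← Nat.card_eq_fintype_card] at h2
      have h3 : Nat.card (P ⧸ R) = p := hR
      have h4 := Finset.card_le_two (a := ((1 : P) : P ⧸ R)) (b := ((x : P) : P ⧸ R))
      have h5 := hp.two_le
      omega
    obtain ⟨c, hc1, hc2⟩ := hc
    have hx1 : ((x : P) : P ⧸ R) ≠ ((1 : P) : P ⧸ R) := by
      intro h1
      apply hx
      have h2 := QuotientGroup.eq.1 h1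
      rw [mul_one] at h2
      exact (Subgroup.inv_mem_iff R).1 h2
    have hf : Finsupp.single ((1 : P) : P ⧸ R) (1 : F) - Finsupp.single c (1 : F) ∈
        augSub F R := by
      rw [augSub, LinearMap.mem_ker, map_sub, Finsupp.linearCombination_single,
        Finsupp.linearCombination_single, sub_self]
    have h1 := congrArg (fun a : augSub F R => (a : (P ⧸ R) →₀ F) ((x : P) : P ⧸ R)) (h ⟨_, hf⟩)
    simp only [augRep_coe] at h1
    rw [sub_eq_add_neg, Finsupp.mapDomain_add, ← Finsupp.single_neg, Finsupp.mapDomain_single,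
      Finsupp.mapDomain_single, Finsupp.add_apply, Finsupp.add_apply] at h1
    have e1 : x • ((1 : P) : P ⧸ R) = ((x : P) : P ⧸ R) := by
      show ((x * 1 : P) : P ⧸ R) = ((x : P) : P ⧸ R)
      rw [mul_one]
    have e2 : x • c ≠ ((x : P) : P ⧸ R) := by
      intro h2
      rw [← e1] at h2
      exact hc1 (smul_left_cancel x h2)
    rw [e1, Finsupp.single_eq_same, Finsupp.single_eq_of_ne e2.symm,
      Finsupp.single_eq_of_ne hx1, Finsupp.single_eq_of_ne hc2.symm] at h1
    simp at h1
  · intro hx a
    apply Subtype.ext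
    rw [augRep_coe]
    have h1 : (fun c : P ⧸ R => x • c) = id := by
      funext c
      induction c using QuotientGroup.induction_on with
      | H y =>
        show ((x * y : P) : P ⧸ R) = (y : P ⧸ R)
        rw [QuotientGroup.eq, mul_inv_rev, mul_assoc]
        have h2 := hn.conj_mem _ (R.inv_mem hx) y⁻¹
        rwa [inv_inv, mul_assoc] at h2
    rw [h1, Finsupp.mapDomain_id]

/-- The pairs `(P, augRep F R)` are classified by the orbits of the automorphisms of `P` on the
normal subgroups of index `p ≠ 2`. -/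
theorem pairEquiv_augRep_iff (F : Type*) [Field F] {P : Type*} [Group P] [Finite P] (p : ℕ)
    [Fact p.Prime] (hp2 : p ≠ 2) (R R' : Subgroup P) (hn : R.Normal) (hR : R.index = p)
    (hn' : R'.Normal) (hR' : R'.index = p) :
    PairEquiv (V := augSub F R) (W := augSub F R') (augRep F R) (augRep F R') ↔ ∃ φ : P ≃* P, R = R'.comap φ.toMonoidHom := by
  constructor
  · rintro ⟨φ, ⟨E⟩⟩
    refine ⟨φ, ?_⟩
    have hE : ∀ x a, E.toLinearEquiv (augRep F R x a) = augRep F R' (φ x) (E.toLinearEquiv a) :=
      fun x a => LinearMap.congr_fun (E.toIntertwiningMap.isIntertwining' x) a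
    ext x
    rw [Subgroup.mem_comap, ← augRep_ker F p hp2 R hn hR x]
    show _ ↔ φ x ∈ R'
    rw [← augRep_ker F p hp2 R' hn' hR' (φ x)]
    constructor
    · intro h a
      obtain ⟨b, rfl⟩ := E.toLinearEquiv.surjective a
      rw [← hE, h]
    · intro h a
      apply E.toLinearEquiv.injective
      rw [hE, h]
  · rintro ⟨φ, rfl⟩
    exact ⟨φ, augRep_congr φ R'⟩

end Pool.Agent.KGS
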