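import Pool.Agent.KGS.Eea
import Pool.Agent.KGS.Eei
import Pool.Agent.KGS.Cla
import Pool.Agent.KGS.Fst

/-!
# Row MN1 (MP_1993d0_al): a maximal subgroup which acts trivially
-/

open Representation

namespace Pool.Agent.KGS

open Pool.Agent.KFV Pool.Agent.KFE

section

variable {F : Type*} [Field F] {P L : Type*} [Group P] [AddCommGroup L] [Module F L]

private theorem mn_comm (σ : Representation F P L) (R : Subgroup P) (hR : IsCoatom R) (x : P)
    (hx : x ∉ R) (f : Module.End F L) (hf : f * (σ x - 1) = (σ x - 1) * f)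
    (hfR : ∀ r ∈ R, f * σ r = σ r * f) : Eqv σ σ f := by
  let S : Subgroup P :=
    { carrier := {q | f * σ q = σ q * f}
      mul_mem' := by
        intro a b ha hb
        have ha' : f * σ a = σ a * f := ha
        have hb' : f * σ b = σ b * f := hb
        show f * σ (a * b) = σ (a * b) * f
        rw [map_mul, ← mul_assoc, ha', mul_assoc, hb', mul_assoc]
      one_mem' := by
        show f * σ 1 = σ 1 * f
        rw [map_one, mul_one, one_mul]
      inv_mem' := by
        intro a ha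
        have ha' : f * σ a = σ a * f := ha
        show f * σ a⁻¹ = σ a⁻¹ * f
        have e1 : σ a⁻¹ * σ a = 1 := by rw [← map_mul, inv_mul_cancel, map_one]
        have e2 : σ a * σ a⁻¹ = 1 := by rw [← map_mul, mul_inv_cancel, map_one]
        calc f * σ a⁻¹ = (σ a⁻¹ * σ a) * (f * σ a⁻¹) := by rw [e1, one_mul]
          _ = σ a⁻¹ * (σ a * f) * σ a⁻¹ := by simp only [mul_assoc]
          _ = σ a⁻¹ * (f * σ a) * σ a⁻¹ := by rw [ha']
          _ = σ a⁻¹ * f * (σ a * σ a⁻¹) := by simp only [mul_assoc]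
          _ = σ a⁻¹ * f := by rw [e2, mul_one] }
  have hRS : R ≤ S := fun r hr => hfR r hr
  have hxS : x ∈ S := by
    show f * σ x = σ x * f
    have h1 : f * σ x - f = σ x * f - f := by
      have h2 : f * (σ x - 1) = f * σ x - f := by rw [mul_sub, mul_one]
      have h3 : (σ x - 1) * f = σ x * f - f := by rw [sub_mul, one_mul]
      rw [← h2, ← h3, hf]
    have h4 := congrArg (fun z => z + f) h1
    simpa using h4
  have hlt : R < S := lt_of_le_of_ne hRS (fun h => hx (h ▸ hxS))
  have htop : S = ⊤ := hR.2 S hlt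
  intro g
  have hg : g ∈ S := htop ▸ Subgroup.mem_top g
  exact hg

private theorem mn_main [Finite P] [FiniteDimensional F L] [Nontrivial L] (p : ℕ)
    [Fact p.Prime] [CharP F p] (hP : IsPGroup p P) (σ : Representation F P L)
    (R : Subgroup P) (hR : IsCoatom R) :
    ∃ (x : P) (μ : ℕ) (f : Module.End F L), x ∉ R ∧ 1 ≤ μ ∧ EE σ R x μ ∧ Eqv σ σ f ∧
      (∀ a ∈ aug σ R ⊤, f a = 0) ∧ ∃ a, ((σ x - 1 : Module.End F L) ^ (μ - 1)) (f a) ≠ 0 := by
  have hnil : Group.IsNilpotent P := hP.isNilpotent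
  have hnorm : R.Normal :=
    Subgroup.NormalizerCondition.normal_of_coatom R
      (Group.normalizerCondition_of_isNilpotent (G := P)) hR
  obtain ⟨x, hx⟩ : ∃ x, x ∉ R := by
    by_contra hcon
    push Not at hcon
    exact hR.1 ((Subgroup.eq_top_iff' R).2 hcon)
  let N : Module.End F L := σ x - 1
  have hNdef : N = σ x - 1 := rfl
  have hNn : ∀ a, (N ^ Module.finrank F L) a = 0 := by
    intro a
    by_contra hne
    have h1 := chain_dim p hP σ ⊤ (fun _ _ _ => Submodule.mem_top)
      (List.replicate (Module.finrank F L) x) a Submodule.mem_top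
      (by rw [List.map_replicate, List.prod_replicate]; exact hne)
    rw [List.length_replicate, finrank_top] at h1
    exact lt_irrefl _ h1
  let A : Submodule F L := aug σ R ⊤
  let B : Submodule F L := fixd σ R
  have hApply : ∀ a, N a = σ x a - a := fun a => by
    rw [hNdef, LinearMap.sub_apply, Module.End.one_apply]
  have hAx : ∀ a ∈ A, σ x a ∈ A := by
    intro a ha
    have ha' : a ∈ Submodule.span F {v | ∃ r ∈ R, ∃ a ∈ (⊤ : Submodule F L), v = σ r a - a} := ha
    induction ha' using Submodule.span_induction with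
    | mem v hv =>
      obtain ⟨r, hr, b, -, rfl⟩ := hv
      refine Submodule.subset_span ⟨x * r * x⁻¹, hnorm.conj_mem r hr x, σ x b,
        Submodule.mem_top, ?_⟩
      have e : σ (x * r * x⁻¹) (σ x b) = σ x (σ r b) := by
        rw [← Module.End.mul_apply, ← map_mul, inv_mul_cancel_right, map_mul,
          Module.End.mul_apply]
      rw [e, map_sub]
    | zero => rw [map_zero]; exact A.zero_mem
    | add u v hu hv h1 h2 => rw [map_add]; exact A.add_mem (h1 hu) (h2 hv)
    | smul c v hv h1 => rw [map_smul]; exact A.smul_mem c (h1 hv)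
  have hA : ∀ a ∈ A, N a ∈ A := fun a ha => by
    rw [hApply]
    exact A.sub_mem (hAx a ha) ha
  have hB : ∀ b ∈ B, N b ∈ B := by
    intro b hb
    have hb' : ∀ r ∈ R, σ r b = b := hb
    show ∀ r ∈ R, σ r (N b) = N b
    intro r hr
    have hc : x⁻¹ * r * x ∈ R := by
      have := hnorm.conj_mem r hr x⁻¹
      rwa [inv_inv] at this
    have e : σ r (σ x b) = σ x b := by
      have e1 : σ r (σ x b) = σ x (σ (x⁻¹ * r * x) b) := by
        rw [← Module.End.mul_apply, ← Module.End.mul_apply, ← map_mul, ← map_mul]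
        congr 2
        group
      rw [e1, hb' _ hc]
    rw [hApply, map_sub, e, hb' r hr]
  have hAtop : A ≠ ⊤ := by
    intro h
    have h1 : aug σ ⊤ (⊤ : Submodule F L) < ⊤ :=
      aug_lt p hP σ ⊤ (fun _ _ _ => Submodule.mem_top) (fun h => by
        obtain ⟨v, hv⟩ := exists_ne (0 : L)
        exact hv ((Submodule.mem_bot F).1 (h ▸ Submodule.mem_top)))
    have h2 : A ≤ aug σ ⊤ (⊤ : Submodule F L) := by
      refine Submodule.span_mono ?_
      rintro v ⟨r, -, b, hb, hv⟩
      exact ⟨r, Subgroup.mem_top r, b, hb, hv⟩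
    rw [h] at h2
    exact absurd (lt_of_le_of_lt h2 h1) (lt_irrefl _)
  obtain ⟨v0, hv0, hv0f⟩ := exists_fixed_vector p hP σ
  have hv0B : v0 ∈ B := fun r _ => hv0f r
  -- the least exponents
  have hexα : ∃ α, ∀ a, (N ^ α) a ∈ A := ⟨_, fun a => by rw [hNn a]; exact A.zero_mem⟩
  have hexβ : ∃ β, ∀ b ∈ B, (N ^ β) b = 0 := ⟨_, fun b _ => hNn b⟩
  classical
  obtain ⟨α, hα, hαmin⟩ : ∃ α, (∀ a, (N ^ α) a ∈ A) ∧ ∀ k < α, ¬ ∀ a, (N ^ k) a ∈ A :=
    ⟨Nat.find hexα, Nat.find_spec hexα, fun k hk => Nat.find_min hexα hk⟩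
  obtain ⟨β, hβ, hβmin⟩ : ∃ β, (∀ b ∈ B, (N ^ β) b = 0) ∧
      ∀ k < β, ¬ ∀ b ∈ B, (N ^ k) b = 0 :=
    ⟨Nat.find hexβ, Nat.find_spec hexβ, fun k hk => Nat.find_min hexβ hk⟩
  have hα1 : 1 ≤ α := by
    rcases Nat.eq_zero_or_pos α with h | h
    · exfalso
      apply hAtop
      rw [eq_top_iff]
      intro a _
      have := hα a
      rw [h, pow_zero, Module.End.one_apply] at this
      exact this
    · exact h
  have hβ1 : 1 ≤ β := by
    rcases Nat.eq_zero_or_pos β with h | h
    · exfalso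
      apply hv0
      have := hβ v0 hv0B
      rw [h, pow_zero, Module.End.one_apply] at this
      exact this
    · exact h
  obtain ⟨a0, ha0⟩ : ∃ a, (N ^ (α - 1)) a ∉ A := by
    have := hαmin (α - 1) (by omega)
    push Not at this
    exact this
  obtain ⟨b0, hb0, hb0n⟩ : ∃ b ∈ B, (N ^ (β - 1)) b ≠ 0 := by
    have := hβmin (β - 1) (by omega)
    push Not at this
    exact this
  let μ := min α β
  have hμα : μ ≤ α := min_le_left _ _
  have hμβ : μ ≤ β := min_le_right _ _
  have hμ1 : 1 ≤ μ := le_min hα1 hβ1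
  have hEE : EE σ R x μ := by
    rcases le_total α β with h | h
    · have e : μ = α := min_eq_left h
      rw [e]
      exact ee_aug p hP σ R x α hα
    · have e : μ = β := min_eq_right h
      rw [e]
      exact ee_fixd p hP σ R x β hβ
  have hBpow : ∀ k, ∀ b ∈ B, (N ^ k) b ∈ B := by
    intro k
    induction k with
    | zero => intro b hb; rw [pow_zero, Module.End.one_apply]; exact hb
    | succ k ih =>
      intro b hb
      rw [pow_succ, Module.End.mul_apply]
      exact ih _ (hB b hb)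
  have hbB := hBpow (β - μ) b0 hb0
  have hb2 : (N ^ μ) ((N ^ (β - μ)) b0) = 0 := by
    rw [← Module.End.mul_apply, ← pow_add, show μ + (β - μ) = β by omega]
    exact hβ b0 hb0
  have hb3 : (N ^ (μ - 1)) ((N ^ (β - μ)) b0) ≠ 0 := by
    rw [← Module.End.mul_apply, ← pow_add, show μ - 1 + (β - μ) = β - 1 by omega]
    exact hb0n
  obtain ⟨f, hfN, hfA, hfB, -, hfa⟩ := exists_f N A B hA hB α μ hμ1 hμα hα a0 ha0
    ((N ^ (β - μ)) b0) hbB hb2
  refine ⟨x, μ, f, hx, hμ1, hEE, ?_, hfA, a0, ?_⟩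
  · refine mn_comm σ R hR x hx f hfN ?_
    intro r hr
    ext l
    rw [Module.End.mul_apply, Module.End.mul_apply]
    have h1 : f (σ r l) = f l := by
      have h2 : σ r l - l ∈ A := Submodule.subset_span ⟨r, hr, l, Submodule.mem_top, rfl⟩
      have h3 := hfA _ h2
      rw [map_sub, sub_eq_zero] at h3
      exact h3
    have h4 : σ r (f l) = f l := (hfB l : ∀ r ∈ R, σ r (f l) = f l) r hr
    rw [h1, h4]
  · rw [hfa]
    exact hb3

/-- ROW MN1 -/
theorem exists_trivial_coatom [Finite P] [FiniteDimensional F L] (p : ℕ) [Fact p.Prime]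
    [CharP F p] (hP : IsPGroup p P) (σ : Representation F P L) (hd : Module.finrank F L < p)
    (hσ : Indec σ)
    (hloc : ∀ θ : L →ₗ[F] L, Eqv σ σ θ → ∃ c : F, θ - c • LinearMap.id ∈ trI σ σ)
    (hnt : ∃ q a, σ q a ≠ a) : ∃ R : Subgroup P, IsCoatom R ∧ ∀ r ∈ R, ∀ a, σ r a = a := by
  have hLnt : Nontrivial L := hσ.1
  by_contra hcon
  have hall : ∀ R : Subgroup P, IsCoatom R → ∃ r ∈ R, ∃ a, σ r a ≠ a := by
    intro R hR
    by_contra h
    push Not at h
    exact hcon ⟨R, hR, h⟩
  have hmain := fun (R : {R : Subgroup P // IsCoatom R}) => mn_main p hP σ R.1 R.2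
  choose x μ f hx hμ1 hEE hEq hfA hfa using hmain
  have hne : Nonempty {R : Subgroup P // IsCoatom R} := by
    rcases eq_top_or_exists_le_coatom (⊥ : Subgroup P) with h | ⟨M, hM, -⟩
    · exfalso
      obtain ⟨q, a, hqa⟩ := hnt
      have hq : q ∈ (⊥ : Subgroup P) := h ▸ Subgroup.mem_top q
      rw [Subgroup.mem_bot] at hq
      apply hqa
      rw [hq, map_one, Module.End.one_apply]
    · exact ⟨⟨M, hM⟩⟩
  have hfin : Finite {R : Subgroup P // IsCoatom R} := inferInstance
  obtain ⟨R, hRmax⟩ := Finite.exists_max μ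
  have hkill : ∀ t ∈ trI σ σ, (σ (x R) - 1 : Module.End F L) ^ (μ R - 1) * t = 0 := by
    have key : ∀ t ∈ Submodule.span F {f | ∃ R : Subgroup P, R ≠ ⊤ ∧ ∃ θ : L →ₗ[F] L,
        (∀ r ∈ R, θ ∘ₗ σ r = σ r ∘ₗ θ) ∧ f = relTr σ σ R θ},
        (σ (x R) - 1 : Module.End F L) ^ (μ R - 1) * t = 0 := ?_
    · exact fun t ht => key t ht
    intro t ht
    induction ht using Submodule.span_induction with
    | mem t ht =>
      obtain ⟨S, hS, θ, hθ, rfl⟩ := ht
      obtain ⟨M, hM, hSM⟩ := (eq_top_or_exists_le_coatom S).resolve_left hS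
      have h1 := relTr_trans σ σ M (S.subgroupOf M) θ (by
        intro r hr
        exact hθ r hr)
      rw [Subgroup.subgroupOf_map_subtype, inf_eq_left.2 hSM] at h1
      rw [← h1]
      have h2 := relTr_eqv (σ.comp M.subtype) (σ.comp M.subtype) (S.subgroupOf M) θ (by
        intro r hr
        exact hθ r hr)
      have h3 := kill_relTr p hP σ hd M hM (x ⟨M, hM⟩) (hx ⟨M, hM⟩) (μ ⟨M, hM⟩)
        (hμ1 ⟨M, hM⟩) (hEE ⟨M, hM⟩)
        (relTr (σ.comp M.subtype) (σ.comp M.subtype) (S.subgroupOf M) θ)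
        (fun r hr => h2 ⟨r, hr⟩) (x R)
      have h4 := hRmax ⟨M, hM⟩
      have h5 : μ R - 1 = (μ R - μ ⟨M, hM⟩) + (μ ⟨M, hM⟩ - 1) := by
        have := hμ1 ⟨M, hM⟩
        omega
      rw [h5, pow_add, mul_assoc, h3, mul_zero]
    | zero => rw [mul_zero]
    | add s t hs ht h1 h2 => rw [mul_add, h1, h2, add_zero]
    | smul c t ht h1 => rw [mul_smul_comm, h1, smul_zero]
  obtain ⟨c, hc⟩ := hloc (f R) (hEq R)
  have hk := hkill _ hc
  obtain ⟨a, ha⟩ := hfa R
  obtain ⟨r, hr, b, hb⟩ := hall R.1 R.2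
  have hninj : ¬ Function.Bijective (f R) := by
    intro hbij
    apply hb
    have h1 : σ r b - b ∈ aug σ R.1 ⊤ :=
      Submodule.subset_span ⟨r, hr, b, Submodule.mem_top, rfl⟩
    have h2 := hfA R _ h1
    have h3 : σ r b - b = 0 := hbij.1 (by rw [h2, map_zero])
    exact sub_eq_zero.1 h3
  have hnilp : IsNilpotent (f R) :=
    (Indec.bijective_or_nilpotent hσ (f R) (hEq R)).resolve_left hninj
  apply ha
  rcases eq_or_ne c 0 with h0 | h0
  · rw [h0, zero_smul, sub_zero] at hk
    have := LinearMap.congr_fun hk a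
    rw [Module.End.mul_apply] at this
    exact this
  · have hunit : IsUnit (f R - c • (LinearMap.id : L →ₗ[F] L)) := by
      have e : f R - c • (LinearMap.id : L →ₗ[F] L)
          = -(algebraMap F (Module.End F L) c - f R) := by
        rw [neg_sub]
        rfl
      rw [e, IsUnit.neg_iff]
      have hu : IsUnit (algebraMap F (Module.End F L) c) :=
        (isUnit_iff_ne_zero.2 h0).map (algebraMap F (Module.End F L))
      have h7 : IsUnit (algebraMap F (Module.End F L) c + -(f R)) :=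
        IsNilpotent.isUnit_add_left_of_commute hnilp.neg hu
          (Algebra.commutes c (-(f R))).symm
      rwa [← sub_eq_add_neg] at h7
    have h8 : (σ (x R) - 1 : Module.End F L) ^ (μ R - 1) = 0 :=
      (hunit.mul_left_eq_zero).1 hk
    rw [h8, LinearMap.zero_apply]

end

end Pool.Agent.KGS
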