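import Pool.Agent.KGS.Mn1
import Pool.Agent.KGS.Cyc
import Pool.Agent.KGS.Iso

/-!
# KGS: the local classification (assembly)
-/

open Representation

namespace Pool.Agent.KGS

open Pool.Agent.KFV Pool.Agent.KFE

theorem coatom_normal {P : Type*} [Group P] [Finite P] (p : ℕ) [Fact p.Prime]
    (hP : IsPGroup p P) (R : Subgroup P) (hR : IsCoatom R) : R.Normal := by
  have := hP.isNilpotent
  exact Subgroup.NormalizerCondition.normal_of_coatom R
    Group.normalizerCondition_of_isNilpotent hR

theorem coatom_index {P : Type*} [Group P] [Finite P] (p : ℕ) [Fact p.Prime]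
    (hP : IsPGroup p P) (R : Subgroup P) (hR : IsCoatom R) : R.index = p := by
  have hp : p.Prime := Fact.out
  have hnorm : R.Normal := coatom_normal p hP R hR
  have hne : Nontrivial (P ⧸ R) := QuotientGroup.nontrivial_iff.2 hR.1
  have hQ : IsPGroup p (P ⧸ R) := hP.to_quotient R
  have hdvd : p ∣ Nat.card (P ⧸ R) := by
    obtain ⟨n, hn, hn'⟩ := (hQ.nontrivial_iff_card).1 hne
    rw [hn']
    exact dvd_pow_self p (by omega)
  obtain ⟨c, hc⟩ := exists_prime_orderOf_dvd_card' p hdvd
  have h1 : R ≤ (Subgroup.zpowers c).comap (QuotientGroup.mk' R) := by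
    intro y hy
    rw [Subgroup.mem_comap]
    have : QuotientGroup.mk' R y = 1 := (QuotientGroup.eq_one_iff y).2 hy
    rw [this]
    exact Subgroup.one_mem _
  obtain ⟨x, hx⟩ := QuotientGroup.mk_surjective c
  have h2 : (Subgroup.zpowers c).comap (QuotientGroup.mk' R) ≠ R := by
    intro h
    have hx' : x ∈ (Subgroup.zpowers c).comap (QuotientGroup.mk' R) := by
      rw [Subgroup.mem_comap]
      show (x : P ⧸ R) ∈ _
      rw [hx]
      exact Subgroup.mem_zpowers _
    rw [h] at hx'
    have : (x : P ⧸ R) = 1 := (QuotientGroup.eq_one_iff x).2 hx'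
    rw [← hx, this, orderOf_one] at hc
    exact hp.one_lt.ne hc
  have h3 := hR.2 _ (lt_of_le_of_ne h1 (Ne.symm h2))
  have h4 : Subgroup.zpowers c = ⊤ := by
    rw [eq_top_iff]
    intro z _
    obtain ⟨y, rfl⟩ := QuotientGroup.mk_surjective z
    have : y ∈ (Subgroup.zpowers c).comap (QuotientGroup.mk' R) := by
      rw [h3]; trivial
    exact this
  rw [Subgroup.index_eq_card, ← hc, ← Nat.card_zpowers, h4, Subgroup.card_top]

/-- The local statement. -/
theorem small_class {F : Type*} [Field F] {P L : Type*} [Group P] [AddCommGroup L] [Module F L]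
    [Finite P] [FiniteDimensional F L] (p : ℕ) [Fact p.Prime]
    [CharP F p] (hP : IsPGroup p P) (σ : Representation F P L) (hd : Module.finrank F L < p)
    (hσ : Indec σ)
    (hloc : ∀ θ : L →ₗ[F] L, Eqv σ σ θ → ∃ c : F, θ - c • LinearMap.id ∈ trI σ σ) :
    (Module.finrank F L = 1 ∧ ∀ q a, σ q a = a) ∨
      ∃ R : Subgroup P, R.index = p ∧ Nonempty (σ.Equiv (augRep F R)) := by
  by_cases hnt : ∃ q a, σ q a ≠ a
  · right
    obtain ⟨R, hR, hRt⟩ := exists_trivial_coatom p hP σ hd hσ hloc hnt
    obtain ⟨x, hx⟩ : ∃ x, x ∉ R := by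
      by_contra h
      push Not at h
      exact hR.1 (eq_top_iff.2 fun q _ => h q)
    obtain ⟨h1, h2⟩ := dim_of_trivial_coatom p hP σ hd hσ hloc hnt R hR hRt x hx
    exact ⟨R, coatom_index p hP R hR, iso_augRep p hP σ h1 R hR hRt x hx h2⟩
  · left
    push Not at hnt
    have := hσ.1
    obtain ⟨b, hb⟩ := exists_ne (0 : L)
    refine ⟨?_, hnt⟩
    by_contra hne
    obtain ⟨C, hC⟩ := Submodule.exists_isCompl (Submodule.span F {b})
    have h1 := hσ.2 ⟨Submodule.span F {b}, fun g v hv => by rw [hnt]; exact hv⟩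
      ⟨C, fun g v hv => by rw [hnt]; exact hv⟩ (fit_isCompl _ _ hC)
    rcases h1 with h1 | h1
    · have h2 : Submodule.span F {b} = ⊥ := congrArg Subrepresentation.toSubmodule h1
      exact hb (Submodule.span_singleton_eq_bot.1 h2)
    · have h2 : C = ⊥ := congrArg Subrepresentation.toSubmodule h1
      rw [h2] at hC
      have h3 := hC.sup_eq_top
      rw [sup_bot_eq] at h3
      apply hne
      rw [← finrank_top F L, ← h3]
      exact finrank_span_singleton hb

end Pool.Agent.KGS
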