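import Pool.Agent.KGS.XDefs
import Pool.Agent.KGS.Fst

/-!
# KGS, row XCD: an indecomposable module of a cyclic group of order `p` is one Jordan block
-/

open Representation

namespace Pool.Agent.KGS

open Pool.Agent.KFV Pool.Agent.KFE

private theorem xcd_normal {P : Type*} [Group P] [Finite P] (p : ℕ) [Fact p.Prime]
    (hP : IsPGroup p P) (R : Subgroup P) (hR : R.index = p) : R.Normal := by
  have hp : p.Prime := Fact.out
  obtain ⟨n, hn⟩ := IsPGroup.iff_card.1 hP
  have hn0 : n ≠ 0 := by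
    rintro rfl
    have h1 : R.index ∣ Nat.card P := R.index_dvd_card
    rw [hn, hR, pow_zero, Nat.dvd_one] at h1
    exact hp.one_lt.ne' h1
  apply Subgroup.normal_of_index_eq_minFac_card
  rw [hR, hn, Nat.Prime.pow_minFac hp hn0]

theorem indec_cyclic {F : Type*} [Field F] {P L : Type*} [Group P] [AddCommGroup L] [Module F L]
    [Finite P] [FiniteDimensional F L] (p : ℕ) [Fact p.Prime]
    [CharP F p] (hP : IsPGroup p P) (σ : Representation F P L) (hσ : Indec σ) (R : Subgroup P)
    (hR : R.index = p) (hRt : ∀ r ∈ R, ∀ a, σ r a = a) (x : P) (hx : x ∉ R) :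
    Module.finrank F L ≤ p ∧
      (σ x - 1 : Module.End F L) ^ (Module.finrank F L - 1) ≠ 0 := by
  classical
  have hp : p.Prime := Fact.out
  have hnt : Nontrivial L := hσ.1
  have hnorm : R.Normal := xcd_normal p hP R hR
  have hcard : Nat.card (P ⧸ R) = p := hR
  have hx1 : (x : P ⧸ R) ≠ 1 := fun h => hx ((QuotientGroup.eq_one_iff x).1 h)
  have hone : ∀ r ∈ R, σ r = 1 := fun r hr => LinearMap.ext fun a => hRt r hr a
  -- every element acts as a power of `x`
  have hgen : ∀ q : P, ∃ k : ℤ, σ q = σ (x ^ k) := by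
    intro q
    obtain ⟨k, hk⟩ := Subgroup.mem_zpowers_iff.1
      (mem_zpowers_of_prime_card (g' := (q : P ⧸ R)) hcard hx1)
    refine ⟨k, ?_⟩
    have h1 : ((x ^ k : P) : P ⧸ R) = (q : P ⧸ R) := by
      rw [← hk]; rfl
    have h2 : (x ^ k)⁻¹ * q ∈ R := QuotientGroup.eq.1 h1
    have h3 : q = x ^ k * ((x ^ k)⁻¹ * q) := by group
    rw [h3, map_mul, hone _ h2, mul_one]
  -- `N ^ p = 0`
  have hxp : x ^ p ∈ R := by
    rw [← QuotientGroup.eq_one_iff]
    have h1 : ((x ^ p : P) : P ⧸ R) = (x : P ⧸ R) ^ p := rfl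
    rw [h1, ← hcard]
    exact pow_card_eq_one'
  have : CharP (Module.End F L) p :=
    charP_of_injective_algebraMap (FaithfulSMul.algebraMap_injective F (Module.End F L)) p
  set N : Module.End F L := σ x - 1 with hNdef
  have hNp : N ^ p = 0 := by
    rw [hNdef, sub_pow_char_of_commute p (Commute.one_right _), one_pow, ← map_pow,
      hone _ hxp, sub_self]
  -- the nilpotency index
  have hex : ∃ m, N ^ m = 0 := ⟨p, hNp⟩
  obtain ⟨α, hα0, hαmin⟩ : ∃ α, N ^ α = 0 ∧ ∀ m < α, N ^ m ≠ 0 :=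
    ⟨Nat.find hex, Nat.find_spec hex, fun m hm => Nat.find_min hex hm⟩
  have hαp : α ≤ p := by
    by_contra h
    exact hαmin p (by omega) hNp
  have hα1 : 1 ≤ α := by
    rcases Nat.eq_zero_or_pos α with h | h
    · rw [h, pow_zero] at hα0
      exact absurd hα0 one_ne_zero
    · exact h
  have hne : N ^ (α - 1) ≠ 0 := hαmin _ (by omega)
  obtain ⟨a, ha⟩ : ∃ a, (N ^ (α - 1)) a ≠ 0 := by
    by_contra h
    push Not at h
    exact hne (LinearMap.ext h)
  obtain ⟨f, hfN, -, -, hspan, hfa⟩ := exists_f N ⊥ ⊤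
    (fun b hb => by rw [(Submodule.mem_bot F).1 hb, map_zero]; exact Submodule.zero_mem _)
    (fun _ _ => trivial) α α hα1 le_rfl
    (fun b => by rw [hα0]; exact Submodule.zero_mem _) a
    (fun h => ha ((Submodule.mem_bot F).1 h)) a trivial (by rw [hα0]; rfl)
  -- `f` is equivariant
  have hfx : Commute f (σ x) := by
    have h1 : σ x = N + 1 := by rw [hNdef, sub_add_cancel]
    rw [h1]
    exact Commute.add_right hfN (Commute.one_right f)
  have hunit : σ x * σ x⁻¹ = 1 := by rw [← map_mul, mul_inv_cancel, map_one]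
  have hunit' : σ x⁻¹ * σ x = 1 := by rw [← map_mul, inv_mul_cancel, map_one]
  have hfxi : Commute f (σ x⁻¹) := by
    have h1 : f * σ x = σ x * f := hfx
    change f * σ x⁻¹ = σ x⁻¹ * f
    calc f * σ x⁻¹ = σ x⁻¹ * σ x * f * σ x⁻¹ := by rw [hunit', one_mul]
      _ = σ x⁻¹ * (σ x * f) * σ x⁻¹ := by rw [mul_assoc (σ x⁻¹)]
      _ = σ x⁻¹ * (f * σ x) * σ x⁻¹ := by rw [h1]
      _ = σ x⁻¹ * f * (σ x * σ x⁻¹) := by simp only [mul_assoc]
      _ = σ x⁻¹ * f := by rw [hunit, mul_one]
  have hpow : ∀ k : ℤ, Commute f (σ (x ^ k)) := by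
    intro k
    obtain ⟨n, rfl | rfl⟩ := k.eq_nat_or_neg
    · rw [zpow_natCast, map_pow]
      exact hfx.pow_right n
    · rw [zpow_neg, zpow_natCast, ← inv_pow, map_pow]
      exact hfxi.pow_right n
  have heqv : Eqv σ σ f := by
    intro q
    obtain ⟨k, hk⟩ := hgen q
    rw [hk]
    exact hpow k
  -- `f` is not nilpotent
  have hfix : f ((N ^ (α - 1)) a) = (N ^ (α - 1)) a := by
    have h1 : Commute f (N ^ (α - 1)) := Commute.pow_right hfN _
    have h2 : f ((N ^ (α - 1)) a) = (N ^ (α - 1)) (f a) :=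
      LinearMap.congr_fun (h1 : f * N ^ (α - 1) = N ^ (α - 1) * f) a
    rw [h2, hfa]
  have hsurj : Function.Surjective f := by
    rcases hσ.bijective_or_nilpotent f heqv with h | ⟨k, hk⟩
    · exact h.2
    · exfalso
      have h1 : ∀ m : ℕ, (f ^ m) ((N ^ (α - 1)) a) = (N ^ (α - 1)) a := by
        intro m
        induction m with
        | zero => rfl
        | succ m ih =>
          rw [pow_succ, Module.End.mul_apply, hfix, ih]
      have h2 := h1 k
      rw [hk, LinearMap.zero_apply] at h2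
      exact ha h2.symm
  have hle : Module.finrank F L ≤ α := by
    have h1 : (⊤ : Submodule F L) ≤
        Submodule.span F (Set.range fun i : Fin α => (N ^ (i : ℕ)) a) := by
      intro l _
      obtain ⟨l', rfl⟩ := hsurj l
      exact hspan l'
    have h2 := Submodule.finrank_mono h1
    rw [finrank_top] at h2
    refine h2.trans ((finrank_range_le_card (R := F) fun i : Fin α => (N ^ (i : ℕ)) a).trans ?_)
    rw [Fintype.card_fin]
  refine ⟨hle.trans hαp, ?_⟩
  intro h0
  apply hne
  have h1 : α - 1 = (Module.finrank F L - 1) + (α - 1 - (Module.finrank F L - 1)) := by omega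
  rw [h1, pow_add, h0, zero_mul]

end Pool.Agent.KGS
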