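import Pool.Agent.KGS.XDefs

/-!
# KGS (MP_1993d0_al): row XCH, a character of a p-group with a kernel of index p
-/

namespace Pool.Agent.KGS

theorem exists_chi {P M : Type*} [Group P] [Finite P] [Group M] (p : ℕ) [Fact p.Prime]
    (hP : IsPGroup p P) (R : Subgroup P) (hR : R.index = p) (T : M) (hT : T ^ p = 1) :
    ∃ χ : P →* M, (∀ r ∈ R, χ r = 1) ∧ (∃ x, x ∉ R ∧ χ x = T) ∧ ∀ y, ∃ k : ℕ, χ y = T ^ k := by
  have hp : p.Prime := Fact.out
  -- `R` is normal
  have hcard : ∃ n, Nat.card P = p ^ n := (IsPGroup.iff_card).1 hP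
  have hdvd : R.index ∣ Nat.card P := R.index_dvd_card
  have hmin : (Nat.card P).minFac = p := by
    obtain ⟨n, hn⟩ := hcard
    have hn0 : n ≠ 0 := by
      rintro rfl
      rw [hn, hR, pow_zero, Nat.dvd_one] at hdvd
      exact hp.one_lt.ne' hdvd
    rw [hn, Nat.pow_minFac hn0, hp.minFac_eq]
  have hnor : R.Normal := Subgroup.normal_of_index_eq_minFac_card (by rw [hmin, hR])
  have hQ : Nat.card (P ⧸ R) = p := by rw [← hR]; rfl
  -- an element outside `R`
  obtain ⟨x, hx⟩ : ∃ x, x ∉ R := by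
    by_contra h
    push Not at h
    have h1 : R = ⊤ := by
      rw [Subgroup.eq_top_iff']
      exact h
    rw [h1, Subgroup.index_top] at hR
    exact hp.one_lt.ne hR
  set g : P ⧸ R := QuotientGroup.mk' R x with hg
  have hg1 : g ≠ 1 := by
    intro h
    rw [hg, QuotientGroup.mk'_apply, QuotientGroup.eq_one_iff] at h
    exact hx h
  have hgen : ∀ z : P ⧸ R, z ∈ Subgroup.zpowers g := fun z =>
    mem_zpowers_of_prime_card hQ hg1
  have hord : orderOf g = p := by
    rw [orderOf_eq_card_of_forall_mem_zpowers hgen, hQ]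
  have hdv : orderOf T ∣ orderOf g := by
    rw [hord]
    exact orderOf_dvd_of_pow_eq_one hT
  refine ⟨(monoidHomOfForallMemZpowers hgen hdv).comp (QuotientGroup.mk' R), ?_, ⟨x, hx, ?_⟩, ?_⟩
  · intro r hr
    rw [MonoidHom.comp_apply]
    have : QuotientGroup.mk' R r = 1 := by
      rw [QuotientGroup.mk'_apply, QuotientGroup.eq_one_iff]
      exact hr
    rw [this, map_one]
  · rw [MonoidHom.comp_apply]
    exact monoidHomOfForallMemZpowers_apply_gen hgen hdv
  · intro y
    have hfin : Finite (P ⧸ R) := inferInstance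
    have h1 := hgen (QuotientGroup.mk' R y)
    rw [← mem_powers_iff_mem_zpowers] at h1
    obtain ⟨k, hk⟩ := h1
    refine ⟨k, ?_⟩
    rw [MonoidHom.comp_apply, ← hk]
    simp only [map_pow]
    rw [monoidHomOfForallMemZpowers_apply_gen hgen hdv]

end Pool.Agent.KGS
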