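import Pool.Agent.KGS.XDefs
import Pool.Agent.KFV.MAI

/-!
# KGS: the dimension of the source modulo `p`
-/

open Representation

namespace Pool.Agent.KGS

open Pool.Agent.KFV Pool.Agent.KFE

universe u v w

/-- the trace of a relative trace -/
private theorem XDM_tr {F : Type*} [Field F] {G V : Type*} [Group G] [Finite G] [AddCommGroup V]
    [Module F V] (ρ : Representation F G V) (Q : Subgroup G)
    (f : Module.End F V) : LinearMap.trace F V (relTr ρ ρ Q f) =
      (Nat.card (G ⧸ Q) : F) * LinearMap.trace F V f := by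
  unfold relTr
  have : Fintype (G ⧸ Q) := Fintype.ofFinite _
  rw [finsum_eq_sum_of_fintype, map_sum]
  have h : ∀ x ∈ (Finset.univ : Finset (G ⧸ Q)),
      LinearMap.trace F V (ρ x.out ∘ₗ f ∘ₗ ρ x.out⁻¹) = LinearMap.trace F V f := by
    intro x _
    have h1 : ρ x.out ∘ₗ f ∘ₗ ρ x.out⁻¹ = ρ x.out * (f * ρ x.out⁻¹) := rfl
    rw [h1, LinearMap.trace_mul_comm, mul_assoc, ← map_mul, inv_mul_cancel, map_one, mul_one]
  rw [Finset.sum_congr rfl h, Finset.sum_const, nsmul_eq_mul, Finset.card_univ,
    Nat.card_eq_fintype_card]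

/-- the trace of a trace over the cyclic group is zero -/
private theorem XDM_cyc {F : Type*} [Field F] (p : ℕ) [CharP F p] {V : Type*} [AddCommGroup V]
    [Module F V] (T : (Module.End F V)ˣ) (h : Module.End F V) :
    LinearMap.trace F V (∑ k ∈ Finset.range p,
        (T : Module.End F V) ^ k * h * (↑T⁻¹ : Module.End F V) ^ k) = 0 := by
  rw [map_sum]
  have h1 : ∀ k ∈ Finset.range p, LinearMap.trace F V
      ((T : Module.End F V) ^ k * h * (↑T⁻¹ : Module.End F V) ^ k) = LinearMap.trace F V h := by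
    intro k _
    have h2 : (↑T⁻¹ : Module.End F V) ^ k * (T : Module.End F V) ^ k = 1 := by
      rw [← Units.val_pow_eq_pow_val, ← Units.val_pow_eq_pow_val, ← Units.val_mul, inv_pow,
        inv_mul_cancel, Units.val_one]
    rw [LinearMap.trace_mul_comm, ← mul_assoc, h2, one_mul]
  rw [Finset.sum_congr rfl h1, Finset.sum_const, Finset.card_range, nsmul_eq_mul,
    CharP.cast_eq_zero, zero_mul]

theorem source_dim {F : Type u} [Field F] [IsAlgClosed F] (p : ℕ) [Fact p.Prime] [CharP F p]
    {G : Type v} [Group G] [Finite G] {V : Type w} [AddCommGroup V] [Module F V]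
    [FiniteDimensional F V] (ρ : Representation F G V) (hρ : ρ.IsIrreducible) (Q : Subgroup G)
    (K : Subgroup (Module.End F V)ˣ) (T : (Module.End F V)ˣ) (hD : IsDat p K T)
    (R : Subgroup Q) (hR : R.index = p) (hRt : ∀ r ∈ R, ρ r = 1) (x : Q) (hx : x ∉ R)
    (hxT : ρ x = (T : Module.End F V)) (e : Module.End F V) (hee : e * e = e)
    (he : ∀ y : Q, e * ρ y = ρ y * e) (het : relTr ρ ρ Q e ≠ 0) :
    (Module.finrank F (LinearMap.range e) : F) = -1 := by
  have hTe : (T : Module.End F V) * e = e * T := by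
    rw [← hxT]
    exact (he x).symm
  obtain ⟨c, h, hdec⟩ := hD.dec e hTe
  set t : Module.End F V := ∑ k ∈ Finset.range p,
      (T : Module.End F V) ^ k * h * (↑T⁻¹ : Module.End F V) ^ k with ht
  have htt : LinearMap.trace F V t = 0 := XDM_cyc p T h
  have hte : t = e - c • (1 : Module.End F V) := by rw [hdec]; abel
  have htT : (T : Module.End F V) * t = t * T := by
    rw [hte, mul_sub, sub_mul, hTe, mul_smul_comm, smul_mul_assoc, mul_one, one_mul]
  have htTi : t * (↑T⁻¹ : Module.End F V) = (↑T⁻¹ : Module.End F V) * t := by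
    have h1 : Commute (T : Module.End F V) t := htT
    exact (h1.units_inv_left).symm
  have htTk : ∀ k : ℕ, (↑T⁻¹ : Module.End F V) ^ k * t = t * (↑T⁻¹ : Module.End F V) ^ k := by
    intro k
    have h1 : Commute (↑T⁻¹ : Module.End F V) t := htTi.symm
    exact h1.pow_left k
  have htt2 : LinearMap.trace F V (t * t) = 0 := by
    have h1 : t * t = ∑ k ∈ Finset.range p,
        (T : Module.End F V) ^ k * (h * t) * (↑T⁻¹ : Module.End F V) ^ k := by
      nth_rewrite 1 [ht]
      rw [Finset.sum_mul]
      apply Finset.sum_congr rfl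
      intro k _
      rw [mul_assoc, htTk, mul_assoc, mul_assoc, mul_assoc]
    rw [h1]
    exact XDM_cyc p T (h * t)
  have hdim : LinearMap.trace F V (1 : Module.End F V) = -1 := by
    rw [LinearMap.trace_one, hD.dim]
  -- the relative trace of `t` vanishes
  have hty : ∀ r ∈ Q, t ∘ₗ ρ r = ρ r ∘ₗ t := by
    intro r hr
    have h1 : t * ρ r = ρ r * t := by
      have h2 : e * ρ r = ρ r * e := he ⟨r, hr⟩
      rw [hte, sub_mul, mul_sub, h2, mul_smul_comm, smul_mul_assoc, mul_one, one_mul]
    exact h1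
  obtain ⟨s, hs⟩ := schur ρ hρ _ (relTr_eqv ρ ρ Q t hty)
  have hs0 : s = 0 := by
    have h1 := XDM_tr ρ Q t
    rw [htt, mul_zero, hs, map_smul] at h1
    have h2 : LinearMap.trace F V (LinearMap.id : V →ₗ[F] V) = -1 := hdim
    rw [h2, smul_eq_mul, mul_neg, mul_one, neg_eq_zero] at h1
    exact h1
  have hc0 : c ≠ 0 := by
    rintro rfl
    apply het
    rw [hdec, zero_smul, zero_add, hs, hs0, zero_smul]
  -- `c = 1`
  have hte1 : LinearMap.trace F V e = -c := by
    rw [hdec, map_add, map_smul, hdim, htt, add_zero, smul_eq_mul, mul_neg, mul_one]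
  have hte2 : LinearMap.trace F V (e * e) = -(c * c) := by
    have h1 : e * e = (c * c) • (1 : Module.End F V) + (2 * c) • t + t * t := by
      rw [hdec, add_mul, mul_add, mul_add, smul_mul_assoc, smul_mul_assoc, one_mul, one_mul,
        mul_smul_comm, mul_one, smul_smul, two_mul, add_smul]
      abel
    rw [h1, map_add, map_add, map_smul, map_smul, hdim, htt, htt2, smul_zero, add_zero, add_zero,
      smul_eq_mul, mul_neg, mul_one]
  rw [hee, hte1, neg_inj] at hte2
  have hc1 : c = 1 := by
    have h1 : c * (c - 1) = 0 := by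
      rw [mul_sub, mul_one, ← hte2, sub_self]
    rcases mul_eq_zero.1 h1 with h2 | h2
    · exact absurd h2 hc0
    · exact sub_eq_zero.1 h2
  have hproj : LinearMap.IsProj (LinearMap.range e) e :=
    ⟨fun a => ⟨a, rfl⟩, by
      rintro _ ⟨a, rfl⟩
      exact congrArg (fun g : Module.End F V => g a) hee⟩
  rw [← hproj.trace, hte1, hc1]

end Pool.Agent.KGS
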