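import Pool.Agent.KGS.XDefs

/-!
# KGS, row XGR: the group of the pairs
-/

open Representation

namespace Pool.Agent.KGS

open Pool.Agent.KFV

universe u v w

/-- the group of the pairs `(A, x)` with `A (χ x)⁻¹ ∈ K` -/
private def xgrG {M : Type w} [Group M] {P : Type v} [Group P] (K : Subgroup M) (χ : P →* M)
    (hn : ∀ x, ∀ U ∈ K, χ x * U * (χ x)⁻¹ ∈ K) : Subgroup (M × P) where
  carrier := {z | z.1 * (χ z.2)⁻¹ ∈ K}
  one_mem' := by
    show (1 : M) * (χ 1)⁻¹ ∈ K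
    rw [map_one, inv_one, mul_one]
    exact K.one_mem
  mul_mem' := by
    rintro ⟨A, x⟩ ⟨B, y⟩ hA hB
    change A * (χ x)⁻¹ ∈ K at hA
    change B * (χ y)⁻¹ ∈ K at hB
    show A * B * (χ (x * y))⁻¹ ∈ K
    have h1 := K.mul_mem hA (hn x _ hB)
    rw [map_mul]
    have h2 : A * B * (χ x * χ y)⁻¹ = A * (χ x)⁻¹ * (χ x * (B * (χ y)⁻¹) * (χ x)⁻¹) := by group
    rw [h2]
    exact h1
  inv_mem' := by
    rintro ⟨A, x⟩ hA
    change A * (χ x)⁻¹ ∈ K at hA
    show A⁻¹ * (χ x⁻¹)⁻¹ ∈ K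
    have h1 := hn x⁻¹ _ (K.inv_mem hA)
    rw [map_inv] at h1 ⊢
    have h2 : A⁻¹ * (χ x)⁻¹⁻¹ = (χ x)⁻¹ * (A * (χ x)⁻¹)⁻¹ * (χ x)⁻¹⁻¹ := by group
    rw [h2]
    exact h1

/-- the bijection with `K × P` -/
private def xgrEquiv {M : Type w} [Group M] {P : Type v} [Group P] (K : Subgroup M) (χ : P →* M)
    (hn : ∀ x, ∀ U ∈ K, χ x * U * (χ x)⁻¹ ∈ K) : xgrG K χ hn ≃ K × P where
  toFun z := (⟨z.1.1 * (χ z.1.2)⁻¹, z.2⟩, z.1.2)
  invFun w := ⟨(w.1.1 * χ w.2, w.2), by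
    show w.1.1 * χ w.2 * (χ w.2)⁻¹ ∈ K
    rw [mul_inv_cancel_right]
    exact w.1.2⟩
  left_inv := by
    rintro ⟨⟨A, x⟩, hA⟩
    apply Subtype.ext
    apply Prod.ext
    · show A * (χ x)⁻¹ * χ x = A
      rw [inv_mul_cancel_right]
    · rfl
  right_inv := by
    rintro ⟨⟨U, hU⟩, x⟩
    apply Prod.ext
    · apply Subtype.ext
      show U * χ x * (χ x)⁻¹ = U
      rw [mul_inv_cancel_right]
    · rfl

/-- the diagonal map -/
private def xgrDiag {M : Type w} [Group M] {P : Type v} [Group P] (K : Subgroup M) (χ : P →* M)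
    (hn : ∀ x, ∀ U ∈ K, χ x * U * (χ x)⁻¹ ∈ K) : P →* xgrG K χ hn where
  toFun x := ⟨(χ x, x), by
    show χ x * (χ x)⁻¹ ∈ K
    rw [mul_inv_cancel]
    exact K.one_mem⟩
  map_one' := by
    apply Subtype.ext
    apply Prod.ext
    · exact map_one χ
    · rfl
  map_mul' := by
    intro x y
    apply Subtype.ext
    apply Prod.ext
    · exact map_mul χ x y
    · rfl

/-- ROW XGR. -/
theorem exists_group {F : Type u} [Field F] {V : Type w} [AddCommGroup V] [Module F V]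
    {P : Type v} [Group P] [Finite P] (p : ℕ) [Fact p.Prime]
    (K : Subgroup (Module.End F V)ˣ) (hK : Finite K) (hc : (Nat.card K).Coprime p)
    (χ : P →* (Module.End F V)ˣ) (hn : ∀ x, ∀ U ∈ K, χ x * U * (χ x)⁻¹ ∈ K) :
    ∃ (G : Type (max w v)) (_ : Group G) (_ : Finite G) (ρ : Representation F G V)
      (Q : Subgroup G) (e : Q ≃* P), ¬ p ∣ Q.index ∧
      (∀ y : Q, ρ y = (χ (e y) : Module.End F V)) ∧
      ∀ U ∈ K, ∃ g, ρ g = (U : Module.End F V) := by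
  have hfin : Finite (xgrG K χ hn) := Finite.of_equiv _ (xgrEquiv K χ hn).symm
  have hinj : Function.Injective (xgrDiag K χ hn) := by
    intro x y hxy
    exact congrArg (fun z : xgrG K χ hn => z.1.2) hxy
  refine ⟨xgrG K χ hn, inferInstance, hfin,
    ((Units.coeHom (Module.End F V)).comp (MonoidHom.fst _ _)).comp (xgrG K χ hn).subtype,
    (xgrDiag K χ hn).range, (MonoidHom.ofInjective hinj).symm, ?_, ?_, ?_⟩
  · have h1 : Nat.card (xgrG K χ hn) = Nat.card K * Nat.card P := by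
      rw [Nat.card_congr (xgrEquiv K χ hn), Nat.card_prod]
    have h2 : Nat.card (xgrDiag K χ hn).range = Nat.card P :=
      (Nat.card_congr (MonoidHom.ofInjective hinj).toEquiv).symm
    have h3 := (xgrDiag K χ hn).range.index_mul_card
    rw [h1, h2] at h3
    have h4 : (xgrDiag K χ hn).range.index = Nat.card K :=
      Nat.eq_of_mul_eq_mul_right Nat.card_pos h3
    rw [h4]
    intro h5
    have hp : p.Prime := Fact.out
    exact (hp.coprime_iff_not_dvd.1 hc.symm) h5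
  · intro y
    obtain ⟨x, hx⟩ : ∃ x, MonoidHom.ofInjective hinj x = y :=
      (MonoidHom.ofInjective hinj).surjective y
    subst hx
    rw [MulEquiv.symm_apply_apply]
    rfl
  · intro U hU
    refine ⟨⟨(U, 1), ?_⟩, rfl⟩
    show U * (χ 1)⁻¹ ∈ K
    rw [map_one, inv_one, mul_one]
    exact hU

end Pool.Agent.KGS
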