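import Pool.Agent.KGS.XDefs

/-!
# KGS, row XTR: transport
-/

open Representation

namespace Pool.Agent.KGS

open Pool.Agent.KFV Pool.Agent.KFE

/-- A subgroup of index `p` is maximal. -/
theorem isCoatom_of_index {P : Type*} [Group P] [Finite P] (p : ℕ) [Fact p.Prime]
    (R : Subgroup P) (hR : R.index = p) : IsCoatom R := by
  have hp : p.Prime := Fact.out
  refine ⟨?_, ?_⟩
  · rintro rfl
    rw [Subgroup.index_top] at hR
    exact hp.one_lt.ne hR
  · intro M hM
    have h1 := Subgroup.relIndex_mul_index hM.le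
    rw [hR] at h1
    rcases (Nat.dvd_prime hp).1 (Dvd.intro_left _ h1) with h2 | h2
    · exact Subgroup.index_eq_one.1 h2
    · exfalso
      rw [h2] at h1
      have h3 : R.relIndex M = 1 := by
        have h4 : R.relIndex M * p = 1 * p := by rw [h1, one_mul]
        exact Nat.eq_of_mul_eq_mul_right hp.pos h4
      exact hM.not_ge (Subgroup.relIndex_eq_one.1 h3)

private theorem xtr_transport {F P P' V V' : Type*} [Field F] [Group P] [Group P']
    [AddCommGroup V] [Module F V] [AddCommGroup V'] [Module F V'] (σ : Representation F P V) (σ' : Representation F P' V')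
    (φ : P ≃* P') (e : V ≃ₗ[F] V') (he : ∀ p v, e (σ p v) = σ' (φ p) (e v)) (h : Indec σ) :
    Indec σ' := by
  obtain ⟨h1, h2⟩ := h
  refine ⟨e.symm.toEquiv.nontrivial, fun A' B' hAB => ?_⟩
  let pull : Subrepresentation σ' → Subrepresentation σ := fun C =>
    { toSubmodule := C.toSubmodule.comap e.toLinearMap
      apply_mem_toSubmodule := by
        intro g v hv
        rw [Submodule.mem_comap, LinearEquiv.coe_coe] at hv ⊢
        rw [he]
        exact C.apply_mem_toSubmodule (φ g) hv }
  have hpull : ∀ (C : Subrepresentation σ') v, v ∈ (pull C).toSubmodule ↔ e v ∈ C.toSubmodule :=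
    fun C v => Iff.rfl
  have hbot : ∀ C : Subrepresentation σ', pull C = ⊥ → C = ⊥ := by
    intro C hC
    apply Subrepresentation.toSubmodule_injective
    have h3 : (⊥ : Subrepresentation σ').toSubmodule = ⊥ := rfl
    rw [h3, eq_bot_iff]
    intro v hv
    have h4 : e.symm v ∈ (pull C).toSubmodule := by
      rw [hpull, e.apply_symm_apply]; exact hv
    rw [hC] at h4
    have h5 : e.symm v = 0 := (Submodule.mem_bot F).1 h4
    rw [Submodule.mem_bot]
    have h6 := congrArg e h5
    rwa [e.apply_symm_apply, map_zero] at h6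
  have hAB' : IsCompl (pull A') (pull B') := by
    have hd : A'.toSubmodule ⊓ B'.toSubmodule = ⊥ := by
      have := hAB.inf_eq_bot
      rw [← Subrepresentation.toSubmodule_inf, this]; rfl
    have hs : A'.toSubmodule ⊔ B'.toSubmodule = ⊤ := by
      have := hAB.sup_eq_top
      rw [← Subrepresentation.toSubmodule_sup, this]; rfl
    refine IsCompl.of_eq ?_ ?_
    · apply Subrepresentation.toSubmodule_injective
      rw [Subrepresentation.toSubmodule_inf]
      have h3 : (⊥ : Subrepresentation σ).toSubmodule = ⊥ := rfl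
      rw [h3, eq_bot_iff]
      rintro v ⟨hv1, hv2⟩
      have h4 : e v ∈ A'.toSubmodule ⊓ B'.toSubmodule := ⟨hv1, hv2⟩
      rw [hd, Submodule.mem_bot] at h4
      rw [Submodule.mem_bot]
      exact e.map_eq_zero_iff.1 h4
    · apply Subrepresentation.toSubmodule_injective
      rw [Subrepresentation.toSubmodule_sup]
      have h3 : (⊤ : Subrepresentation σ).toSubmodule = ⊤ := rfl
      rw [h3, eq_top_iff]
      intro v _
      have h4 : e v ∈ A'.toSubmodule ⊔ B'.toSubmodule := by rw [hs]; trivial
      obtain ⟨a, ha, b, hb, hab⟩ := Submodule.mem_sup.1 h4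
      refine Submodule.mem_sup.2 ⟨e.symm a, ?_, e.symm b, ?_, ?_⟩
      · rw [hpull, e.apply_symm_apply]; exact ha
      · rw [hpull, e.apply_symm_apply]; exact hb
      · rw [← map_add, hab, e.symm_apply_apply]
  rcases h2 _ _ hAB' with h3 | h3
  · exact Or.inl (hbot _ h3)
  · exact Or.inr (hbot _ h3)

private theorem xtr_indec {F : Type*} [Field F] {Q W W' : Type*} [Group Q]
    [AddCommGroup W] [Module F W] [AddCommGroup W'] [Module F W']
    (σ : Representation F Q W) (σ' : Representation F Q W') (e : σ.Equiv σ') (h : Indec σ) :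
    Indec σ' :=
  xtr_transport σ σ' (MulEquiv.refl Q) e.toLinearEquiv
    (fun g x => LinearMap.congr_fun (e.toIntertwiningMap.isIntertwining' g) x) h

/-- Vertex-source pairs only depend on the isomorphism class of the source. -/
theorem source_congr {F : Type*} [Field F] {G V W W' : Type*} [Group G] [Finite G]
    [AddCommGroup V] [Module F V] [AddCommGroup W] [Module F W] [AddCommGroup W'] [Module F W']
    (ρ : Representation F G V) (Q : Subgroup G) (σ : Representation F Q W)
    (σ' : Representation F Q W') (e : σ.Equiv σ') (h : IsVertexSource ρ Q σ) :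
    IsVertexSource ρ Q σ' := by
  refine ⟨h.vertex, xtr_indec σ σ' e h.indec, ?_⟩
  have hs := h.source
  rw [isSummand_ind_iff] at hs ⊢
  obtain ⟨α, β, hα, hβ, hαβ⟩ := hs
  have he : ∀ g, e.toLinearEquiv.toLinearMap ∘ₗ σ g = σ' g ∘ₗ e.toLinearEquiv.toLinearMap :=
    fun g => e.toIntertwiningMap.isIntertwining' g
  have he' : ∀ g, e.toLinearEquiv.symm.toLinearMap ∘ₗ σ' g =
      σ g ∘ₗ e.toLinearEquiv.symm.toLinearMap :=
    fun g => e.toLinearEquiv.isIntertwining_symm_isIntertwining he g
  refine ⟨α ∘ₗ e.toLinearEquiv.symm.toLinearMap, e.toLinearEquiv.toLinearMap ∘ₗ β, ?_, ?_, ?_⟩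
  · intro g
    rw [LinearMap.comp_assoc, he', ← LinearMap.comp_assoc, hα g, LinearMap.comp_assoc]
  · intro g
    rw [LinearMap.comp_assoc, hβ g, ← LinearMap.comp_assoc, he, LinearMap.comp_assoc]
  · rw [← hαβ]
    congr 1
    ext x
    show α (e.toLinearEquiv.symm (e.toLinearEquiv (β x))) = α (β x)
    rw [LinearEquiv.symm_apply_apply]

/-- `augRep` is compatible with isomorphisms of groups. -/
theorem augRep_congr {F : Type*} [Field F] {Q P : Type*} [Group Q] [Group P] (e : Q ≃* P)
    (R : Subgroup P) :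
    Nonempty ((augRep F (R.comap e.toMonoidHom)).Equiv
      ((augRep F R).comp e.toMonoidHom)) := by
  let φ : (Q ⧸ R.comap e.toMonoidHom) ≃ (P ⧸ R) := Quotient.congr e.toEquiv (by
    intro a b
    show QuotientGroup.leftRel _ a b ↔ QuotientGroup.leftRel _ (e a) (e b)
    rw [QuotientGroup.leftRel_apply, QuotientGroup.leftRel_apply, ← map_inv, ← map_mul]
    exact Iff.rfl)
  have hφ : ∀ (q : Q) (c : Q ⧸ R.comap e.toMonoidHom), φ (q • c) = e q • φ c := by
    rintro q ⟨c⟩
    exact congrArg (QuotientGroup.mk : P → P ⧸ R) (map_mul e q c)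
  let E : ((Q ⧸ R.comap e.toMonoidHom) →₀ F) ≃ₗ[F] ((P ⧸ R) →₀ F) := Finsupp.domLCongr φ
  have hE : ∀ f, E f = Finsupp.mapDomain φ f := by
    intro f
    ext c
    obtain ⟨c, rfl⟩ := φ.surjective c
    rw [Finsupp.mapDomain_apply φ.injective]
    show (Finsupp.domLCongr φ f : (P ⧸ R) →₀ F) (φ c) = f c
    rw [Finsupp.domLCongr_apply, Finsupp.domCongr_apply, Finsupp.equivMapDomain_apply,
      Equiv.symm_apply_apply]
  have hE' : ∀ f, f ∈ augSub F (R.comap e.toMonoidHom) ↔ E f ∈ augSub F R := by
    intro f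
    rw [augSub, augSub, LinearMap.mem_ker, LinearMap.mem_ker, hE,
      Finsupp.linearCombination_mapDomain]
    exact Iff.rfl
  have hmap : (augSub F (R.comap e.toMonoidHom)).map (E : _ →ₗ[F] _) = augSub F R := by
    ext y
    constructor
    · rintro ⟨f, hf, rfl⟩
      exact (hE' f).1 hf
    · intro hy
      refine ⟨E.symm y, ?_, E.apply_symm_apply y⟩
      rw [SetLike.mem_coe, hE', E.apply_symm_apply]
      exact hy
  refine ⟨Representation.Equiv.mk (LinearEquiv.ofSubmodules E _ _ hmap) ?_⟩
  intro q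
  ext1 f
  apply Subtype.ext
  show E (Finsupp.lmapDomain F F (fun c => q • c) (f : _ →₀ F)) =
    Finsupp.lmapDomain F F (fun c => e q • c) (E (f : _ →₀ F))
  rw [hE, hE, Finsupp.lmapDomain_apply, Finsupp.lmapDomain_apply, ← Finsupp.mapDomain_comp,
    ← Finsupp.mapDomain_comp]
  congr 1
  funext c
  exact hφ q c

end Pool.Agent.KGS
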