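import Pool.Agent.KGS.XDefs

/-!
# KGS (MP_1993d0_al): a vertex-source pair of an irreducible representation
-/

open Representation

namespace Pool.Agent.KGS

open Pool.Agent.KFV Pool.Agent.KFE

universe u v w

private theorem xvs_trace {F : Type*} [Field F] {G : Type*} [Group G] [Finite G] {V : Type*}
    [AddCommGroup V] [Module F V] (ρ : Representation F G V) (R : Subgroup G) (θ : V →ₗ[F] V) :
    LinearMap.trace F V (relTr ρ ρ R θ) = (R.index : F) * LinearMap.trace F V θ := by
  classical
  have : Fintype (G ⧸ R) := Fintype.ofFinite _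
  have h : ∀ x : G ⧸ R, LinearMap.trace F V (ρ x.out ∘ₗ θ ∘ₗ ρ x.out⁻¹)
      = LinearMap.trace F V θ := by
    intro x
    have h1 : (θ * ρ x.out⁻¹ : Module.End F V) * ρ x.out = θ := by
      rw [mul_assoc, ← map_mul, inv_mul_cancel, map_one, mul_one]
    have h2 := LinearMap.trace_mul_comm F (ρ x.out : Module.End F V) (θ * ρ x.out⁻¹)
    rw [h1] at h2
    exact h2
  unfold relTr
  rw [finsum_eq_sum_of_fintype, map_sum, Finset.sum_congr rfl (fun x _ => h x), Finset.sum_const,
    Finset.card_univ, nsmul_eq_mul, Subgroup.index, Nat.card_eq_fintype_card]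

private theorem xvs_id {F : Type*} [Field F] {G : Type*} [Group G] [Finite G] {V : Type*}
    [AddCommGroup V] [Module F V] (ρ : Representation F G V) (R : Subgroup G) :
    relTr ρ ρ R (LinearMap.id : V →ₗ[F] V) = (R.index : F) • LinearMap.id := by
  classical
  have : Fintype (G ⧸ R) := Fintype.ofFinite _
  have h : ∀ x : G ⧸ R, ρ x.out ∘ₗ (LinearMap.id : V →ₗ[F] V) ∘ₗ ρ x.out⁻¹ = LinearMap.id := by
    intro x
    have h2 : ρ x.out * ρ x.out⁻¹ = 1 := by rw [← map_mul, mul_inv_cancel, map_one]
    exact h2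
  unfold relTr
  rw [finsum_eq_sum_of_fintype, Finset.sum_congr rfl (fun x _ => h x), Finset.sum_const,
    Finset.card_univ, ← Nat.cast_smul_eq_nsmul F, Subgroup.index, Nat.card_eq_fintype_card]

private theorem xvs_zero {F : Type*} [Field F] {G : Type*} [Group G] [Finite G] {V : Type*}
    [AddCommGroup V] [Module F V] (ρ : Representation F G V) (R : Subgroup G) :
    relTr ρ ρ R (0 : V →ₗ[F] V) = 0 := by
  have h := relTr_smul ρ ρ R (0 : F) (0 : V →ₗ[F] V)
  rw [zero_smul, zero_smul] at h
  exact h

/-- splitting an idempotent -/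
private theorem xvs_split {F : Type*} [Field F] {P : Type*} [Group P] {V : Type*}
    [AddCommGroup V] [Module F V] (τ : P → Module.End F V) (e : Module.End F V)
    (hee : e * e = e) (he : ∀ y, e * τ y = τ y * e)
    (σ : Representation F P (LinearMap.range e)) (hσ : ∀ y a, (σ y a : V) = τ y a)
    (A B : Subrepresentation σ) (h : IsCompl A.toSubmodule B.toSubmodule) :
    ∃ e₁ : Module.End F V, e₁ * e₁ = e₁ ∧ (∀ y, e₁ * τ y = τ y * e₁) ∧
      LinearMap.range e₁ ≤ A.toSubmodule.map (LinearMap.range e).subtype ∧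
      ∀ v, e₁ v = (A.toSubmodule.projection B.toSubmodule h (e.rangeRestrict v) : V) := by
  have hr : ∀ w : LinearMap.range e, e.rangeRestrict (w : V) = w := by
    rintro ⟨w, z, rfl⟩
    apply Subtype.ext
    exact LinearMap.congr_fun hee z
  have hr2 : ∀ y v, e.rangeRestrict (τ y v) = σ y (e.rangeRestrict v) := by
    intro y v
    apply Subtype.ext
    rw [hσ]
    exact LinearMap.congr_fun (he y) v
  have hpr : ∀ y w, A.toSubmodule.projection B.toSubmodule h (σ y w)
      = σ y (A.toSubmodule.projection B.toSubmodule h w) := by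
    intro y w
    have h1 := Submodule.projection_add_projection_eq_self h w
    have h2 : A.toSubmodule.projection B.toSubmodule h w ∈ A.toSubmodule :=
      Submodule.projection_apply_mem h w
    have h3 : B.toSubmodule.projection A.toSubmodule h.symm w ∈ B.toSubmodule :=
      Submodule.projection_apply_mem h.symm w
    conv_lhs => rw [← h1]
    rw [map_add, map_add,
      Submodule.projection_apply_of_mem_left h (A.apply_mem_toSubmodule y h2),
      Submodule.projection_apply_of_mem_right h (B.apply_mem_toSubmodule y h3), add_zero]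
  refine ⟨(LinearMap.range e).subtype ∘ₗ (A.toSubmodule.projection B.toSubmodule h) ∘ₗ
    e.rangeRestrict, ?_, ?_, ?_, fun v => rfl⟩
  · apply LinearMap.ext
    intro v
    change ((A.toSubmodule.projection B.toSubmodule h (e.rangeRestrict
      ((A.toSubmodule.projection B.toSubmodule h (e.rangeRestrict v) : LinearMap.range e) : V)) :
      LinearMap.range e) : V) = _
    rw [hr, Submodule.projection_apply_of_mem_left h (Submodule.projection_apply_mem h _)]
    rfl
  · intro y
    apply LinearMap.ext
    intro v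
    change ((A.toSubmodule.projection B.toSubmodule h (e.rangeRestrict (τ y v)) :
      LinearMap.range e) : V) = τ y
      ((A.toSubmodule.projection B.toSubmodule h (e.rangeRestrict v) : LinearMap.range e) : V)
    rw [hr2, hpr, hσ]
  · rintro _ ⟨v, rfl⟩
    exact ⟨A.toSubmodule.projection B.toSubmodule h (e.rangeRestrict v),
      Submodule.projection_apply_mem h _, rfl⟩

theorem exists_source {F : Type u} [Field F] [IsAlgClosed F] (p : ℕ) [Fact p.Prime] [CharP F p]
    {G : Type v} [Group G] [Finite G] {V : Type w} [AddCommGroup V] [Module F V]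
    [FiniteDimensional F V] (ρ : Representation F G V) (hρ : ρ.IsIrreducible) (Q : Subgroup G)
    (hQ : IsPGroup p Q) (hQi : ¬ p ∣ Q.index) (hV : (Module.finrank F V : F) ≠ 0) :
    ∃ (e : Module.End F V) (σ : Representation F Q (LinearMap.range e)), e * e = e ∧
      (∀ y : Q, e * ρ y = ρ y * e) ∧ (∀ y a, (σ y a : V) = ρ y a) ∧ relTr ρ ρ Q e ≠ 0 ∧
      IsVertexSource ρ Q σ := by
  classical
  have hp : p.Prime := Fact.out
  have hQF : (Q.index : F) ≠ 0 := by
    rw [Ne, CharP.cast_eq_zero_iff F p]
    exact hQi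
  have hidne : (LinearMap.id : V →ₗ[F] V) ≠ 0 := by
    intro h
    apply hV
    have h1 := LinearMap.trace_id F V
    rw [h, map_zero] at h1
    exact h1.symm
  have hS : ∃ n, ∃ e : Module.End F V, e * e = e ∧ (∀ y : Q, e * ρ y = ρ y * e) ∧
      relTr ρ ρ Q e ≠ 0 ∧ Module.finrank F (LinearMap.range e) = n := by
    refine ⟨_, 1, one_mul 1, fun y => by rw [one_mul, mul_one], ?_, rfl⟩
    change relTr ρ ρ Q (LinearMap.id : V →ₗ[F] V) ≠ 0
    rw [xvs_id]
    exact smul_ne_zero hQF hidne
  obtain ⟨e, he1, he2, he3, he4⟩ := Nat.find_spec hS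
  have hmin : ∀ e' : Module.End F V, e' * e' = e' → (∀ y : Q, e' * ρ y = ρ y * e') →
      relTr ρ ρ Q e' ≠ 0 →
      Module.finrank F (LinearMap.range e) ≤ Module.finrank F (LinearMap.range e') := by
    intro e' h1 h2 h3
    rw [he4]
    exact Nat.find_min' hS ⟨e', h1, h2, h3, rfl⟩
  have hst : ∀ (y : Q) (a : V), a ∈ LinearMap.range e → ρ y a ∈ LinearMap.range e := by
    rintro y _ ⟨b, rfl⟩
    exact ⟨ρ y b, LinearMap.congr_fun (he2 y) b⟩
  let σ : Representation F Q (LinearMap.range e) :=
    { toFun := fun y => (ρ y).restrict (hst y)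
      map_one' := by
        apply LinearMap.ext
        intro a
        apply Subtype.ext
        change ρ ((1 : Q) : G) (a : V) = a
        rw [Subgroup.coe_one, map_one]
        rfl
      map_mul' := by
        intro y z
        apply LinearMap.ext
        intro a
        apply Subtype.ext
        change ρ ((y * z : Q) : G) (a : V) = ρ y (ρ z (a : V))
        rw [Subgroup.coe_mul, map_mul]
        rfl }
  have hσ : ∀ (y : Q) (a : LinearMap.range e), (σ y a : V) = ρ y a := fun y a => rfl
  refine ⟨e, σ, he1, he2, hσ, he3, ⟨?_, ?_⟩, ⟨?_, ?_⟩, ?_⟩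
  · unfold RelProj
    rw [isSummand_ind_iff]
    refine ⟨((Q.index : F)⁻¹) • LinearMap.id, LinearMap.id, ?_, fun q => rfl, ?_⟩
    · intro q
      rw [LinearMap.smul_comp, LinearMap.comp_smul]
      rfl
    · rw [LinearMap.comp_id, relTr_smul, xvs_id, smul_smul, inv_mul_cancel₀ hQF, one_smul]
  · intro R hR hRQ
    unfold RelProj at hR
    rw [isSummand_ind_iff] at hR
    obtain ⟨α, β, _, _, h⟩ := hR
    have h1 := xvs_trace ρ R (α ∘ₗ β)
    rw [h, LinearMap.trace_id] at h1
    have h2 : (R.index : F) ≠ 0 := by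
      intro h3
      rw [h3, zero_mul] at h1
      exact hV h1
    have h3 : ¬ p ∣ R.index := by
      rwa [Ne, CharP.cast_eq_zero_iff F p] at h2
    have h4 := Subgroup.relIndex_mul_index hRQ
    obtain ⟨n, hn⟩ := hQ.index (R.subgroupOf Q)
    have h5 : R.relIndex Q = p ^ n := hn
    rcases Nat.eq_zero_or_pos n with h0 | h0
    · rw [h0, pow_zero] at h5
      exact Subgroup.relIndex_eq_one.1 h5
    · exfalso
      apply h3
      rw [← h4, h5]
      exact Dvd.dvd.mul_right (dvd_pow_self p h0.ne') _
  · by_contra hcon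
    rw [not_nontrivial_iff_subsingleton] at hcon
    apply he3
    have h0 : e = 0 := by
      apply LinearMap.ext
      intro v
      have h1 : (⟨e v, v, rfl⟩ : LinearMap.range e) = 0 := Subsingleton.elim _ _
      exact congrArg Subtype.val h1
    rw [h0]
    exact xvs_zero ρ Q
  · intro A B hAB
    have hAB' : IsCompl A.toSubmodule B.toSubmodule := by
      refine ⟨?_, ?_⟩
      · rw [disjoint_iff, ← Subrepresentation.toSubmodule_inf, disjoint_iff.1 hAB.disjoint]
        rfl
      · rw [codisjoint_iff, ← Subrepresentation.toSubmodule_sup, codisjoint_iff.1 hAB.codisjoint]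
        rfl
    obtain ⟨e₁, a1, a2, a3, a4⟩ := xvs_split (fun y : Q => ρ y) e he1 he2 σ hσ A B hAB'
    obtain ⟨e₂, b1, b2, b3, b4⟩ := xvs_split (fun y : Q => ρ y) e he1 he2 σ hσ B A hAB'.symm
    have hsum : e₁ + e₂ = e := by
      apply LinearMap.ext
      intro v
      rw [LinearMap.add_apply, a4, b4, ← Submodule.coe_add,
        Submodule.projection_add_projection_eq_self]
      rfl
    have hor : relTr ρ ρ Q e₁ ≠ 0 ∨ relTr ρ ρ Q e₂ ≠ 0 := by
      by_contra hcon
      push Not at hcon
      apply he3
      rw [← hsum, relTr_add, hcon.1, hcon.2, add_zero]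
    have key : ∀ (C D : Subrepresentation σ) (e' : Module.End F V),
        IsCompl C.toSubmodule D.toSubmodule → e' * e' = e' → (∀ y : Q, e' * ρ y = ρ y * e') →
        LinearMap.range e' ≤ C.toSubmodule.map (LinearMap.range e).subtype →
        relTr ρ ρ Q e' ≠ 0 → D = ⊥ := by
      intro C D e' hCD c1 c2 c3 c4
      have h1 := hmin e' c1 c2 c4
      have h2 : Module.finrank F (LinearMap.range e') ≤ Module.finrank F C.toSubmodule :=
        (Submodule.finrank_mono c3).trans (Submodule.finrank_map_le _ _)
      have h3 : C.toSubmodule = ⊤ :=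
        Submodule.eq_top_of_finrank_eq (le_antisymm (Submodule.finrank_le _) (h1.trans h2))
      apply Subrepresentation.toSubmodule_injective
      have h4 := hCD.disjoint
      rw [h3, top_disjoint] at h4
      exact h4
    rcases hor with h | h
    · right
      exact key A B e₁ hAB' a1 a2 a3 h
    · left
      exact key B A e₂ hAB'.symm b1 b2 b3 h
  · rw [isSummand_ind_iff]
    have heq : ∀ r ∈ Q, (e : V →ₗ[F] V) ∘ₗ ρ r = ρ r ∘ₗ e := fun r hr => he2 ⟨r, hr⟩
    obtain ⟨c, hc⟩ := schur ρ hρ _ (relTr_eqv ρ ρ Q e heq)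
    have hc0 : c ≠ 0 := by
      intro h0
      apply he3
      rw [hc, h0, zero_smul]
    refine ⟨c⁻¹ • (LinearMap.range e).subtype, e.rangeRestrict, ?_, ?_, ?_⟩
    · intro q
      apply LinearMap.ext
      intro a
      change c⁻¹ • (σ q a : V) = ρ q (c⁻¹ • (a : V))
      rw [map_smul, hσ]
    · intro q
      apply LinearMap.ext
      intro v
      apply Subtype.ext
      exact LinearMap.congr_fun (he2 q) v
    · have h1 : (c⁻¹ • (LinearMap.range e).subtype) ∘ₗ e.rangeRestrict = c⁻¹ • e := rfl
      rw [h1, relTr_smul, hc, smul_smul, inv_mul_cancel₀ hc0, one_smul]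

end Pool.Agent.KGS
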