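import Pool.Agent.KGS.Xda
import Pool.Agent.KGS.Xch
import Pool.Agent.KGS.Xgr
import Pool.Agent.KGS.Xvs
import Pool.Agent.KGS.Xdm
import Pool.Agent.KGS.Xcd
import Pool.Agent.KGS.Xtr
import Pool.Agent.KGS.Iso

/-!
# KGS: the modules `augRep F R` are sources (assembly)
-/

open Representation

namespace Pool.Agent.KGS

open Pool.Agent.KFV Pool.Agent.KFE

universe u v w

theorem irr_of {F V G : Type*} [Field F] [AddCommGroup V] [Module F V] [Group G] [Nontrivial V]
    (K : Subgroup (Module.End F V)ˣ) (ρ : Representation F G V)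
    (hU : ∀ U ∈ K, ∃ g, ρ g = (U : Module.End F V))
    (hirr : ∀ A : Submodule F V, (∀ U ∈ K, ∀ a ∈ A, (U : Module.End F V) a ∈ A) → A = ⊥ ∨ A = ⊤) :
    ρ.IsIrreducible := by
  have hne : (⊥ : Subrepresentation ρ) ≠ ⊤ := by
    intro h
    have h1 : (⊥ : Submodule F V) = ⊤ := congrArg Subrepresentation.toSubmodule h
    exact bot_ne_top h1
  refine { exists_pair_ne := ⟨⊥, ⊤, hne⟩, eq_bot_or_eq_top := fun A => ?_ }
  rcases hirr A.toSubmodule (fun U hU' a ha => by
    obtain ⟨g, hg⟩ := hU U hU'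
    rw [← hg]
    exact A.apply_mem_toSubmodule g ha) with h | h
  · exact Or.inl (Subrepresentation.toSubmodule_injective h)
  · exact Or.inr (Subrepresentation.toSubmodule_injective h)

/-- Every `augRep F R`, `R` of index `p` in the `p`-group `P`, is the source of a simple module with
vertex isomorphic to `P`. -/
theorem augRep_occurs (F : Type u) [Field F] [IsAlgClosed F] (p : ℕ) [Fact p.Prime] [CharP F p]
    (P : Type v) [Group P] [Finite P] (hP : IsPGroup p P) (R : Subgroup P) (hR : R.index = p) :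
    ∃ (G : Type (max u v)) (_ : Group G) (_ : Finite G) (V : Type u) (_ : AddCommGroup V)
      (_ : Module F V) (_ : FiniteDimensional F V) (ρ : Representation F G V) (Q : Subgroup G)
      (e : Q ≃* P), ρ.IsIrreducible ∧
      IsVertexSource (W := augSub F R) ρ Q ((augRep F R).comp e.toMonoidHom) := by
  obtain ⟨V, _, _, _, K, T, hD⟩ := exists_dat F p
  obtain ⟨χ, hχR, ⟨x, hx, hxT⟩, hχk⟩ := exists_chi p hP R hR T hD.pow
  have hn : ∀ y, ∀ U ∈ K, χ y * U * (χ y)⁻¹ ∈ K := by
    intro y
    obtain ⟨k, hk⟩ := hχk y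
    rw [hk]
    clear hk
    induction k with
    | zero => intro U hU; simpa using hU
    | succ k ih =>
      intro U hU
      have h1 := hD.nor _ (ih U hU)
      have h2 : T ^ (k + 1) * U * (T ^ (k + 1))⁻¹ = T * (T ^ k * U * (T ^ k)⁻¹) * T⁻¹ := by
        rw [pow_succ']; group
      rwa [h2]
  obtain ⟨G, _, _, ρ, Q, e, hQi, hρ, hU⟩ := exists_group p K hD.fin hD.cop χ hn
  have hnt : Nontrivial V := by
    by_contra h
    rw [not_nontrivial_iff_subsingleton] at h
    have h1 := hD.dim
    rw [Module.finrank_zero_of_subsingleton, Nat.cast_zero] at h1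
    exact one_ne_zero (neg_eq_zero.1 h1.symm)
  have hirr : ρ.IsIrreducible := irr_of K ρ hU hD.irr
  have hQ : IsPGroup p Q := hP.of_equiv e.symm
  have hV : (Module.finrank F V : F) ≠ 0 := by
    rw [hD.dim]
    exact neg_ne_zero.2 one_ne_zero
  obtain ⟨ε, σ, hee, he, hσ, het, hvs⟩ := exists_source p ρ hirr Q hQ hQi hV
  have hR' : (R.comap e.toMonoidHom).index = p := by
    rw [Subgroup.index_comap_of_surjective _ e.surjective, hR]
  have hRt : ∀ r ∈ R.comap e.toMonoidHom, ρ r = 1 := by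
    intro r hr
    have h1 : χ (e r) = 1 := hχR _ hr
    rw [hρ r, h1]
    rfl
  have hx' : e.symm x ∉ R.comap e.toMonoidHom := by
    intro h
    apply hx
    have h1 : e (e.symm x) ∈ R := h
    rwa [e.apply_symm_apply] at h1
  have hd := source_dim p ρ hirr Q K T hD _ hR' hRt (e.symm x) hx'
    (by rw [hρ, e.apply_symm_apply, hxT]) ε hee he het
  have hRt' : ∀ r ∈ R.comap e.toMonoidHom, ∀ a, σ r a = a := by
    intro r hr a
    apply Subtype.ext
    rw [hσ, hRt r hr]
    rfl
  obtain ⟨h1, h2⟩ := indec_cyclic p hQ σ hvs.indec _ hR' hRt' _ hx'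
  have hp : p.Prime := Fact.out
  have h3 : Module.finrank F (LinearMap.range ε) + 1 = p := by
    have h4 : ((Module.finrank F (LinearMap.range ε) + 1 : ℕ) : F) = 0 := by
      rw [Nat.cast_add, Nat.cast_one, hd]
      ring
    rw [CharP.cast_eq_zero_iff F p] at h4
    have h5 := Nat.le_of_dvd (Nat.succ_pos _) h4
    rcases Nat.eq_or_lt_of_le h1 with h6 | h6
    · rw [h6] at h4
      have h7 := (Nat.dvd_add_right (dvd_refl p)).1 h4
      exact absurd (Nat.dvd_one.1 h7) hp.one_lt.ne'
    · omega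
  have h4 : (σ (e.symm x) - 1 : Module.End F (LinearMap.range ε)) ^ (p - 2) ≠ 0 := by
    have : p - 2 = Module.finrank F (LinearMap.range ε) - 1 := by omega
    rw [this]
    exact h2
  obtain ⟨φ⟩ := iso_augRep p hQ σ h3 _ (isCoatom_of_index p _ hR') hRt' _ hx' h4
  obtain ⟨φ'⟩ := augRep_congr (F := F) e R
  exact ⟨G, inferInstance, inferInstance, V, inferInstance, inferInstance, inferInstance, ρ, Q, e,
    hirr, source_congr (W' := augSub F R) ρ Q (augRep F (R.comap e.toMonoidHom)) _ φ'
      (source_congr (W' := augSub F (R.comap e.toMonoidHom)) ρ Q σ _ φ hvs)⟩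

end Pool.Agent.KGS
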