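import Pool.Agent.KGS.Sml
import Pool.Agent.KGS.Xfi
import Pool.Agent.KGS.Ker

/-!
# KGS: the notions of the final statement
-/

open Representation

namespace Pool.Agent.KGS

open Pool.Agent.KFV Pool.Agent.KFE

universe u v w x z

/-- `(Q, σ)` is the vertex-source pair of some simple module of `G`. -/
def IsSrc {F : Type u} [Field F] {G : Type v} [Group G] {L : Type z} [AddCommGroup L]
    [Module F L] (Q : Subgroup G) (σ : Representation F Q L) : Prop :=
  ∃ (V : Type w) (_ : AddCommGroup V) (_ : Module F V) (_ : FiniteDimensional F V)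
    (ρ : Representation F G V), ρ.IsIrreducible ∧ IsVertexSource ρ Q σ

/-- Some element of the normaliser of `Q`, none of whose `p`-power powers is in `Q C(Q)`, fixes the
isomorphism type of `σ`. -/
def Exc {F : Type u} [Field F] {G : Type v} [Group G] {L : Type z} [AddCommGroup L]
    [Module F L] (p : ℕ) (Q : Subgroup G) (σ : Representation F Q L) : Prop :=
  ∃ g ∈ Subgroup.normalizer (Q : Set G),
    (∃ θ : L →ₗ[F] L, Function.Bijective θ ∧
      ∀ q q' : Q, (q' : G) = g * q * g⁻¹ → θ ∘ₗ σ q = σ q' ∘ₗ θ) ∧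
    ∀ k : ℕ, g ^ (p ^ k) ∉ Q ⊔ Subgroup.centralizer (Q : Set G)

/-- Every endomorphism is a scalar up to relative traces from proper subgroups. -/
def LocEnd {F : Type u} [Field F] {P : Type v} [Group P] {L : Type z} [AddCommGroup L]
    [Module F L] (σ : Representation F P L) : Prop :=
  ∀ θ : L →ₗ[F] L, Eqv σ σ θ → ∃ c : F, θ - c • LinearMap.id ∈ trI σ σ

/-- The trivial one-dimensional module. -/
def IsTriv {F : Type u} [Field F] {P : Type v} [Group P] {L : Type z} [AddCommGroup L]
    [Module F L] (σ : Representation F P L) : Prop :=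
  Module.finrank F L = 1 ∧ ∀ q x, σ q x = x

/-- Every automorphism of `P` has an inner `p ^ k`-th power. -/
def OutP (p : ℕ) (P : Type v) [Group P] : Prop :=
  ∀ φ : MulAut P, ∃ k : ℕ, φ ^ (p ^ k) ∈ (MulAut.conj : P →* MulAut P).range

/-- `(P, τ)` is equivalent to the vertex-source pair of a simple module of a finite group. -/
def Occ {F : Type u} [Field F] {P : Type v} [Group P] {L : Type z} [AddCommGroup L]
    [Module F L] (τ : Representation F P L) : Prop :=
  ∃ (G : Type x) (_ : Group G) (_ : Finite G) (Q : Subgroup G) (e : Q ≃* P),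
    IsSrc.{u, x, u, z} (L := L) Q (τ.comp e.toMonoidHom)

theorem src_class (F : Type u) [Field F] [IsAlgClosed F] (p : ℕ) [Fact p.Prime] [CharP F p]
    (G : Type v) [Group G] [Finite G] (Q : Subgroup G) (L : Type z) [AddCommGroup L] [Module F L]
    [FiniteDimensional F L] (σ : Representation F Q L) (h : IsSrc.{u, v, w, z} Q σ) :
    Exc p Q σ ∨ (LocEnd σ ∧ (Module.finrank F L < p → IsTriv σ ∨
      ∃ R : Subgroup Q, R.index = p ∧ Nonempty (σ.Equiv (augRep F R)))) := by
  obtain ⟨V, _, _, _, ρ, hρ, h⟩ := h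
  by_cases hE : Pool.Agent.KFE.PStab p Q σ
  · refine Or.inr ⟨fun θ hθ => Pool.Agent.KFE.local_end_stab p ρ hρ Q σ h hE θ hθ, fun hd => ?_⟩
    exact small_class p (Pool.Agent.KFE.vertex_isPGroup p ρ Q h.vertex) σ hd h.indec
      (fun θ hθ => Pool.Agent.KFE.local_end_stab p ρ hρ Q σ h hE θ hθ)
  · left
    unfold Pool.Agent.KFE.PStab at hE
    push Not at hE
    obtain ⟨g, ⟨hg, θ, hθ, hθ'⟩, hk⟩ := hE
    exact ⟨g, hg, ⟨θ, hθ, hθ'⟩, hk⟩

theorem src_class_out (F : Type u) [Field F] [IsAlgClosed F] (p : ℕ) [Fact p.Prime] [CharP F p]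
    (P : Type v) [Group P] [Finite P] (hA : OutP p P)
    (G : Type v) [Group G] [Finite G] (Q : Subgroup G) (L : Type z) [AddCommGroup L] [Module F L]
    [FiniteDimensional F L] (σ : Representation F Q L) (h : IsSrc.{u, v, w, z} Q σ)
    (he : Nonempty (Q ≃* P)) (hd : Module.finrank F L < p) : IsTriv σ ∨
      ∃ R : Subgroup P, R.index = p ∧ PairEquiv (W := augSub F R) σ (augRep F R) := by
  obtain ⟨V, _, _, _, ρ, hρ, h⟩ := h
  obtain ⟨e⟩ := he
  have hE : Pool.Agent.KFE.PStab p Q σ :=
    Pool.Agent.KFE.pstab_of_aut p Q σ (fun φ _ => Pool.Agent.KFE.aut_transport p e hA φ)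
  rcases small_class p (Pool.Agent.KFE.vertex_isPGroup p ρ Q h.vertex) σ hd h.indec
    (fun θ hθ => Pool.Agent.KFE.local_end_stab p ρ hρ Q σ h hE θ hθ) with h1 | h1
  · exact Or.inl h1
  · right
    obtain ⟨R', hR', ⟨E⟩⟩ := h1
    obtain ⟨R, rfl⟩ : ∃ R : Subgroup P, R' = R.comap e.toMonoidHom := by
      refine ⟨R'.comap e.symm.toMonoidHom, ?_⟩
      ext x
      show _ ↔ e.symm (e x) ∈ R'
      rw [e.symm_apply_apply]
    have hR : R.index = p := by
      rw [← hR', Subgroup.index_comap_of_surjective _ e.surjective]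
    obtain ⟨E'⟩ := augRep_congr (F := F) e R
    exact ⟨R, hR, e, ⟨E.trans E'⟩⟩

theorem occ_trivial (F : Type u) [Field F] (p : ℕ) [Fact p.Prime] [CharP F p]
    (P : Type v) [Group P] [Finite P] (hP : IsPGroup p P) :
    Occ.{u, v, v, u} (Representation.trivial F P F) := by
  obtain ⟨h1, h2⟩ := Pool.Agent.KFE.trivial_vertexSource (F := F) p P hP
  exact ⟨P, inferInstance, inferInstance, ⊤, Subgroup.topEquiv, F, inferInstance, inferInstance,
    inferInstance, Representation.trivial F P F, h1, h2⟩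

theorem occ_augRep (F : Type u) [Field F] [IsAlgClosed F] (p : ℕ) [Fact p.Prime] [CharP F p]
    (P : Type v) [Group P] [Finite P] (hP : IsPGroup p P) (R : Subgroup P) (hR : R.index = p) :
    Occ.{u, v, max u v, max u v} (L := augSub F R) (augRep F R) := by
  obtain ⟨G, _, _, V, _, _, _, ρ, Q, e, h1, h2⟩ := augRep_occurs F p P hP R hR
  exact ⟨G, inferInstance, inferInstance, Q, e, V, inferInstance, inferInstance, inferInstance, ρ,
    h1, h2⟩

end Pool.Agent.KGS
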