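import Pool.Agent.KGS.Defs

/-!
# KGS (MP_1993d0_al): the sources of dimension `p - 1` occur. Definitions
-/

open Representation

namespace Pool.Agent.KGS

open Pool.Agent.KFV

section

variable {F : Type*} [Field F] {q : ℕ}

/-- The symplectic form of the plane. -/
def sy (v w : Fin 2 → ZMod q) : ZMod q := v 0 * w 1 - v 1 * w 0

/-- The Weyl operators on the functions on `ZMod q`. -/
def wey (ψ : AddChar (ZMod q) F) (v : Fin 2 → ZMod q) : Module.End F (ZMod q → F) where
  toFun f t := ψ (v 1 * t + 2⁻¹ * (v 0 * v 1)) * f (t + v 0)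
  map_add' := by
    intro f g
    ext t
    simp [mul_add]
  map_smul' := by
    intro c f
    ext t
    simp [mul_left_comm]

end

/-- A finite group `K` of linear maps, of order prime to `p`, irreducible, and a linear map `T` with
`T ^ p = 1` which normalises `K`; the dimension is `-1` modulo `p` and every map which commutes with
`T` is a scalar plus a trace. -/
structure IsDat {F V : Type*} [Field F] [AddCommGroup V] [Module F V] (p : ℕ)
    (K : Subgroup (Module.End F V)ˣ) (T : (Module.End F V)ˣ) : Prop where
  fin : Finite K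
  cop : (Nat.card K).Coprime p
  pow : T ^ p = 1
  nor : ∀ U ∈ K, T * U * T⁻¹ ∈ K
  irr : ∀ A : Submodule F V, (∀ U ∈ K, ∀ a ∈ A, (U : Module.End F V) a ∈ A) → A = ⊥ ∨ A = ⊤
  dim : (Module.finrank F V : F) = -1
  dec : ∀ f : Module.End F V, (T : Module.End F V) * f = f * T → ∃ (c : F) (h : Module.End F V),
    f = c • (1 : Module.End F V) + ∑ k ∈ Finset.range p,
      (T : Module.End F V) ^ k * h * (↑T⁻¹ : Module.End F V) ^ k

end Pool.Agent.KGS
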