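import Pool.Agent.KGS.XDefs

/-!
# KGS: the Weyl operators are a basis
-/

namespace Pool.Agent.KGS

open Pool.Agent.KFV

private theorem xwb_key {F : Type*} [Field F] {q : ℕ} [Fact q.Prime] (ψ : AddChar (ZMod q) F)
    (g : (Fin 2 → ZMod q) → F) (hg : ∑ v, g v • wey ψ v = 0) (a t : ZMod q) :
    ∑ b : ZMod q, g ![a, b] * ψ (b * t + 2⁻¹ * (a * b)) = 0 := by
  classical
  have h1 : (∑ v : Fin 2 → ZMod q, g v • wey ψ v) (Pi.single (t + a) 1) t = 0 := by
    rw [hg]
    rfl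
  have h2 : (∑ v : Fin 2 → ZMod q, g v • wey ψ v) (Pi.single (t + a) 1) t
      = ∑ v : Fin 2 → ZMod q, g v * (ψ (v 1 * t + 2⁻¹ * (v 0 * v 1)) *
        (Pi.single (t + a) (1 : F) : ZMod q → F) (t + v 0)) := by
    rw [LinearMap.sum_apply, Finset.sum_apply]
    rfl
  rw [h2] at h1
  rw [← (finTwoArrowEquiv (ZMod q)).symm.sum_comp] at h1
  rw [Fintype.sum_prod_type] at h1
  rw [Finset.sum_eq_single a] at h1
  · rw [← h1]
    apply Finset.sum_congr rfl
    intro b _
    simp [finTwoArrowEquiv]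
  · intro a' _ ha'
    apply Finset.sum_eq_zero
    intro b _
    have : t + a' ≠ t + a := fun h => ha' (add_left_cancel h)
    simp [finTwoArrowEquiv, this]
  · intro h
    exact absurd (Finset.mem_univ _) h

private theorem xwb_li {F : Type*} [Field F] {q : ℕ} [Fact q.Prime] (ψ : AddChar (ZMod q) F)
    (hψ : ψ ≠ 1) (hqF : (q : F) ≠ 0) :
    LinearIndependent F (fun v : Fin 2 → ZMod q => wey ψ v) := by
  classical
  rw [Fintype.linearIndependent_iff]
  intro g hg v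
  have hp : ψ.IsPrimitive := AddChar.IsPrimitive.of_ne_one hψ
  have h0 : ∑ t : ZMod q, ψ (-(v 1 * t)) *
      ∑ b : ZMod q, g ![v 0, b] * ψ (b * t + 2⁻¹ * (v 0 * b)) = 0 := by
    apply Finset.sum_eq_zero
    intro t _
    rw [xwb_key ψ g hg, mul_zero]
  have h1 : ∑ t : ZMod q, ψ (-(v 1 * t)) *
      ∑ b : ZMod q, g ![v 0, b] * ψ (b * t + 2⁻¹ * (v 0 * b))
      = ∑ b : ZMod q, g ![v 0, b] * ψ (2⁻¹ * (v 0 * b)) * ∑ t : ZMod q, ψ (t * (b - v 1)) := by
    simp only [Finset.mul_sum]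
    rw [Finset.sum_comm]
    apply Finset.sum_congr rfl
    intro b _
    apply Finset.sum_congr rfl
    intro t _
    have e : t * (b - v 1) + 2⁻¹ * (v 0 * b) = -(v 1 * t) + (b * t + 2⁻¹ * (v 0 * b)) := by ring
    have e1 : ψ (t * (b - v 1)) * ψ (2⁻¹ * (v 0 * b))
        = ψ (-(v 1 * t)) * ψ (b * t + 2⁻¹ * (v 0 * b)) := by
      rw [← AddChar.map_add_eq_mul, ← AddChar.map_add_eq_mul, e]
    calc ψ (-(v 1 * t)) * (g ![v 0, b] * ψ (b * t + 2⁻¹ * (v 0 * b)))
        = g ![v 0, b] * (ψ (-(v 1 * t)) * ψ (b * t + 2⁻¹ * (v 0 * b))) := by ring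
      _ = g ![v 0, b] * (ψ (t * (b - v 1)) * ψ (2⁻¹ * (v 0 * b))) := by rw [e1]
      _ = _ := by ring
  rw [h1] at h0
  rw [Finset.sum_eq_single (v 1)] at h0
  · have h2 : ∑ t : ZMod q, ψ (t * (v 1 - v 1)) = (q : F) := by
      simp [ZMod.card]
    rw [h2] at h0
    have h3 : ψ (2⁻¹ * (v 0 * v 1)) ≠ 0 := (ψ.val_isUnit _).ne_zero
    have h4 : g ![v 0, v 1] = 0 := by
      rcases mul_eq_zero.mp h0 with h | h
      · rcases mul_eq_zero.mp h with h | h
        · exact h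
        · exact absurd h h3
      · exact absurd h hqF
    have h5 : ![v 0, v 1] = v := by
      ext i
      fin_cases i <;> rfl
    rw [h5] at h4
    exact h4
  · intro b _ hb
    rw [AddChar.sum_mulShift _ hp, if_neg (sub_ne_zero.mpr hb), Nat.cast_zero, mul_zero]
  · intro h
    exact absurd (Finset.mem_univ _) h

theorem wey_basis {F : Type*} [Field F] {q : ℕ} [Fact q.Prime] (ψ : AddChar (ZMod q) F)
    (hψ : ψ ≠ 1) (hqF : (q : F) ≠ 0) :
    ∃ b : Module.Basis (Fin 2 → ZMod q) F (Module.End F (ZMod q → F)), ∀ v, b v = wey ψ v := by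
  classical
  have hc : Fintype.card (Fin 2 → ZMod q) = Module.finrank F (Module.End F (ZMod q → F)) := by
    rw [Module.finrank_linearMap, Module.finrank_fintype_fun_eq_card, Fintype.card_fun,
      Fintype.card_fin, ZMod.card, pow_two]
  refine ⟨basisOfLinearIndependentOfCardEqFinrank (xwb_li ψ hψ hqF) hc, ?_⟩
  intro v
  rw [coe_basisOfLinearIndependentOfCardEqFinrank]

end Pool.Agent.KGS
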