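import Pool.Agent.KGS.XDefs
import Pool.Agent.KGS.Xwb

/-!
# KGS, row XDF: the endomorphisms which commute with `T` are scalars plus traces
-/

open Representation

namespace Pool.Agent.KGS

open Pool.Agent.KFV Pool.Agent.KFE

private theorem xdf_wey_zero {F : Type*} [Field F] {q : ℕ} (ψ : AddChar (ZMod q) F) :
    wey ψ 0 = 1 := by
  ext f t
  simp [wey]

/-- The permutation of the plane given by a matrix of finite order. -/
private def xdfPerm {q : ℕ} (A : Matrix (Fin 2) (Fin 2) (ZMod q)) {p : ℕ} (hp : 0 < p)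
    (hAp : A ^ p = 1) : Equiv.Perm (Fin 2 → ZMod q) where
  toFun v := A.mulVec v
  invFun v := (A ^ (p - 1)).mulVec v
  left_inv v := by
    change (A ^ (p - 1)).mulVec (A.mulVec v) = v
    rw [Matrix.mulVec_mulVec, ← pow_succ, Nat.sub_add_cancel hp, hAp, Matrix.one_mulVec]
  right_inv v := by
    change A.mulVec ((A ^ (p - 1)).mulVec v) = v
    rw [Matrix.mulVec_mulVec, ← pow_succ', Nat.sub_add_cancel hp, hAp, Matrix.one_mulVec]

private theorem xdfPerm_pow {q : ℕ} (A : Matrix (Fin 2) (Fin 2) (ZMod q)) {p : ℕ} (hp : 0 < p)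
    (hAp : A ^ p = 1) (k : ℕ) (v : Fin 2 → ZMod q) :
    ((xdfPerm A hp hAp) ^ k) v = (A ^ k).mulVec v := by
  induction k generalizing v with
  | zero => simp
  | succ k ih =>
    rw [pow_succ, Equiv.Perm.mul_apply, ih]
    change (A ^ k).mulVec (A.mulVec v) = _
    rw [Matrix.mulVec_mulVec, ← pow_succ]

/-- A function with prescribed orbit sums, for a permutation of order `p` which acts freely off
one fixed point. -/
private theorem xdf_orbit {V F : Type*} [AddCommMonoid F] (z : V) {p : ℕ}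
    (hp : 0 < p) (σ : Equiv.Perm V) (hσ : σ ^ p = 1) (hz : σ z = z)
    (hfree : ∀ v, v ≠ z → ∀ k, 0 < k → k < p → (σ ^ k) v ≠ v)
    (c : V → F) (hc : ∀ v, c (σ v) = c v) :
    ∃ d : V → F, d z = 0 ∧ ∀ v, v ≠ z → ∑ k ∈ Finset.range p, d ((σ ^ k)⁻¹ v) = c v := by
  classical
  have hcz : ∀ (k : ℕ) v, c ((σ ^ k) v) = c v := by
    intro k
    induction k with
    | zero => intro v; simp
    | succ k ih => intro v; rw [pow_succ', Equiv.Perm.mul_apply, hc, ih]
  have hzk : ∀ k : ℕ, (σ ^ k) z = z := by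
    intro k
    induction k with
    | zero => simp
    | succ k ih => rw [pow_succ', Equiv.Perm.mul_apply, ih, hz]
  let rep : V → V := fun v => Quotient.out (Quotient.mk (Equiv.Perm.SameCycle.setoid σ) v)
  have hrep : ∀ v, σ.SameCycle (rep v) v := fun v =>
    Quotient.exact (s := Equiv.Perm.SameCycle.setoid σ) (Quotient.out_eq _)
  have hrep' : ∀ v w, σ.SameCycle v w → rep v = rep w := by
    intro v w h
    have : Quotient.mk (Equiv.Perm.SameCycle.setoid σ) v =
        Quotient.mk (Equiv.Perm.SameCycle.setoid σ) w := Quotient.sound h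
    simp only [rep, this]
  have hk : ∀ v, ∃ k < p, (σ ^ k) (rep v) = v := by
    intro v
    obtain ⟨i, hi⟩ := hrep v
    have hp' : (p : ℤ) ≠ 0 := by exact_mod_cast hp.ne'
    have h0 : 0 ≤ i % (p : ℤ) := Int.emod_nonneg _ hp'
    have h1 : i % (p : ℤ) < p := Int.emod_lt_of_pos _ (by exact_mod_cast hp)
    refine ⟨(i % (p : ℤ)).toNat, by omega, ?_⟩
    have h2 : σ ^ i = σ ^ (i % (p : ℤ)).toNat := by
      have h3 : i = (i % (p : ℤ)) + p * (i / p) := (Int.emod_add_mul_ediv i p).symm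
      have h4 : ((i % (p : ℤ)).toNat : ℤ) = i % (p : ℤ) := Int.toNat_of_nonneg h0
      have h5 : σ ^ (p * (i / (p : ℤ))) = 1 := by
        rw [zpow_mul, zpow_natCast, hσ, one_zpow]
      calc σ ^ i = σ ^ ((i % (p : ℤ)) + p * (i / p)) := by rw [← h3]
        _ = σ ^ (i % (p : ℤ)) := by rw [zpow_add, h5, mul_one]
        _ = σ ^ (((i % (p : ℤ)).toNat : ℕ) : ℤ) := by rw [h4]
        _ = _ := zpow_natCast _ _
    rw [← h2]
    exact hi
  refine ⟨fun v => if v ≠ z ∧ rep v = v then c v else 0, by simp, ?_⟩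
  intro v hv
  obtain ⟨k₀, hk₀, h₀⟩ := hk v
  have hr : rep v ≠ z := by
    intro h
    rw [h, hzk] at h₀
    exact hv h₀.symm
  have hinv : (σ ^ k₀)⁻¹ v = rep v := by
    rw [Equiv.Perm.inv_eq_iff_eq, h₀]
  rw [Finset.sum_eq_single k₀]
  · rw [hinv]
    change (if rep v ≠ z ∧ rep (rep v) = rep v then c (rep v) else 0) = c v
    rw [if_pos ⟨hr, hrep' _ _ (hrep v)⟩, ← hcz k₀ (rep v), h₀]
  · intro k hkp hne
    rw [Finset.mem_range] at hkp
    change (if (σ ^ k)⁻¹ v ≠ z ∧ rep ((σ ^ k)⁻¹ v) = (σ ^ k)⁻¹ v then c ((σ ^ k)⁻¹ v) else 0) = 0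
    rw [if_neg]
    rintro ⟨-, h2⟩
    have h3 : σ.SameCycle ((σ ^ k)⁻¹ v) v :=
      ⟨(k : ℤ), by rw [zpow_natCast]; simp⟩
    have h4 : (σ ^ k)⁻¹ v = rep v := by rw [← h2, hrep' _ _ h3]
    have h5 : (σ ^ k) (rep v) = v := by rw [← h4]; simp
    rcases lt_or_gt_of_ne hne with h | h
    · apply hfree (rep v) hr (k₀ - k) (by omega) (by omega)
      have h6 : (σ ^ k) ((σ ^ (k₀ - k)) (rep v)) = (σ ^ k) (rep v) := by
        rw [← Equiv.Perm.mul_apply, ← pow_add, Nat.add_sub_cancel' h.le, h₀, h5]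
      exact (σ ^ k).injective h6
    · apply hfree (rep v) hr (k - k₀) (by omega) (by omega)
      have h6 : (σ ^ k₀) ((σ ^ (k - k₀)) (rep v)) = (σ ^ k₀) (rep v) := by
        rw [← Equiv.Perm.mul_apply, ← pow_add, Nat.add_sub_cancel' h.le, h₀, h5]
      exact (σ ^ k₀).injective h6
  · intro h
    exact absurd (Finset.mem_range.2 hk₀) h

theorem fixed_decomp {F : Type*} [Field F] {p q : ℕ} [Fact p.Prime] [Fact q.Prime]
    (hq : q ≠ 2) (ψ : AddChar (ZMod q) F) (hψ : ψ ≠ 1) (hqF : (q : F) ≠ 0)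
    (A : Matrix (Fin 2) (Fin 2) (ZMod q)) (hAp : A ^ p = 1)
    (hfree : ∀ v : Fin 2 → ZMod q, v ≠ 0 → ∀ k, 0 < k → k < p → (A ^ k).mulVec v ≠ v)
    (T : (Module.End F (ZMod q → F))ˣ) (hTp : T ^ p = 1)
    (hT : ∀ v, (T : Module.End F (ZMod q → F)) * wey ψ v = wey ψ (A.mulVec v) * T)
    (f : Module.End F (ZMod q → F)) (hf : (T : Module.End F (ZMod q → F)) * f = f * T) :
    ∃ (c : F) (h : Module.End F (ZMod q → F)),
      f = c • (1 : Module.End F (ZMod q → F)) + ∑ k ∈ Finset.range p,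
        (T : Module.End F (ZMod q → F)) ^ k * h * (↑T⁻¹ : Module.End F (ZMod q → F)) ^ k := by
  classical
  obtain ⟨b, hb⟩ := wey_basis ψ hψ hqF
  have hp : 0 < p := (Fact.out : p.Prime).pos
  set σ := xdfPerm A hp hAp with hσd
  have hσ1 : ∀ v, σ v = A.mulVec v := fun _ => rfl
  have hσ : σ ^ p = 1 := by
    ext1 v
    rw [hσd, xdfPerm_pow, hAp, Matrix.one_mulVec]
    rfl
  have hz : σ 0 = 0 := by rw [hσ1, Matrix.mulVec_zero]
  have hfree' : ∀ v, v ≠ 0 → ∀ k, 0 < k → k < p → (σ ^ k) v ≠ v := by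
    intro v hv k h1 h2
    rw [hσd, xdfPerm_pow]
    exact hfree v hv k h1 h2
  have hsum : f = ∑ v, b.repr f v • wey ψ v := by
    conv_lhs => rw [← b.sum_repr f]
    exact Finset.sum_congr rfl fun v _ => by rw [hb]
  -- the coefficients are invariant
  have hc : ∀ v, b.repr f (σ v) = b.repr f v := by
    have h1 : f = ∑ v, b.repr f v • wey ψ (σ v) := by
      have h2 : f * (T : Module.End F (ZMod q → F)) =
          (∑ v, b.repr f v • wey ψ (σ v)) * (T : Module.End F (ZMod q → F)) := by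
        rw [← hf]
        conv_lhs => rw [hsum]
        rw [Finset.mul_sum, Finset.sum_mul]
        refine Finset.sum_congr rfl fun v _ => ?_
        rw [mul_smul_comm, smul_mul_assoc, hT v, hσ1]
      exact T.mul_left_inj.1 h2
    have h3 : f = ∑ v, b.repr f (σ.symm v) • wey ψ v := by
      conv_lhs => rw [h1]
      rw [← Equiv.sum_comp σ (fun v => b.repr f (σ.symm v) • wey ψ v)]
      simp
    intro v
    have h4 : b.repr f (σ v) = b.repr (∑ v, b.repr f (σ.symm v) • b v) (σ v) := by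
      conv_lhs => rw [h3]
      simp only [hb]
    rw [h4, b.repr_sum_self]
    simp
  obtain ⟨d, hd0, hd⟩ := xdf_orbit (0 : Fin 2 → ZMod q) hp σ hσ hz hfree' (fun v => b.repr f v) hc
  -- conjugation
  have hconj : ∀ (k : ℕ) v, (T : Module.End F (ZMod q → F)) ^ k * wey ψ v *
      (↑T⁻¹ : Module.End F (ZMod q → F)) ^ k = wey ψ ((σ ^ k) v) := by
    intro k
    induction k with
    | zero => intro v; simp
    | succ k ih =>
      intro v
      rw [pow_succ (T : Module.End F (ZMod q → F)), pow_succ' (↑T⁻¹ : Module.End F (ZMod q → F)),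
        pow_succ σ, Equiv.Perm.mul_apply, ← ih (σ v), hσ1]
      have h1 : (T : Module.End F (ZMod q → F)) * wey ψ v * (↑T⁻¹ : Module.End F (ZMod q → F)) =
          wey ψ (A.mulVec v) := by
        rw [hT v, mul_assoc, Units.mul_inv, mul_one]
      rw [← h1]
      simp only [mul_assoc]
  refine ⟨b.repr f 0, ∑ v, d v • wey ψ v, ?_⟩
  have h1 : ∑ k ∈ Finset.range p, (T : Module.End F (ZMod q → F)) ^ k * (∑ v, d v • wey ψ v) *
      (↑T⁻¹ : Module.End F (ZMod q → F)) ^ k =
      ∑ v, (if v = 0 then 0 else b.repr f v) • wey ψ v := by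
    have h2 : ∀ k ∈ Finset.range p, (T : Module.End F (ZMod q → F)) ^ k *
        (∑ v, d v • wey ψ v) * (↑T⁻¹ : Module.End F (ZMod q → F)) ^ k =
        ∑ v, d ((σ ^ k)⁻¹ v) • wey ψ v := by
      intro k _
      rw [← Equiv.sum_comp (σ ^ k) (fun v => d ((σ ^ k)⁻¹ v) • wey ψ v), Finset.mul_sum,
        Finset.sum_mul]
      refine Finset.sum_congr rfl fun v _ => ?_
      rw [mul_smul_comm, smul_mul_assoc, hconj]
      simp
    rw [Finset.sum_congr rfl h2, Finset.sum_comm]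
    refine Finset.sum_congr rfl fun v _ => ?_
    rw [← Finset.sum_smul]
    congr 1
    split_ifs with hv
    · subst hv
      refine Finset.sum_eq_zero fun k _ => ?_
      have h3 : (σ ^ k)⁻¹ (0 : Fin 2 → ZMod q) = 0 := by
        rw [Equiv.Perm.inv_eq_iff_eq, hσd, xdfPerm_pow, Matrix.mulVec_zero]
      rw [h3, hd0]
    · exact hd v hv
  rw [h1]
  conv_lhs => rw [hsum]
  rw [← Finset.add_sum_erase Finset.univ _ (Finset.mem_univ (0 : Fin 2 → ZMod q)),
    ← Finset.add_sum_erase Finset.univ (fun v => (if v = 0 then (0 : F) else b.repr f v) • wey ψ v)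
      (Finset.mem_univ (0 : Fin 2 → ZMod q)), xdf_wey_zero]
  rw [if_pos rfl, zero_smul, zero_add]
  congr 1
  refine Finset.sum_congr rfl fun v hv => ?_
  rw [if_neg (Finset.ne_of_mem_erase hv)]

end Pool.Agent.KGS
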