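import Pool.Agent.KGS.XDefs

/-!
# KGS, row XGL: an element of order `p` of `SL (2, q)` without fixed vectors
-/

set_option autoImplicit false

namespace Pool.Agent.KGS

open Matrix

private lemma XGL_unip {q : ℕ} [Fact q.Prime] (A : Matrix (Fin 2) (Fin 2) (ZMod q))
    (hA : A.det = 1) (v : Fin 2 → ZMod q) (hv : v ≠ 0) (hAv : A.mulVec v = v) (n : ℕ) :
    A ^ n = 1 + (n : Matrix (Fin 2) (Fin 2) (ZMod q)) * (A - 1) := by
  have h0 : (A - 1).det = 0 := by
    rw [← Matrix.exists_mulVec_eq_zero_iff]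
    exact ⟨v, hv, by rw [Matrix.sub_mulVec, hAv, Matrix.one_mulVec, sub_self]⟩
  have hN : (A - 1) * (A - 1) = 0 := by
    rw [Matrix.det_fin_two] at h0 hA
    simp only [Matrix.sub_apply, Matrix.one_apply] at h0
    norm_num at h0
    have ht : A 0 0 + A 1 1 = 2 := by linear_combination hA - h0
    ext i j
    fin_cases i <;> fin_cases j <;>
      simp [Matrix.mul_apply, Fin.sum_univ_two, Matrix.sub_apply, Matrix.one_apply]
    · linear_combination (A 0 0 - 1) * ht - h0
    · linear_combination (A 0 1) * ht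
    · linear_combination (A 1 0) * ht
    · linear_combination (A 1 1 - 1) * ht - h0
  induction n with
  | zero => simp
  | succ n ih =>
    rw [pow_succ, ih]
    have e : A = 1 + (A - 1) := by abel
    have : (1 + (n : Matrix (Fin 2) (Fin 2) (ZMod q)) * (A - 1)) * A
        = (1 + (n : Matrix (Fin 2) (Fin 2) (ZMod q)) * (A - 1)) * (1 + (A - 1)) := by
      rw [← e]
    rw [this, mul_add, mul_one, add_mul, mul_assoc, hN, mul_zero, add_zero, one_mul]
    push_cast
    rw [add_mul, one_mul]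
    abel

theorem exists_A (p q : ℕ) [Fact p.Prime] [Fact q.Prime] (hq : q ≠ 2) (h : (q : ZMod p) = -1) :
    ∃ A : Matrix (Fin 2) (Fin 2) (ZMod q), A.det = 1 ∧ A ^ p = 1 ∧
      ∀ v : Fin 2 → ZMod q, v ≠ 0 → ∀ k, 0 < k → k < p → (A ^ k).mulVec v ≠ v := by
  have hp : p.Prime := Fact.out
  have hqp : q.Prime := Fact.out
  have hpq : p ≠ q := by
    rintro rfl
    rw [ZMod.natCast_self] at h
    have : (1 : ZMod p) = 0 := by rw [← neg_zero, h, neg_neg]
    exact one_ne_zero this
  have h2q : (2 : ZMod q) ≠ 0 := by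
    intro h2
    have : ((2 : ℕ) : ZMod q) = 0 := by exact_mod_cast h2
    rw [ZMod.natCast_eq_zero_iff] at this
    exact hq ((Nat.prime_dvd_prime_iff_eq hqp Nat.prime_two).1 this)
  by_cases hp2 : p = 2
  · subst hp2
    refine ⟨-1, ?_, by simp, ?_⟩
    · simp [Matrix.det_fin_two]
    · intro v hv k hk hk2 hkv
      have : k = 1 := by omega
      subst this
      apply hv
      rw [pow_one, Matrix.neg_mulVec, Matrix.one_mulVec] at hkv
      ext i
      have h1 := congrFun hkv i
      simp only [Pi.neg_apply] at h1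
      have h3 : 2 * v i = 0 := by linear_combination -h1
      rcases mul_eq_zero.1 h3 with h4 | h4
      · exact absurd h4 h2q
      · simpa using h4
  -- p is odd
  have hdvd : p ∣ q + 1 := by
    rw [← ZMod.natCast_eq_zero_iff]
    push_cast
    rw [h]; ring
  have hcop : Nat.Coprime p (q - 1) := by
    rw [Nat.Prime.coprime_iff_not_dvd hp]
    intro h1
    have h3 : p ∣ (q + 1) - (q - 1) := Nat.dvd_sub hdvd h1
    have h4 : (q + 1) - (q - 1) = 2 := by
      have := hqp.two_le
      omega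
    rw [h4] at h3
    exact hp2 ((Nat.prime_dvd_prime_iff_eq hp Nat.prime_two).1 h3)
  have hcard : p ∣ Nat.card (GL (Fin 2) (ZMod q)) := by
    rw [Matrix.card_GL_field, Fin.prod_univ_two]
    apply Dvd.dvd.mul_right
    rw [ZMod.card]
    have : q ^ 2 - q ^ ((0 : Fin 2) : ℕ) = (q + 1) * (q - 1) := by
      have := Nat.sq_sub_sq q 1
      simpa using this
    rw [this]
    exact hdvd.mul_right _
  obtain ⟨A, hA⟩ := exists_prime_orderOf_dvd_card' p hcard
  have hAp : A ^ p = 1 := by rw [← hA]; exact pow_orderOf_eq_one A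
  have hA1 : A ≠ 1 := by
    rintro rfl
    rw [orderOf_one] at hA
    exact hp.one_lt.ne hA
  have hdet : Matrix.GeneralLinearGroup.det A = 1 := by
    have h1 : (Matrix.GeneralLinearGroup.det A) ^ p = 1 := by
      rw [← map_pow, hAp, map_one]
    have h3 : (Matrix.GeneralLinearGroup.det A) ^ (q - 1) = 1 := ZMod.units_pow_card_sub_one_eq_one q _
    have h4 := orderOf_dvd_of_pow_eq_one h1
    have h5 := orderOf_dvd_of_pow_eq_one h3
    have h6 := Nat.dvd_gcd h4 h5
    rw [hcop.gcd_eq_one] at h6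
    exact orderOf_eq_one_iff.1 (Nat.dvd_one.1 h6)
  have hdet' : (A : Matrix (Fin 2) (Fin 2) (ZMod q)).det = 1 := by
    have := congrArg Units.val hdet
    simpa using this
  have hAp' : (A : Matrix (Fin 2) (Fin 2) (ZMod q)) ^ p = 1 := by
    have := congrArg Units.val hAp
    simpa using this
  refine ⟨(A : Matrix (Fin 2) (Fin 2) (ZMod q)), hdet', hAp', ?_⟩
  intro v hv k hk hkp hkv
  -- A fixes v
  have hck : Nat.Coprime k p := (Nat.Coprime.symm ((Nat.Prime.coprime_iff_not_dvd hp).2 (fun hd => absurd (Nat.le_of_dvd hk hd) (not_le.2 hkp))))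
  obtain ⟨m, hm⟩ : ∃ m : ℕ, (k * m) % p = 1 % p := by
    obtain ⟨m, hm⟩ := Nat.exists_mul_mod_eq_one_of_coprime hck hp.one_lt
    exact ⟨m, by rw [hm.2, Nat.mod_eq_of_lt hp.one_lt]⟩
  have hpow : ∀ m : ℕ, (((A : Matrix (Fin 2) (Fin 2) (ZMod q)) ^ k) ^ m).mulVec v = v := by
    intro m
    induction m with
    | zero => simp
    | succ m ih =>
      rw [pow_succ, ← Matrix.mulVec_mulVec, hkv, ih]
  have hAv : (A : Matrix (Fin 2) (Fin 2) (ZMod q)).mulVec v = v := by
    have h1 := hpow m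
    rw [← pow_mul] at h1
    have h3 : (A : Matrix (Fin 2) (Fin 2) (ZMod q)) ^ (k * m) = (A : Matrix (Fin 2) (Fin 2) (ZMod q)) := by
      rw [← Nat.div_add_mod (k * m) p, pow_add, pow_mul, hAp', one_pow, one_mul, hm,
        Nat.mod_eq_of_lt hp.one_lt, pow_one]
    rwa [h3] at h1
  have h7 := XGL_unip _ hdet' v hv hAv p
  rw [hAp'] at h7
  have h8 : (p : Matrix (Fin 2) (Fin 2) (ZMod q)) * ((A : Matrix (Fin 2) (Fin 2) (ZMod q)) - 1) = 0 := by
    have := congrArg (fun X => X - 1) h7
    simpa using this.symm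
  have hpq0 : (p : ZMod q) ≠ 0 := by
    intro h9
    rw [ZMod.natCast_eq_zero_iff] at h9
    exact hpq ((Nat.prime_dvd_prime_iff_eq hqp hp).1 h9).symm
  apply hA1
  apply Units.ext
  have h10 : (A : Matrix (Fin 2) (Fin 2) (ZMod q)) - 1 = 0 := by
    have h11 : (p : Matrix (Fin 2) (Fin 2) (ZMod q)) = (p : ZMod q) • (1 : Matrix (Fin 2) (Fin 2) (ZMod q)) := by
      ext i j
      rw [Matrix.smul_apply, Matrix.one_apply, ← Matrix.diagonal_natCast]
      by_cases hij : i = j
      · subst hij; simp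
      · simp [hij]
    rw [h11, smul_mul_assoc, one_mul] at h8
    exact (smul_eq_zero.1 h8).resolve_left hpq0
  rw [sub_eq_zero.1 h10]
  rfl

end Pool.Agent.KGS
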