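import Pool.Agent.KGS.XDefs

/-!
# KGS (MP_1993d0_al), row XWM: the multiplication rule of the Weyl operators
-/

open Representation

namespace Pool.Agent.KGS

theorem wey_zero {F : Type*} [Field F] {q : ℕ} [Fact q.Prime] (ψ : AddChar (ZMod q) F) :
    wey ψ 0 = 1 := by
  ext f t
  simp [wey]

theorem wey_mul {F : Type*} [Field F] {q : ℕ} [Fact q.Prime] (hq : q ≠ 2)
    (ψ : AddChar (ZMod q) F) (v w : Fin 2 → ZMod q) :
    wey ψ v * wey ψ w = ψ (2⁻¹ * sy v w) • wey ψ (v + w) := by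
  have h2 : (2 : ZMod q) ≠ 0 := by
    intro h
    have h1 : ((2 : ℕ) : ZMod q) = 0 := by exact_mod_cast h
    rw [ZMod.natCast_eq_zero_iff] at h1
    have hq' : q.Prime := Fact.out
    exact hq ((Nat.prime_dvd_prime_iff_eq hq' Nat.prime_two).1 h1)
  refine LinearMap.ext fun f => funext fun t => ?_
  change ψ (v 1 * t + 2⁻¹ * (v 0 * v 1)) *
      (ψ (w 1 * (t + v 0) + 2⁻¹ * (w 0 * w 1)) * f (t + v 0 + w 0)) =
    ψ (2⁻¹ * sy v w) *
      (ψ ((v + w) 1 * t + 2⁻¹ * ((v + w) 0 * (v + w) 1)) * f (t + (v + w) 0))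
  have e1 : t + (v + w) 0 = t + v 0 + w 0 := by
    rw [Pi.add_apply]; ring
  have e2 : v 1 * t + 2⁻¹ * (v 0 * v 1) + (w 1 * (t + v 0) + 2⁻¹ * (w 0 * w 1)) =
      2⁻¹ * sy v w + ((v + w) 1 * t + 2⁻¹ * ((v + w) 0 * (v + w) 1)) := by
    simp only [sy, Pi.add_apply]
    field_simp
    ring
  rw [e1, ← mul_assoc (ψ _) (ψ _) (f _), ← mul_assoc (ψ _) (ψ _) (f _),
    ← AddChar.map_add_eq_mul, ← AddChar.map_add_eq_mul, e2]

end Pool.Agent.KGS
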