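import Pool.Agent.KGS.XDefs
import Pool.Agent.KGS.Xwm
import Pool.Agent.KGS.Xwb

/-!
# KGS (MP_1993d0_al), row XHE: the group of the maps `ψ c • wey ψ v`
-/

open Representation

namespace Pool.Agent.KGS

open Pool.Agent.KFV Pool.Agent.KFE

theorem xhe_mul {F : Type*} [Field F] {q : ℕ} [Fact q.Prime] (hq : q ≠ 2)
    (ψ : AddChar (ZMod q) F) (c d : ZMod q) (v w : Fin 2 → ZMod q) :
    (ψ c • wey ψ v) * (ψ d • wey ψ w) = ψ (c + d + 2⁻¹ * sy v w) • wey ψ (v + w) := by
  rw [smul_mul_smul_comm, wey_mul hq, smul_smul, AddChar.map_add_eq_mul, AddChar.map_add_eq_mul]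

theorem xhe_inv {F : Type*} [Field F] {q : ℕ} [Fact q.Prime] (hq : q ≠ 2)
    (ψ : AddChar (ZMod q) F) (c : ZMod q) (v : Fin 2 → ZMod q) :
    (ψ c • wey ψ v) * (ψ (-c) • wey ψ (-v)) = 1 := by
  rw [xhe_mul hq]
  have h1 : c + -c + 2⁻¹ * sy v (-v) = 0 := by
    simp only [sy, Pi.neg_apply]
    ring
  rw [h1, AddChar.map_zero_eq_one, add_neg_cancel, wey_zero, one_smul]

theorem xhe_pow {F : Type*} [Field F] {q : ℕ} [Fact q.Prime] (hq : q ≠ 2)
    (ψ : AddChar (ZMod q) F) (c : ZMod q) (v : Fin 2 → ZMod q) (n : ℕ) :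
    (ψ c • wey ψ v) ^ n = ψ ((n : ZMod q) * c) • wey ψ ((n : ZMod q) • v) := by
  induction n with
  | zero =>
    rw [pow_zero, Nat.cast_zero, zero_mul, zero_smul, AddChar.map_zero_eq_one, wey_zero, one_smul]
  | succ n ih =>
    rw [pow_succ, ih, xhe_mul hq]
    have h1 : (n : ZMod q) * c + c + 2⁻¹ * sy ((n : ZMod q) • v) v = ((n + 1 : ℕ) : ZMod q) * c := by
      simp only [sy, Pi.smul_apply, smul_eq_mul, Nat.cast_add, Nat.cast_one]
      ring
    have h2 : (n : ZMod q) • v + v = ((n + 1 : ℕ) : ZMod q) • v := by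
      rw [Nat.cast_add, Nat.cast_one, add_smul, one_smul]
    rw [h1, h2]

/-- The group of the maps `ψ c • wey ψ v`. -/
def xheK {F : Type*} [Field F] {q : ℕ} [Fact q.Prime] (hq : q ≠ 2) (ψ : AddChar (ZMod q) F) :
    Subgroup (Module.End F (ZMod q → F))ˣ where
  carrier := {U | ∃ (c : ZMod q) (v : Fin 2 → ZMod q),
    (U : Module.End F (ZMod q → F)) = ψ c • wey ψ v}
  one_mem' := ⟨0, 0, by
    rw [AddChar.map_zero_eq_one, wey_zero, one_smul, Units.val_one]⟩
  mul_mem' := by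
    rintro U U' ⟨c, v, h⟩ ⟨c', v', h'⟩
    exact ⟨_, _, by rw [Units.val_mul, h, h', xhe_mul hq]⟩
  inv_mem' := by
    rintro U ⟨c, v, h⟩
    refine ⟨-c, -v, ?_⟩
    have h1 := xhe_inv hq ψ c v
    rw [← h] at h1
    have h2 : (↑U⁻¹ : Module.End F (ZMod q → F)) * (↑U * (ψ (-c) • wey ψ (-v))) =
        ψ (-c) • wey ψ (-v) := by
      rw [← mul_assoc, Units.inv_mul, one_mul]
    rw [← h2, h1, mul_one]

/-- The Weyl operator as a unit. -/
def xheU {F : Type*} [Field F] {q : ℕ} [Fact q.Prime] (hq : q ≠ 2) (ψ : AddChar (ZMod q) F)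
    (v : Fin 2 → ZMod q) : (Module.End F (ZMod q → F))ˣ where
  val := wey ψ v
  inv := wey ψ (-v)
  val_inv := by
    have h1 := xhe_inv hq ψ 0 v
    rwa [neg_zero, AddChar.map_zero_eq_one, one_smul, one_smul] at h1
  inv_val := by
    have h1 := xhe_inv hq ψ 0 (-v)
    rwa [neg_zero, AddChar.map_zero_eq_one, one_smul, one_smul, neg_neg] at h1

theorem exists_hei {F : Type*} [Field F] {q : ℕ} [Fact q.Prime]
    (hq : q ≠ 2) (ψ : AddChar (ZMod q) F) (hψ : ψ ≠ 1) (hqF : (q : F) ≠ 0) :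
    ∃ K : Subgroup (Module.End F (ZMod q → F))ˣ, Finite K ∧ IsPGroup q K ∧
      (∀ U, U ∈ K ↔ ∃ (c : ZMod q) (v : Fin 2 → ZMod q),
        (U : Module.End F (ZMod q → F)) = ψ c • wey ψ v) ∧
      ∀ A : Submodule F (ZMod q → F),
        (∀ U ∈ K, ∀ a ∈ A, (U : Module.End F (ZMod q → F)) a ∈ A) → A = ⊥ ∨ A = ⊤ := by
  have hmem : ∀ U, U ∈ xheK hq ψ ↔ ∃ (c : ZMod q) (v : Fin 2 → ZMod q),
      (U : Module.End F (ZMod q → F)) = ψ c • wey ψ v := fun U => Iff.rfl
  refine ⟨xheK hq ψ, ?_, ?_, hmem, ?_⟩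
  · have : Finite (Set.range fun x : ZMod q × (Fin 2 → ZMod q) => ψ x.1 • wey ψ x.2) :=
      Set.finite_range _ |>.to_subtype
    let g : xheK hq ψ → Set.range fun x : ZMod q × (Fin 2 → ZMod q) => ψ x.1 • wey ψ x.2 :=
      fun U => ⟨(U : (Module.End F (ZMod q → F))ˣ), by
        obtain ⟨c, v, h⟩ := (hmem U).1 U.2
        exact ⟨(c, v), h.symm⟩⟩
    refine Finite.of_injective g ?_
    intro U U' h
    have h1 := congrArg Subtype.val h
    exact Subtype.ext (Units.ext h1)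
  · rintro ⟨U, hU⟩
    obtain ⟨c, v, h⟩ := (hmem U).1 hU
    refine ⟨1, ?_⟩
    apply Subtype.ext
    apply Units.ext
    rw [pow_one]
    show (((U ^ q : (Module.End F (ZMod q → F))ˣ)) : Module.End F (ZMod q → F)) = 1
    rw [Units.val_pow_eq_pow_val, h, xhe_pow hq, ZMod.natCast_self, zero_mul, zero_smul,
      AddChar.map_zero_eq_one, wey_zero, one_smul]
  · intro A hA
    by_cases hb : A = ⊥
    · exact Or.inl hb
    right
    obtain ⟨a, haA, ha0⟩ := (Submodule.ne_bot_iff A).1 hb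
    obtain ⟨t, ht⟩ := Function.ne_iff.1 ha0
    have hW : ∀ v : Fin 2 → ZMod q, ∀ a ∈ A, wey ψ v a ∈ A := by
      intro v a ha
      exact hA (xheU hq ψ v) ((hmem _).2 ⟨0, v, by
        rw [AddChar.map_zero_eq_one, one_smul]; rfl⟩) a ha
    obtain ⟨b, hbw⟩ := wey_basis ψ hψ hqF
    have hall : ∀ f : Module.End F (ZMod q → F), f a ∈ A := by
      intro f
      have hf : f ∈ Submodule.span F (Set.range b) := by
        rw [b.span_eq]
        exact Submodule.mem_top
      induction hf using Submodule.span_induction with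
      | mem x hx =>
        obtain ⟨v, rfl⟩ := hx
        rw [hbw]
        exact hW v a haA
      | zero => rw [LinearMap.zero_apply]; exact A.zero_mem
      | add x y _ _ hx hy => rw [LinearMap.add_apply]; exact A.add_mem hx hy
      | smul c x _ hx => rw [LinearMap.smul_apply]; exact A.smul_mem c hx
    rw [eq_top_iff]
    intro w _
    have h1 := hall ((LinearMap.proj t : (ZMod q → F) →ₗ[F] F).smulRight ((a t)⁻¹ • w))
    rw [LinearMap.smulRight_apply, LinearMap.proj_apply, smul_smul, mul_inv_cancel₀ ht,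
      one_smul] at h1
    exact h1

end Pool.Agent.KGS
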