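import Pool.Agent.KGS.XDefs
import Pool.Agent.KGS.Xwm
import Pool.Agent.KGS.Xwb

/-!
# KGS (MP_1993d0_al), row XTE: the linear map which permutes the Weyl operators
-/

open Representation

namespace Pool.Agent.KGS

private theorem xte_sy {q : ℕ} (A : Matrix (Fin 2) (Fin 2) (ZMod q)) (v w : Fin 2 → ZMod q) :
    sy (A.mulVec v) (A.mulVec w) = A.det * sy v w := by
  simp only [sy, Matrix.mulVec, dotProduct, Fin.sum_univ_two, Matrix.det_fin_two]
  ring

private theorem xte_scalar {F V : Type*} [Field F] [AddCommGroup V] [Module F V]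
    (X : Module.End F V) (h : ∀ Y : Module.End F V, X * Y = Y * X) :
    ∃ c : F, X = algebraMap F (Module.End F V) c := by
  have h1 : X ∈ Subalgebra.center F (Module.End F V) := by
    rw [Subalgebra.mem_center_iff]
    intro Y
    exact (h Y).symm
  rw [Algebra.IsCentral.center_eq_bot, Algebra.mem_bot] at h1
  obtain ⟨c, hc⟩ := h1
  exact ⟨c, hc.symm⟩

theorem exists_T {F : Type*} [Field F] [IsAlgClosed F] {p q : ℕ} [Fact p.Prime] [Fact q.Prime]
    (hq : q ≠ 2) (ψ : AddChar (ZMod q) F) (hψ : ψ ≠ 1) (hqF : (q : F) ≠ 0)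
    (A : Matrix (Fin 2) (Fin 2) (ZMod q)) (hA : A.det = 1) (hAp : A ^ p = 1) :
    ∃ T : (Module.End F (ZMod q → F))ˣ, T ^ p = 1 ∧
      ∀ v, (T : Module.End F (ZMod q → F)) * wey ψ v = wey ψ (A.mulVec v) * T := by
  have hp : p.Prime := Fact.out
  obtain ⟨b, hb⟩ := wey_basis ψ hψ hqF
  have hpp : p - 1 + 1 = p := Nat.sub_add_cancel hp.one_lt.le
  -- the permutation of the indices
  let e : (Fin 2 → ZMod q) ≃ (Fin 2 → ZMod q) :=
    { toFun := A.mulVec
      invFun := (A ^ (p - 1)).mulVec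
      left_inv := by
        intro v
        rw [Matrix.mulVec_mulVec, ← pow_succ, hpp, hAp, Matrix.one_mulVec]
      right_inv := by
        intro v
        rw [Matrix.mulVec_mulVec, ← pow_succ', hpp, hAp, Matrix.one_mulVec] }
  let Φ : Module.End F (ZMod q → F) ≃ₗ[F] Module.End F (ZMod q → F) := b.equiv b e
  have hΦ : ∀ v, Φ (wey ψ v) = wey ψ (A.mulVec v) := by
    intro v
    rw [← hb v, ← hb (A.mulVec v)]
    exact b.equiv_apply v b e
  have hone : Φ 1 = 1 := by
    rw [← wey_zero ψ, hΦ, Matrix.mulVec_zero]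
  have hmulW : ∀ v w, Φ (wey ψ v * wey ψ w) = Φ (wey ψ v) * Φ (wey ψ w) := by
    intro v w
    rw [wey_mul hq, map_smul, hΦ, hΦ, hΦ, wey_mul hq, xte_sy, hA, one_mul, Matrix.mulVec_add]
  have hmul : ∀ X Y, Φ (X * Y) = Φ X * Φ Y := by
    have h1 : ∀ w X, Φ (X * wey ψ w) = Φ X * Φ (wey ψ w) := by
      intro w
      have : (Φ : Module.End F (ZMod q → F) →ₗ[F] Module.End F (ZMod q → F)) ∘ₗ
          LinearMap.mulRight F (wey ψ w) =
          LinearMap.mulRight F (Φ (wey ψ w)) ∘ₗ
            (Φ : Module.End F (ZMod q → F) →ₗ[F] Module.End F (ZMod q → F)) := by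
        refine b.ext fun v => ?_
        rw [hb v]
        exact hmulW v w
      intro X
      exact LinearMap.congr_fun this X
    intro X
    have : (Φ : Module.End F (ZMod q → F) →ₗ[F] Module.End F (ZMod q → F)) ∘ₗ
        LinearMap.mulLeft F X =
        LinearMap.mulLeft F (Φ X) ∘ₗ
          (Φ : Module.End F (ZMod q → F) →ₗ[F] Module.End F (ZMod q → F)) := by
      refine b.ext fun v => ?_
      rw [hb v]
      exact h1 v X
    intro Y
    exact LinearMap.congr_fun this Y
  let Ψ : Module.End F (ZMod q → F) ≃ₐ[F] Module.End F (ZMod q → F) :=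
    AlgEquiv.ofLinearEquiv Φ hone hmul
  obtain ⟨T0, hT0⟩ := Ψ.eq_linearEquivConjAlgEquiv
  have hΨ : ∀ X, Ψ X = (T0 : (ZMod q → F) →ₗ[F] (ZMod q → F)) ∘ₗ X ∘ₗ
      (T0.symm : (ZMod q → F) →ₗ[F] (ZMod q → F)) := by
    intro X
    rw [hT0]
    rfl
  let U0 : (Module.End F (ZMod q → F))ˣ :=
    { val := (T0 : (ZMod q → F) →ₗ[F] (ZMod q → F))
      inv := (T0.symm : (ZMod q → F) →ₗ[F] (ZMod q → F))
      val_inv := by
        ext f t
        simp
      inv_val := by
        ext f t
        simp }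
  have hU : ∀ v, (U0 : Module.End F (ZMod q → F)) * wey ψ v = wey ψ (A.mulVec v) * U0 := by
    intro v
    have h1 : Ψ (wey ψ v) = wey ψ (A.mulVec v) := hΦ v
    rw [← h1, hΨ]
    refine LinearMap.ext fun f => ?_
    change T0 (wey ψ v f) = T0 (wey ψ v (T0.symm (T0 f)))
    rw [T0.symm_apply_apply]
  have hUn : ∀ n : ℕ, ∀ v, (U0 : Module.End F (ZMod q → F)) ^ n * wey ψ v =
      wey ψ ((A ^ n).mulVec v) * (U0 : Module.End F (ZMod q → F)) ^ n := by
    intro n
    induction n with
    | zero => intro v; simp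
    | succ n ih =>
      intro v
      rw [pow_succ', mul_assoc, ih, ← mul_assoc, hU, Matrix.mulVec_mulVec, ← pow_succ',
        mul_assoc]
  have hcomm : ∀ Y : Module.End F (ZMod q → F),
      (U0 : Module.End F (ZMod q → F)) ^ p * Y = Y * (U0 : Module.End F (ZMod q → F)) ^ p := by
    have : LinearMap.mulLeft F ((U0 : Module.End F (ZMod q → F)) ^ p) =
        LinearMap.mulRight F ((U0 : Module.End F (ZMod q → F)) ^ p) := by
      refine b.ext fun v => ?_
      rw [hb v, LinearMap.mulLeft_apply, LinearMap.mulRight_apply, hUn, hAp, Matrix.one_mulVec]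
    intro Y
    exact LinearMap.congr_fun this Y
  obtain ⟨c, hc⟩ := xte_scalar _ hcomm
  obtain ⟨z, hz⟩ := IsAlgClosed.exists_pow_nat_eq c hp.pos
  have hz0 : z ≠ 0 := by
    intro h
    rw [h, zero_pow hp.ne_zero] at hz
    rw [← hz, map_zero] at hc
    have h1 : IsUnit ((U0 : Module.End F (ZMod q → F)) ^ p) := (U0 ^ p).isUnit
    rw [hc] at h1
    exact not_isUnit_zero h1
  let s : (Module.End F (ZMod q → F))ˣ :=
    Units.map (algebraMap F (Module.End F (ZMod q → F))).toMonoidHom (Units.mk0 z⁻¹ (inv_ne_zero hz0))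
  have hs : (s : Module.End F (ZMod q → F)) = algebraMap F (Module.End F (ZMod q → F)) z⁻¹ := rfl
  have hsc : ∀ Y : Module.End F (ZMod q → F), (s : Module.End F (ZMod q → F)) * Y = Y * s := by
    intro Y
    rw [hs]
    exact Algebra.commutes _ _
  refine ⟨s * U0, ?_, ?_⟩
  · apply Units.ext
    have h1 : Commute (s : Module.End F (ZMod q → F)) (U0 : Module.End F (ZMod q → F)) := hsc _
    rw [Units.val_pow_eq_pow_val, Units.val_mul, h1.mul_pow, hc, hs, ← map_pow, ← map_mul,
      Units.val_one, ← hz, inv_pow, inv_mul_cancel₀ (pow_ne_zero _ hz0), map_one]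
  · intro v
    rw [Units.val_mul, mul_assoc, hU, ← mul_assoc, hsc, mul_assoc]

end Pool.Agent.KGS
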