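import Pool.Agent.KGS.Xqp
import Pool.Agent.KGS.Xgl
import Pool.Agent.KGS.Xte
import Pool.Agent.KGS.Xdf
import Pool.Agent.KGS.Xhe

/-!
# KGS, row XDA: assembly of the data
-/

open Representation

namespace Pool.Agent.KGS

open Pool.Agent.KFV Pool.Agent.KFE

universe u v w

theorem exists_dat (F : Type u) [Field F] [IsAlgClosed F] (p : ℕ) [Fact p.Prime] [CharP F p] :
    ∃ (V : Type u) (_ : AddCommGroup V) (_ : Module F V) (_ : FiniteDimensional F V)
      (K : Subgroup (Module.End F V)ˣ) (T : (Module.End F V)ˣ), IsDat p K T := by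
  obtain ⟨q, hqp, hq2, hne, hq1, hqF, hq0, ψ, hψ⟩ := exists_q (F := F) p
  have : Fact q.Prime := ⟨hqp⟩
  obtain ⟨A, hA1, hAp, hAf⟩ := exists_A p q hq2 hq1
  obtain ⟨T, hTp, hT⟩ := exists_T hq2 ψ hψ hq0 A hA1 hAp
  obtain ⟨K, hKf, hKq, hK, hKirr⟩ := exists_hei hq2 ψ hψ hq0
  refine ⟨ZMod q → F, inferInstance, inferInstance, inferInstance, K, T, ?_⟩
  refine ⟨hKf, ?_, hTp, ?_, hKirr, ?_, ?_⟩
  · obtain ⟨n, hn⟩ := (IsPGroup.iff_card).1 hKq
    rw [hn]
    exact Nat.Coprime.pow_left n ((Nat.coprime_primes hqp Fact.out).2 hne)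
  · intro U hU
    obtain ⟨c, v, hcv⟩ := (hK U).1 hU
    rw [hK]
    refine ⟨c, A.mulVec v, ?_⟩
    rw [Units.val_mul, Units.val_mul, hcv, mul_smul_comm, smul_mul_assoc, hT, mul_assoc,
      Units.mul_inv, mul_one]
  · rw [Module.finrank_fintype_fun_eq_card, ZMod.card]
    exact hqF
  · intro f hf
    exact fixed_decomp hq2 ψ hψ hq0 A hAp hAf T hTp hT f hf

end Pool.Agent.KGS
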