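import Mathlib

/-!
# Row XQP (MP_1993d0_al): a prime `q` which is `-1` modulo `p`
-/

namespace Pool.Agent.KGS

/-- ROW XQP -/
theorem exists_q {F : Type*} [Field F] [IsAlgClosed F] (p : ℕ) [Fact p.Prime] [CharP F p] :
    ∃ q : ℕ, q.Prime ∧ q ≠ 2 ∧ q ≠ p ∧ (q : ZMod p) = -1 ∧ (q : F) = -1 ∧ (q : F) ≠ 0 ∧
      ∃ ψ : AddChar (ZMod q) F, ψ ≠ 1 := by
  have hp : p.Prime := Fact.out
  have hp0 : NeZero p := ⟨hp.ne_zero⟩
  obtain ⟨q, hgt, hq, hqp⟩ := Nat.forall_exists_prime_gt_and_eq_mod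
    (q := p) (a := (-1 : ZMod p)) isUnit_one.neg (2 + p)
  have hqF : (q : F) = -1 := by
    have h1 := congrArg (ZMod.castHom (dvd_refl p) F) hqp
    rw [map_natCast, map_neg, map_one] at h1
    exact h1
  have hqF0 : (q : F) ≠ 0 := by
    rw [hqF]
    exact neg_ne_zero.2 one_ne_zero
  refine ⟨q, hq, by omega, by omega, hqp, hqF, hqF0, ?_⟩
  have hq0 : NeZero q := ⟨hq.ne_zero⟩
  have hqF1 : NeZero (q : F) := ⟨hqF0⟩
  obtain ⟨ζ, hζ⟩ := HasEnoughRootsOfUnity.exists_primitiveRoot F q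
  refine ⟨AddChar.zmodChar q hζ.pow_eq_one, ?_⟩
  intro h
  have h2 := DFunLike.congr_fun h (1 : ZMod q)
  rw [AddChar.zmodChar_apply, AddChar.one_apply] at h2
  have h3 : (1 : ZMod q).val = 1 := by
    have : Fact (1 < q) := ⟨hq.one_lt⟩
    exact ZMod.val_one q
  rw [h3, pow_one] at h2
  exact hζ.ne_one hq.one_lt h2

end Pool.Agent.KGS
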